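import Pool.Agent.R201.UK.Stm

set_option autoImplicit false

open Set Metric MeasureTheory Filter Topology

namespace Pool.Agent.R201.UK

lemma om_im_pos (hBox : SBox) {w : ℂ} (hw : w ∈ Om) : 0 < w.im := by
  simp only [Om, mem_iUnion] at hw
  obtain ⟨k, j, hj, hw⟩ := hw
  have := (hBox k j w hw).2.1
  have h2 : (0:ℝ) < (1/2)^k := by positivity
  linarith

lemma pp_mem : PP 0 0 ∈ Om := by
  simp only [Om, mem_iUnion]
  refine ⟨0, 0, by simp, Or.inl ?_⟩
  apply Metric.self_subset_thickening (by unfold al; positivity)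
  exact left_mem_segment ℝ _ _

/-- the Riemann map of the tree domain -/
lemma riemann_om (hBox : SBox) (hDom : SDom) : ∃ F ψ : ℂ → ℂ,
    DifferentiableOn ℂ F Om ∧ F (PP 0 0) = 0 ∧ DifferentiableOn ℂ ψ (ball 0 1) ∧
    (∀ z ∈ ball (0 : ℂ) 1, ψ z ∈ Om ∧ F (ψ z) = z) ∧
    (∀ w ∈ Om, F w ∈ ball (0 : ℂ) 1 ∧ ψ (F w) = w) := by
  obtain ⟨hO, hC, hB, hS⟩ := hDom
  obtain ⟨F, ψ, h1, h2, h3, h4, h5, h6⟩ := R229.HN.riemann_upper hO hC
    (fun z hz => om_im_pos hBox hz) hS pp_mem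
  refine ⟨F, ψ, h1, h3, h4, fun z hz => ⟨h5 hz, ?_⟩, fun w hw => ⟨h2 hw, h6 w hw⟩⟩
  have hinj : InjOn F Om := fun x hx y hy h => by
    rw [← h6 x hx, ← h6 y hy, h]
  have hA1 : AnalyticOnNhd ℂ (fun z => F (ψ z)) (ball 0 1) := by
    apply DifferentiableOn.analyticOnNhd _ isOpen_ball
    exact h1.comp h4 h5
  have hA2 : AnalyticOnNhd ℂ (fun z : ℂ => z) (ball 0 1) := fun z _ => analyticAt_id
  have hfreq : ∃ᶠ z in 𝓝[≠] (0:ℂ), F (ψ z) = z := by
    have hcF : ContinuousAt F (PP 0 0) := (h1.differentiableAt (hO.mem_nhds pp_mem)).continuousAt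
    have ht : Tendsto F (𝓝[≠] (PP 0 0)) (𝓝[≠] (0:ℂ)) := by
      rw [tendsto_nhdsWithin_iff]
      constructor
      · have := hcF.tendsto
        rw [h3] at this
        exact this.mono_left nhdsWithin_le_nhds
      · have h7 : ∀ᶠ w in 𝓝[≠] (PP 0 0), w ∈ Om :=
          mem_nhdsWithin_of_mem_nhds (hO.mem_nhds pp_mem)
        filter_upwards [h7, self_mem_nhdsWithin] with w hw hne
        intro h0
        apply hne
        apply hinj hw pp_mem
        rw [h3]; exact h0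
    apply ht.frequently
    apply Eventually.frequently
    have h7 : ∀ᶠ w in 𝓝[≠] (PP 0 0), w ∈ Om :=
      mem_nhdsWithin_of_mem_nhds (hO.mem_nhds pp_mem)
    filter_upwards [h7] with w hw
    rw [h6 w hw]
  exact hA1.eqOn_of_preconnected_of_frequently_eq hA2
    (convex_ball (0:ℂ) 1).isPreconnected (mem_ball_self one_pos) hfreq hz

end Pool.Agent.R201.UK
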