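import Pool.Agent.R201.UK.Asm

set_option autoImplicit false

open Set Metric MeasureTheory Filter Topology

namespace Pool.Agent.R201.UK

lemma al_pos (k : ℕ) : 0 < al k := by unfold al; positivity

lemma dist_PQ (k j : ℕ) : dist (PP k j) (QQ k j) = (1/2)^(k+1) := by
  rw [Complex.dist_of_re_eq (by simp [PP, QQ])]
  show dist ((1/2:ℝ)^k) ((1/2:ℝ)^(k+1)) = _
  rw [Real.dist_eq]
  have : ((1:ℝ)/2)^k - (1/2)^(k+1) = (1/2)^(k+1) := by ring
  rw [this, abs_of_pos (by positivity)]

lemma dist_PPP (k j : ℕ) : dist (PP (k+1) (2*j)) (PP (k+1) (2*j+1)) = (1/2)^(k+1) := by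
  rw [dist_comm, Complex.dist_of_im_eq (by simp [PP])]
  show dist (xx (k+1) (2*j+1)) (xx (k+1) (2*j)) = _
  rw [Real.dist_eq]
  have : xx (k+1) (2*j+1) - xx (k+1) (2*j) = (1/2)^(k+1) := by
    unfold xx; push_cast; ring
  rw [this, abs_of_pos (by positivity)]

lemma lint_biUnion_le (s : Finset ℕ) (T : ℕ → Set ℂ) (f : ℂ → ENNReal) :
    ∫⁻ w in ⋃ j ∈ s, T j, f w ≤ ∑ j ∈ s, ∫⁻ w in T j, f w := by
  classical
  induction s using Finset.induction_on with
  | empty => simp
  | insert a s ha ih =>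
    rw [Finset.set_biUnion_insert, Finset.sum_insert ha]
    exact (lintegral_union_le _ _ _).trans (add_le_add le_rfl ih)

/-- integral of 1 + LL over a tube -/
lemma tube_int {C : ℝ} (hC : 0 ≤ C) (hW : ∀ a b : ℂ, ∀ α : ℝ, 0 < α →
  ∫⁻ w in Metric.thickening α (segment ℝ a b),
    ENNReal.ofReal (1 + Real.log (2 * α / (α - infDist w (segment ℝ a b)))) ≤
      ENNReal.ofReal (C * α * (α + dist a b))) {F : ℂ → ℂ} {k : ℕ} {a b : ℂ}
    (hd : dist a b = (1/2)^(k+1))
    (hL : ∀ w ∈ Metric.thickening (al k) (segment ℝ a b), LL F w ≤ 60 * (3 / 2) ^ k +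
      Real.log (2 * al k / (al k - infDist w (segment ℝ a b)))) :
    ∫⁻ w in Metric.thickening (al k) (segment ℝ a b), ENNReal.ofReal (1 + LL F w) ≤
      ENNReal.ofReal (61 * C / 8 * (1/4)^k) := by
  have hα := al_pos k
  have hal : al k ≤ (1/2)^(k+1) := by
    unfold al
    have h1 : ((1:ℝ)/3)^k ≤ (1/2)^k := pow_le_pow_left₀ (by norm_num) (by norm_num) k
    have h2 : (0:ℝ) < (1/2)^k := by positivity
    rw [pow_succ]
    linarith
  have hmeas : MeasurableSet (Metric.thickening (al k) (segment ℝ a b)) :=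
    Metric.isOpen_thickening.measurableSet
  calc ∫⁻ w in Metric.thickening (al k) (segment ℝ a b), ENNReal.ofReal (1 + LL F w)
      ≤ ∫⁻ w in Metric.thickening (al k) (segment ℝ a b),
        ENNReal.ofReal (61 * (3/2)^k) *
        ENNReal.ofReal (1 + Real.log (2 * al k / (al k - infDist w (segment ℝ a b)))) := by
        apply setLIntegral_mono' hmeas
        intro w hw
        rw [← ENNReal.ofReal_mul (by positivity)]
        apply ENNReal.ofReal_le_ofReal
        have h1 := hL w hw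
        have hlt : infDist w (segment ℝ a b) < al k := by
          rw [Metric.mem_thickening_iff_infDist_lt] at hw
          · exact hw
          · exact ⟨a, left_mem_segment ℝ a b⟩
        have h0 : 0 ≤ infDist w (segment ℝ a b) := infDist_nonneg
        have hlog : 0 ≤ Real.log (2 * al k / (al k - infDist w (segment ℝ a b))) := by
          apply Real.log_nonneg
          rw [le_div_iff₀ (by linarith)]
          linarith
        have hp : (1:ℝ) ≤ (3/2)^k := one_le_pow₀ (by norm_num)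
        nlinarith
    _ = ENNReal.ofReal (61 * (3/2)^k) * ∫⁻ w in Metric.thickening (al k) (segment ℝ a b),
        ENNReal.ofReal (1 + Real.log (2 * al k / (al k - infDist w (segment ℝ a b)))) := by
        rw [lintegral_const_mul']
        exact ENNReal.ofReal_ne_top
    _ ≤ ENNReal.ofReal (61 * (3/2)^k) * ENNReal.ofReal (C * al k * (al k + dist a b)) := by
        gcongr
        exact hW a b (al k) hα
    _ ≤ ENNReal.ofReal (61 * C / 8 * (1/4)^k) := by
        rw [← ENNReal.ofReal_mul (by positivity)]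
        apply ENNReal.ofReal_le_ofReal
        rw [hd]
        have h3 : al k + (1/2)^(k+1) ≤ (1/2)^k := by
          have : ((1:ℝ)/2)^k = (1/2)^(k+1) + (1/2)^(k+1) := by ring
          linarith
        have h4 : (3/2:ℝ)^k * (1/3)^k * (1/2)^k = (1/4)^k := by
          rw [← mul_pow, ← mul_pow]; norm_num
        calc 61 * (3/2)^k * (C * al k * (al k + (1/2)^(k+1)))
            ≤ 61 * (3/2)^k * (C * al k * (1/2)^k) := by gcongr
          _ = 61 * C / 8 * ((3/2:ℝ)^k * (1/3)^k * (1/2)^k) := by unfold al; ring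
          _ = _ := by rw [h4]

/-- integral of 1 + LL over a piece -/
lemma piece_int (hWall : SWall) : ∃ C : ℝ, 0 ≤ C ∧ ∀ F : ℂ → ℂ,
    (∀ k j : ℕ, j < 2 ^ k →
    (∀ w ∈ VV k j, LL F w ≤ 60 * (3 / 2) ^ k +
      Real.log (2 * al k / (al k - infDist w (segment ℝ (PP k j) (QQ k j))))) ∧
    (∀ w ∈ HH k j, LL F w ≤ 60 * (3 / 2) ^ k +
      Real.log (2 * al k / (al k - infDist w
        (segment ℝ (PP (k + 1) (2 * j)) (PP (k + 1) (2 * j + 1))))))) →
    ∀ k j : ℕ, j < 2 ^ k → ∫⁻ w in TT k j, ENNReal.ofReal (1 + LL F w) ≤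
      ENNReal.ofReal (C * (1/4)^k) := by
  obtain ⟨C, hC, hW⟩ := hWall
  refine ⟨61 * C / 4, by positivity, ?_⟩
  intro F hL k j hj
  obtain ⟨h1, h2⟩ := hL k j hj
  have e1 := tube_int hC hW (dist_PQ k j) h1
  have e2 := tube_int hC hW (dist_PPP k j) h2
  calc ∫⁻ w in TT k j, ENNReal.ofReal (1 + LL F w)
      ≤ (∫⁻ w in VV k j, ENNReal.ofReal (1 + LL F w)) +
        ∫⁻ w in HH k j, ENNReal.ofReal (1 + LL F w) := by
        unfold TT
        exact lintegral_union_le _ _ _
    _ ≤ ENNReal.ofReal (61 * C / 8 * (1/4)^k) + ENNReal.ofReal (61 * C / 8 * (1/4)^k) :=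
        add_le_add e1 e2
    _ = ENNReal.ofReal (61 * C / 4 * (1/4)^k) := by
        rw [← ENNReal.ofReal_add (by positivity) (by positivity)]
        congr 1; ring

/-- the weighted integral over the tree domain -/
lemma om_int (hPn : SPn) (hSum : SSum) (hWall : SWall) (hBox : SBox) (hLog : SLog) :
    ∃ C : ℝ, 0 ≤ C ∧ ∀ F : ℂ → ℂ, DifferentiableOn ℂ F Om → MapsTo F Om (ball 0 1) →
      F (PP 0 0) = 0 → ∀ n : ℕ, 1 ≤ n → ∀ l : ℂ, ‖l‖ = 1 →
      ∫⁻ w in Om, ENNReal.ofReal (1 + LL F w) *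
        ENNReal.ofReal (‖deriv (pn n) (l * Complex.exp (Complex.I * w))‖ ^ 2) ≤
        ENNReal.ofReal C := by
  obtain ⟨C1, hC1, hP⟩ := hPn
  obtain ⟨C2, hC2, hS⟩ := hSum
  obtain ⟨C3, hC3, hI⟩ := piece_int hWall
  refine ⟨C1 * C3 * C2, by positivity, ?_⟩
  intro F hF hmap h0 n hn l hl
  obtain ⟨θ, hθ⟩ := hP l hl
  have hI' := hI F (hLog F hF hmap h0)
  set B : ℕ → ℕ → ℝ := fun k j => min ((n : ℝ) ^ 2)
        (((1 / 2) ^ k + |xx k j - θ|)⁻¹ ^ 2 * min 1 ((2 ^ k / (n : ℝ)) ^ 2)) with hB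
  have hB0 : ∀ k j, 0 ≤ B k j := fun k j => by
    simp only [hB]; positivity
  calc ∫⁻ w in Om, ENNReal.ofReal (1 + LL F w) *
        ENNReal.ofReal (‖deriv (pn n) (l * Complex.exp (Complex.I * w))‖ ^ 2)
      ≤ ∑' k : ℕ, ∫⁻ w in ⋃ j ∈ Finset.range (2 ^ k), TT k j, ENNReal.ofReal (1 + LL F w) *
        ENNReal.ofReal (‖deriv (pn n) (l * Complex.exp (Complex.I * w))‖ ^ 2) := by
        unfold Om
        exact lintegral_iUnion_le _ _
    _ ≤ ∑' k : ℕ, ∑ j ∈ Finset.range (2 ^ k), ∫⁻ w in TT k j, ENNReal.ofReal (1 + LL F w) *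
        ENNReal.ofReal (‖deriv (pn n) (l * Complex.exp (Complex.I * w))‖ ^ 2) := by
        apply ENNReal.tsum_le_tsum
        intro k
        exact lint_biUnion_le _ _ _
    _ ≤ ∑' k : ℕ, ∑ j ∈ Finset.range (2 ^ k), ENNReal.ofReal (C1 * C3) *
        ENNReal.ofReal ((1 / 4) ^ k * B k j) := by
        apply ENNReal.tsum_le_tsum
        intro k
        apply Finset.sum_le_sum
        intro j hj
        rw [Finset.mem_range] at hj
        have hTm : MeasurableSet (TT k j) := by
          unfold TT VV HH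
          exact (Metric.isOpen_thickening.union Metric.isOpen_thickening).measurableSet
        calc ∫⁻ w in TT k j, ENNReal.ofReal (1 + LL F w) *
              ENNReal.ofReal (‖deriv (pn n) (l * Complex.exp (Complex.I * w))‖ ^ 2)
            ≤ ∫⁻ w in TT k j, ENNReal.ofReal (1 + LL F w) * ENNReal.ofReal (C1 * B k j) := by
              apply setLIntegral_mono' hTm
              intro w hw
              gcongr
              obtain ⟨b1, b2, b3⟩ := hBox k j w hw
              exact hθ n hn k j hj w b1 b2 b3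
          _ = (∫⁻ w in TT k j, ENNReal.ofReal (1 + LL F w)) * ENNReal.ofReal (C1 * B k j) := by
              rw [lintegral_mul_const']
              exact ENNReal.ofReal_ne_top
          _ ≤ ENNReal.ofReal (C3 * (1/4)^k) * ENNReal.ofReal (C1 * B k j) := by
              gcongr
              exact hI' k j hj
          _ = ENNReal.ofReal (C1 * C3) * ENNReal.ofReal ((1 / 4) ^ k * B k j) := by
              rw [← ENNReal.ofReal_mul (by positivity), ← ENNReal.ofReal_mul (by positivity)]
              congr 1; ring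
    _ = ENNReal.ofReal (C1 * C3) * ∑' k : ℕ, ∑ j ∈ Finset.range (2 ^ k),
        ENNReal.ofReal ((1 / 4) ^ k * B k j) := by
        rw [← ENNReal.tsum_mul_left]
        congr 1
        ext k
        rw [Finset.mul_sum]
    _ ≤ ENNReal.ofReal (C1 * C3) * ENNReal.ofReal C2 := by
        gcongr
        exact hS n hn θ
    _ = ENNReal.ofReal (C1 * C3 * C2) := by
        rw [← ENNReal.ofReal_mul (by positivity)]

end Pool.Agent.R201.UK
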