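import Pool.Agent.R201.UK.Asm2

set_option autoImplicit false

open Set Metric MeasureTheory Filter Topology

namespace Pool.Agent.R201.UK

lemma pn_eq (n : ℕ) (l u v : ℂ) :
    ((n : ℂ) + 1)⁻¹ * ∑ k ∈ Finset.range (n + 1), l ^ k * (u ^ k * v) = pn n (l * u) * v := by
  unfold pn
  rw [mul_assoc, Finset.sum_mul]
  congr 1
  apply Finset.sum_congr rfl
  intro k _
  rw [mul_pow]; ring

lemma pn_norm_le (n : ℕ) (u : ℂ) (hu : ‖u‖ ≤ 1) : ‖pn n u‖ ≤ 1 := by
  unfold pn
  rw [norm_mul, norm_inv]
  have h1 : ‖((n:ℂ) + 1)‖ = (n:ℝ) + 1 := by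
    have : ((n:ℂ) + 1) = (((n:ℝ) + 1 : ℝ) : ℂ) := by push_cast; ring
    rw [this, Complex.norm_real, Real.norm_of_nonneg (by positivity)]
  rw [h1]
  have h2 : ‖∑ k ∈ Finset.range (n + 1), u ^ k‖ ≤ (n:ℝ) + 1 := by
    calc ‖∑ k ∈ Finset.range (n + 1), u ^ k‖ ≤ ∑ k ∈ Finset.range (n + 1), ‖u ^ k‖ := norm_sum_le _ _
      _ ≤ ∑ k ∈ Finset.range (n + 1), (1:ℝ) := by
          apply Finset.sum_le_sum
          intro k _
          rw [norm_pow]
          exact pow_le_one₀ (norm_nonneg _) hu
      _ = (n:ℝ) + 1 := by simp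
  rw [inv_mul_le_iff₀ (by positivity)]
  linarith

lemma pn_diff (n : ℕ) : Differentiable ℂ (pn n) := by
  unfold pn
  fun_prop

lemma pn_one (u : ℂ) : pn 1 u = (1 + u) / 2 := by
  unfold pn
  simp [Finset.sum_range_succ]
  ring

lemma tc_one (n : ℕ) : tc (fun _ => 1) n = if n = 0 then 1 else 0 := by
  unfold tc
  by_cases h : n = 0
  · subst h; simp
  · rw [if_neg h]
    have : iteratedDeriv n (fun _ : ℂ => (1:ℂ)) = fun _ => 0 := by
      ext x
      rw [iteratedDeriv_const]
      simp [h]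
    rw [this]; simp

lemma dn_one : dn (fun _ => 1) = 1 := by
  unfold dn
  rw [tsum_eq_single 0]
  · simp [tc_one]
  · intro n hn
    rw [tc_one, if_neg hn]
    simp

lemma inD_one : InD (fun _ => 1) := ⟨differentiableOn_const _, by rw [dn_one]; exact ENNReal.one_lt_top⟩

theorem main (hArea : SArea) (hOp : SOp) (hPn : SPn) (hSum : SSum) (hWall : SWall) (hBox : SBox)
    (hDom : SDom) (hLog : SLog) (hCov : SCov) (hLow : SLow) : SMain := by
  obtain ⟨F, ψ, hF, hF0, hψ, hψF, hFψ⟩ := riemann_om hBox hDom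
  obtain ⟨C, hC, hInt⟩ := om_int hPn hSum hWall hBox hLog
  have hmapF : MapsTo F Om (ball 0 1) := fun w hw => (hFψ w hw).1
  set φ : ℂ → ℂ := fun z => Complex.exp (Complex.I * ψ z) with hφ
  have hφd : DifferentiableOn ℂ φ (ball 0 1) := by
    intro z hz
    exact ((hψ z hz).const_mul Complex.I).cexp
  have hφn : ∀ z, ‖φ z‖ = Real.exp (-(ψ z).im) := by
    intro z
    simp only [hφ]
    rw [Complex.norm_exp]
    congr 1
    simp
  have hφ1 : ∀ z ∈ ball (0:ℂ) 1, ‖φ z‖ ≤ 1 := by
    intro z hz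
    rw [hφn z, Real.exp_le_one_iff]
    have := om_im_pos hBox (hψF z hz).1
    linarith
  have hφder : ∀ z ∈ ball (0:ℂ) 1, HasDerivAt φ (φ z * (Complex.I * deriv ψ z)) z := by
    intro z hz
    have h1 : HasDerivAt ψ (deriv ψ z) z := (hψ.differentiableAt (isOpen_ball.mem_nhds hz)).hasDerivAt
    exact (h1.const_mul Complex.I).cexp
  -- the key integral
  have hkey : ∀ n : ℕ, 1 ≤ n → ∀ l : ℂ, ‖l‖ = 1 →
      ∫⁻ z in ball (0 : ℂ) 1, ENNReal.ofReal (1 - Real.log (1 - ‖z‖)) *
        ENNReal.ofReal (‖deriv (fun z => pn n (l * φ z)) z‖ ^ 2) ≤ ENNReal.ofReal C := by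
    intro n hn l hl
    have hder : ∀ z ∈ ball (0:ℂ) 1, deriv (fun z => pn n (l * φ z)) z =
        deriv (pn n) (l * φ z) * (l * (φ z * (Complex.I * deriv ψ z))) := by
      intro z hz
      have h1 : HasDerivAt (pn n) (deriv (pn n) (l * φ z)) (l * φ z) :=
        (pn_diff n _).hasDerivAt
      exact (h1.comp z ((hφder z hz).const_mul l)).deriv
    calc ∫⁻ z in ball (0 : ℂ) 1, ENNReal.ofReal (1 - Real.log (1 - ‖z‖)) *
        ENNReal.ofReal (‖deriv (fun z => pn n (l * φ z)) z‖ ^ 2)
        ≤ ∫⁻ z in ball (0 : ℂ) 1, (ENNReal.ofReal (1 - Real.log (1 - ‖z‖)) *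
          ENNReal.ofReal (‖deriv (pn n) (l * Complex.exp (Complex.I * ψ z))‖ ^ 2)) *
            ENNReal.ofReal (‖deriv ψ z‖ ^ 2) := by
          apply setLIntegral_mono' measurableSet_ball
          intro z hz
          rw [mul_assoc]
          gcongr
          rw [← ENNReal.ofReal_mul (by positivity)]
          apply ENNReal.ofReal_le_ofReal
          rw [hder z hz]
          simp only [norm_mul, hl, Complex.norm_I, one_mul]
          rw [← mul_pow]
          apply pow_le_pow_left₀ (by positivity)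
          have h1 := hφ1 z hz
          calc ‖deriv (pn n) (l * φ z)‖ * (‖φ z‖ * ‖deriv ψ z‖)
              ≤ ‖deriv (pn n) (l * φ z)‖ * (1 * ‖deriv ψ z‖) := by gcongr
            _ = _ := by rw [one_mul]
      _ = ∫⁻ w in Om, ENNReal.ofReal (1 - Real.log (1 - ‖F w‖)) *
          ENNReal.ofReal (‖deriv (pn n) (l * Complex.exp (Complex.I * ψ (F w)))‖ ^ 2) :=
          hCov Om F ψ hψ hψF hFψ _
      _ = ∫⁻ w in Om, ENNReal.ofReal (1 + LL F w) *
        ENNReal.ofReal (‖deriv (pn n) (l * Complex.exp (Complex.I * w))‖ ^ 2) := by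
          apply setLIntegral_congr_fun hDom.1.measurableSet
          intro w hw
          simp only
          rw [(hFψ w hw).2]
          unfold LL
          rw [← sub_eq_add_neg]
      _ ≤ ENNReal.ofReal C := hInt F hF hmapF hF0 n hn l hl
  refine ⟨φ, ?_, ?_, ?_⟩
  · -- multiplier
    obtain ⟨C', hC'⟩ := hOp (4 * C) (by positivity)
    refine ⟨C', fun f hf => ?_⟩
    have h1 : ∫⁻ z in ball (0 : ℂ) 1, ENNReal.ofReal (1 - Real.log (1 - ‖z‖)) *
        ENNReal.ofReal (‖deriv φ z‖ ^ 2) ≤ ENNReal.ofReal (4 * C) := by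
      have h2 := hkey 1 le_rfl 1 (by simp)
      have h3 : ∀ z ∈ ball (0:ℂ) 1, deriv (fun z => pn 1 (1 * φ z)) z = deriv φ z / 2 := by
        intro z hz
        have h4 : (fun z => pn 1 (1 * φ z)) = fun z => (1 + φ z) / 2 := by
          ext z; rw [one_mul, pn_one]
        rw [h4]
        rw [(((hφder z hz).const_add 1).div_const 2).deriv, (hφder z hz).deriv]
      calc ∫⁻ z in ball (0 : ℂ) 1, ENNReal.ofReal (1 - Real.log (1 - ‖z‖)) *
            ENNReal.ofReal (‖deriv φ z‖ ^ 2)
          = ∫⁻ z in ball (0 : ℂ) 1, ENNReal.ofReal 4 * (ENNReal.ofReal (1 - Real.log (1 - ‖z‖)) *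
            ENNReal.ofReal (‖deriv (fun z => pn 1 (1 * φ z)) z‖ ^ 2)) := by
            apply setLIntegral_congr_fun measurableSet_ball
            intro z hz
            simp only
            rw [h3 z hz, mul_left_comm]
            congr 1
            rw [← ENNReal.ofReal_mul (by norm_num)]
            congr 1
            rw [norm_div]
            simp only [Complex.norm_ofNat]
            ring
        _ = ENNReal.ofReal 4 * ∫⁻ z in ball (0 : ℂ) 1, (ENNReal.ofReal (1 - Real.log (1 - ‖z‖)) *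
            ENNReal.ofReal (‖deriv (fun z => pn 1 (1 * φ z)) z‖ ^ 2)) := by
            rw [lintegral_const_mul']
            exact ENNReal.ofReal_ne_top
        _ ≤ ENNReal.ofReal 4 * ENNReal.ofReal C := by gcongr
        _ = ENNReal.ofReal (4 * C) := by rw [ENNReal.ofReal_mul (by norm_num)]
    have h5 := hC' φ hφd hφ1 h1 f hf
    refine ⟨⟨hφd.mul hf.1, ?_⟩, h5⟩
    exact lt_of_le_of_lt h5 (ENNReal.mul_lt_top ENNReal.ofReal_lt_top hf.2)
  · -- UKB
    obtain ⟨C', hC'⟩ := hOp C hC
    refine ⟨max C' 1, fun n l hl f hf => ?_⟩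
    have hfun : (fun z => ((n : ℂ) + 1)⁻¹ * ∑ k ∈ Finset.range (n + 1), l ^ k * (φ z ^ k * f z)) =
        fun z => pn n (l * φ z) * f z := by
      ext z; rw [pn_eq]
    rw [hfun]
    rcases Nat.eq_zero_or_pos n with hn | hn
    · subst hn
      have : (fun z => pn 0 (l * φ z) * f z) = f := by
        ext z; simp [pn]
      rw [this]
      calc dn f = ENNReal.ofReal 1 * dn f := by simp
        _ ≤ ENNReal.ofReal (max C' 1) * dn f := by
          gcongr
          exact le_max_right _ _
    · have h1 : ∀ z ∈ ball (0 : ℂ) 1, ‖pn n (l * φ z)‖ ≤ 1 := by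
        intro z hz
        apply pn_norm_le
        rw [norm_mul, hl, one_mul]
        exact hφ1 z hz
      have h2 : DifferentiableOn ℂ (fun z => pn n (l * φ z)) (ball 0 1) :=
        (pn_diff n).comp_differentiableOn (hφd.const_mul l)
      calc dn (fun z => pn n (l * φ z) * f z) ≤ ENNReal.ofReal C' * dn f :=
            hC' _ h2 h1 (hkey n hn l hl) f hf
        _ ≤ ENNReal.ofReal (max C' 1) * dn f := by
          gcongr
          exact le_max_left _ _
  · -- not PB
    rintro ⟨K, hK⟩
    obtain ⟨c, hc, hlow⟩ := hLow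
    -- lower bound of the norm of the powers
    have hpow : ∀ k : ℕ, ENNReal.ofReal (c * (4/3)^k) ≤ ENNReal.ofReal (Real.pi * K) := by
      intro k
      set n : ℕ := 2 ^ k with hn
      have hn1 : 1 ≤ n := Nat.one_le_two_pow
      have hK1 := hK n (fun _ => 1) inD_one
      rw [dn_one, mul_one] at hK1
      have hfun : (fun z => φ z ^ n * 1) = fun z => φ z ^ n := by ext z; rw [mul_one]
      rw [hfun] at hK1
      have hdiff : DifferentiableOn ℂ (fun z => φ z ^ n) (ball 0 1) := hφd.pow n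
      have hA := hArea _ hdiff
      have hderp : ∀ z ∈ ball (0:ℂ) 1, deriv (fun z => φ z ^ n) z =
          n * φ z ^ (n-1) * (φ z * (Complex.I * deriv ψ z)) := by
        intro z hz
        exact ((hφder z hz).pow n).deriv
      have hn' : n - 1 + 1 = n := Nat.sub_add_cancel hn1
      have hI : ∫⁻ z in ball (0 : ℂ) 1, ENNReal.ofReal (‖deriv (fun z => φ z ^ n) z‖ ^ 2) =
          ∫⁻ w in Om, ENNReal.ofReal ((n:ℝ)^2 * Real.exp (-(2 * (2 : ℝ) ^ k * w.im))) := by
        calc ∫⁻ z in ball (0 : ℂ) 1, ENNReal.ofReal (‖deriv (fun z => φ z ^ n) z‖ ^ 2)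
            = ∫⁻ z in ball (0 : ℂ) 1,
              ENNReal.ofReal ((n:ℝ)^2 * Real.exp (-(2 * (2 : ℝ) ^ k * (ψ z).im))) *
                ENNReal.ofReal (‖deriv ψ z‖ ^ 2) := by
              apply setLIntegral_congr_fun measurableSet_ball
              intro z hz
              simp only
              rw [← ENNReal.ofReal_mul (by positivity), hderp z hz]
              congr 1
              simp only [norm_mul, norm_pow, Complex.norm_I, one_mul, Complex.norm_natCast]
              have e1 : (n:ℝ) * ‖φ z‖ ^ (n-1) * (‖φ z‖ * ‖deriv ψ z‖) =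
                  n * ‖φ z‖ ^ n * ‖deriv ψ z‖ := by
                have : ‖φ z‖ ^ n = ‖φ z‖ ^ (n-1) * ‖φ z‖ := by
                  rw [← pow_succ, hn']
                rw [this]; ring
              rw [e1, hφn z, ← Real.exp_nat_mul, mul_pow, mul_pow, ← Real.exp_nat_mul]
              congr 3
              rw [hn]; push_cast; ring
          _ = ∫⁻ w in Om,
              ENNReal.ofReal ((n:ℝ)^2 * Real.exp (-(2 * (2 : ℝ) ^ k * (ψ (F w)).im))) :=
              hCov Om F ψ hψ hψF hFψ
                (fun z => ENNReal.ofReal ((n:ℝ)^2 * Real.exp (-(2 * (2 : ℝ) ^ k * (ψ z).im))))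
          _ = _ := by
              apply setLIntegral_congr_fun hDom.1.measurableSet
              intro w hw
              simp only
              rw [(hFψ w hw).2]
      have h6 : ENNReal.ofReal (c * (4/3)^k) ≤
          ∫⁻ w in Om, ENNReal.ofReal ((n:ℝ)^2 * Real.exp (-(2 * (2 : ℝ) ^ k * w.im))) := by
        calc ENNReal.ofReal (c * (4/3)^k)
            = ENNReal.ofReal ((n:ℝ)^2) * ENNReal.ofReal (c * (1/3)^k) := by
              rw [← ENNReal.ofReal_mul (by positivity)]
              congr 1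
              rw [hn]; push_cast
              have : ((4:ℝ)/3)^k = (2^k)^2 * (1/3)^k := by
                rw [← pow_mul, mul_comm k 2, pow_mul, ← mul_pow]; norm_num
              rw [this]; ring
          _ ≤ ENNReal.ofReal ((n:ℝ)^2) *
              ∫⁻ w in Om, ENNReal.ofReal (Real.exp (-(2 * (2 : ℝ) ^ k * w.im))) := by
              gcongr
              exact hlow k
          _ = ∫⁻ w in Om, ENNReal.ofReal ((n:ℝ)^2) *
              ENNReal.ofReal (Real.exp (-(2 * (2 : ℝ) ^ k * w.im))) := by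
              rw [lintegral_const_mul']
              exact ENNReal.ofReal_ne_top
          _ = _ := by
              apply lintegral_congr
              intro w
              rw [← ENNReal.ofReal_mul (by positivity)]
      have h7 : ∑' m : ℕ, ENNReal.ofReal ((m : ℝ) * ‖tc (fun z => φ z ^ n) m‖ ^ 2) ≤
          dn (fun z => φ z ^ n) := by
        unfold dn
        apply ENNReal.tsum_le_tsum
        intro m
        apply ENNReal.ofReal_le_ofReal
        nlinarith [sq_nonneg (‖tc (fun z => φ z ^ n) m‖)]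
      calc ENNReal.ofReal (c * (4/3)^k) ≤ _ := h6
        _ = ENNReal.ofReal Real.pi * ∑' m : ℕ, ENNReal.ofReal ((m : ℝ) *
            ‖tc (fun z => φ z ^ n) m‖ ^ 2) := by rw [← hI, hA]
        _ ≤ ENNReal.ofReal Real.pi * dn (fun z => φ z ^ n) := by gcongr
        _ ≤ ENNReal.ofReal Real.pi * ENNReal.ofReal K := by gcongr
        _ = ENNReal.ofReal (Real.pi * K) := by rw [ENNReal.ofReal_mul Real.pi_pos.le]
    have hK0 : 0 < Real.pi * K := by
      have h1 := hpow 0
      have h2 : (0:ENNReal) < ENNReal.ofReal (c * (4/3)^0) := by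
        rw [ENNReal.ofReal_pos]; positivity
      exact ENNReal.ofReal_pos.1 (lt_of_lt_of_le h2 h1)
    have ht : Tendsto (fun k : ℕ => c * (4/3:ℝ)^k) atTop atTop :=
      (tendsto_pow_atTop_atTop_of_one_lt (by norm_num)).const_mul_atTop hc
    obtain ⟨k, hk⟩ := (ht.eventually_gt_atTop (Real.pi * K)).exists
    have := (ENNReal.ofReal_le_ofReal_iff hK0.le).1 (hpow k)
    linarith

end Pool.Agent.R201.UK
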