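import Mathlib

/-! # Uniformly Kreiss bounded multiplication operators on the Dirichlet space: definitions -/

set_option autoImplicit false

open Set Metric MeasureTheory

namespace Pool.Agent.R201.UK

/-- The `n`-th Taylor coefficient of `f` at `0`. -/
noncomputable def tc (f : ℂ → ℂ) (n : ℕ) : ℂ := iteratedDeriv n f 0 / (n.factorial : ℂ)

/-- The square of the Dirichlet norm: `∑ (n+1) |a_n|^2`. -/
noncomputable def dn (f : ℂ → ℂ) : ENNReal :=
  ∑' n : ℕ, ENNReal.ofReal (((n : ℝ) + 1) * ‖tc f n‖ ^ 2)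

/-- `f` belongs to the Dirichlet space `D₀`: it is analytic in the open unit disc and has finite
Dirichlet norm. -/
def InD (f : ℂ → ℂ) : Prop := DifferentiableOn ℂ f (ball 0 1) ∧ dn f < ⊤

/-- `φ` is a multiplier of `D₀`: `f ↦ φ f` is a bounded operator on `D₀`. -/
def IsMultiplier (φ : ℂ → ℂ) : Prop :=
  ∃ C : ℝ, ∀ f : ℂ → ℂ, InD f → InD (fun z => φ z * f z) ∧
    dn (fun z => φ z * f z) ≤ ENNReal.ofReal C * dn f

/-- `M_φ` is uniformly Kreiss bounded on `D₀`: the Cesaro means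
`(n+1)⁻¹ ∑_{k ≤ n} (l M_φ)^k`, `|l| = 1`, are uniformly bounded. -/
def UKB (φ : ℂ → ℂ) : Prop :=
  ∃ C : ℝ, ∀ n : ℕ, ∀ l : ℂ, ‖l‖ = 1 → ∀ f : ℂ → ℂ, InD f →
    dn (fun z => ((n : ℂ) + 1)⁻¹ * ∑ k ∈ Finset.range (n + 1), l ^ k * (φ z ^ k * f z)) ≤
      ENNReal.ofReal C * dn f

/-- `M_φ` is power bounded on `D₀`. -/
def PB (φ : ℂ → ℂ) : Prop :=
  ∃ C : ℝ, ∀ n : ℕ, ∀ f : ℂ → ℂ, InD f →
    dn (fun z => φ z ^ n * f z) ≤ ENNReal.ofReal C * dn f

/-! ## Auxiliary objects -/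

/-- The Cesaro polynomial. -/
noncomputable def pn (n : ℕ) (u : ℂ) : ℂ := ((n : ℂ) + 1)⁻¹ * ∑ k ∈ Finset.range (n + 1), u ^ k

/-- real part of the nodes of generation `k` -/
noncomputable def xx (k j : ℕ) : ℝ := (2 * (j : ℝ) + 1) * (1 / 2) ^ (k + 1)

/-- half-width of the tubes of generation `k` -/
noncomputable def al (k : ℕ) : ℝ := (1 / 3) ^ k / 8

/-- upper node -/
noncomputable def PP (k j : ℕ) : ℂ := ⟨xx k j, (1 / 2) ^ k⟩
/-- lower node -/
noncomputable def QQ (k j : ℕ) : ℂ := ⟨xx k j, (1 / 2) ^ (k + 1)⟩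

/-- vertical tube -/
noncomputable def VV (k j : ℕ) : Set ℂ := Metric.thickening (al k) (segment ℝ (PP k j) (QQ k j))

/-- horizontal tube -/
noncomputable def HH (k j : ℕ) : Set ℂ :=
  Metric.thickening (al k) (segment ℝ (PP (k + 1) (2 * j)) (PP (k + 1) (2 * j + 1)))

/-- T-shaped piece -/
noncomputable def TT (k j : ℕ) : Set ℂ := VV k j ∪ HH k j

/-- the tree domain -/
noncomputable def Om : Set ℂ := ⋃ k : ℕ, ⋃ j ∈ Finset.range (2 ^ k), TT k j

/-- logarithmic size -/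
noncomputable def LL (F : ℂ → ℂ) (w : ℂ) : ℝ := - Real.log (1 - ‖F w‖)

end Pool.Agent.R201.UK
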