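import Pool.Agent.R201.UK.Stm

/-! # MP_f04e08_an: complete proofs of the pieces (statements in Stm.lean, definitions in Defs.lean)

Answer: YES. phi = exp(i psi), psi = Riemann map of the unit disc D onto the tree domain Om
(a binary tree of thin tubes, generation k has 2^k T-shaped pieces at height about 2^-k, tube
half-width al k = 3^-k / 8). With p_n(u) = (n+1)^-1 sum_{k <= n} u^k the scalar criterion
  int_D (1 + log 1/(1-|z|)) |(p_n(l phi))'|^2 dA <= C   (all n, |l| = 1)
gives UKB, and int_D |(phi^n)'|^2 = n^2 int_Om e^{-2 n Im w} dA -> infinity (n = 2^k) kills PB.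

Every piece may use every other piece as a hypothesis (write `theorem foo (h : SArea) : SOp`).

## P1 SArea (about 100 lines)
f = sum a_n z^n on the disc (a_n = tc f n; HasFPowerSeriesOnBall via DifferentiableOn.hasFPowerSeriesOnBall
/ Complex.hasSum_taylorSeries_on_ball), f' = sum n a_n z^{n-1}. Polar coordinates
(Complex.lintegral_comp_polarCoord_symm or volume of circles), Parseval on each circle |z| = r < 1 :
int_0^{2 pi} |f'(r e^{it})|^2 dt = 2 pi sum n^2 |a_n|^2 r^{2n-2}, then int_0^1 r^{2n-1} dr = 1/(2n) and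
monotone convergence (lintegral_tsum).

## P2 SEval (about 50 lines)
|f z|^2 <= (sum |a_n| |z|^n)^2 <= (sum (n+1)|a_n|^2) (sum |z|^{2n}/(n+1)) (Cauchy-Schwarz, trivial if
dn f = top since the factor is >= 1), and sum x^n/(n+1) <= 1 + sum_{n>=1} x^n/n = 1 - log(1-x),
x = |z|^2 <= |z| (Real.hasSum_pow_div_log_of_abs_lt_one).

## P3 SOp (about 70 lines), uses SArea, SEval
dn h <= 2 (|h 0|^2 + pi^-1 int |h'|^2) (since n+1 <= 2n for n >= 1; tc h 0 = h 0) and
|h 0|^2 + pi^-1 int |h'|^2 <= dn h. With h = g f: |h 0| <= |f 0|,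
|h'|^2 <= 2 |g'|^2 |f|^2 + 2 |f'|^2, |f z|^2 <= (1 - log(1-|z|)) dn f. So C' = 6 + 4 C / pi works.

## P4 SPn (about 120 lines)
deriv (pn n) u = (n+1)^-1 sum_{k=1}^n k u^{k-1}; so norm <= n for |u| <= 1, and for u != 1
sum_{k=1}^n k u^{k-1} = (1-u^n)/(1-u)^2 - n u^n/(1-u), so norm <= 2/((n+1)|1-u|^2) + |u|^n/|1-u|.
l = exp(-i th0); choose θ = th0 + 2 pi m with |θ - 1/2| <= pi. u = exp(i (w - θ)), |u| = e^{-y},
y = Im w in [3/8 2^-k, 9/8 2^-k], x = Re w in (0,1). |1-u| >= 1 - e^{-y} >= y/2 (y <= 9/8), and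
|1-u|^2 = (1-r)^2 + 4 r sin^2((x-θ)/2), r = e^{-y} >= e^{-9/8}, |x-θ| <= pi + 1/2, so |1-u| >= c |x-θ|
(c = 1/10 is more than enough: |sin(t/2)| >= |t|/8 for |t| <= pi + 1/2). Put eta = 2^-k + |xx k j - θ|;
|xx k j - θ| <= |x-θ| + 2^-k, y >= 3/8 2^-k, so |1-u| >= c' eta. Also e^{-ny} <= min(1, 1/(ny)) <=
3 min(1, 2^k/n). Case 2^k <= n: |p_n'| <= C/(n eta^2) + C (2^k/n)/eta <= C (2^k/n)/eta since 1/eta <= 2^k;
and |p_n'| <= n. Case 2^k > n: if eta >= 1/n: 1/(n eta^2) <= 1/eta; if eta < 1/n: |p_n'| <= n <= 1/eta.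
So |p_n'| <= C min(n, (1/eta) min(1, 2^k/n)) in both cases; square it.

## P5 SSum (about 100 lines)
Lemma: for real N >= 1, real tau and M natural: sum_{j<M} 1/(N+|j-tau|)^2 <= 8/N (at most two j with
floor |j-tau| = m for each m, 1/(N+m)^2 <= 1/(N+m-1) - 1/(N+m) for m >= 1, and 1/N^2 <= 1/N).
Here 2^-k + |xx k j - θ| = 2^-k (1 + |j - tau|), tau = 2^k θ - 1/2.
If 2^k <= n: the k-th term is <= 4^-k 4^k (2^k/n)^2 8 (N = 1); sum over such k of 4^k/n^2 <= 4/3.
If 2^k > n: min(n^2, eta^-2) <= 4/(1/n + eta)^2 <= 4 * 4^k/(2^k/n + |j-tau|)^2, so with N = 2^k/n >= 1 the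
k-th term is <= 4^-k 4 4^k 8 n/2^k = 32 n 2^-k, sum over 2^k > n is <= 64.

## P6 SWall (about 120 lines)
S = segment, d(w) = infDist w S < α. By an isometry of the plane a = 0, b = ell real >= 0 (or: S_wall for
general a,b via w = a + e^{it}(u+iv)). thickening ⊆ {0<=u<=ell, |v|<α} ∪ ball a α ∪ ball b α; on the first
set d = |v|..., on the balls d(w) <= dist w a (resp. b). So the integral is <= ell * 2 int_0^α (1 + log(2α/(α-v))) dv
+ 2 int_{ball 0 α} (1 + log(2α/(α-|w|))) dA <= C α ell + C α^2 (scale to α = 1; e.g. log(2/(1-r)) <=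
2 sqrt(2/(1-r)); for the ball use MeasureTheory.integral_fun_norm_addHaar / polar coordinates, or slices).

## P7 SBox (about 60 lines) and SDom (about 200 lines, uses SBox)
SBox: coordinates of a point at distance < al k <= 2^-k/8 from a vertical/horizontal segment.
Note xx (k+1) (2j) = xx k j - 2^{-k-2}, xx (k+1) (2j+1) = xx k j + 2^{-k-2}. HH k j ⊆ {|Im w - 2^{-k-1}| < al k},
VV k j ⊆ {|Re w - xx k j| < al k}. All VV, HH are convex open (Convex.thickening), VV k j ∩ HH k j ∋ QQ k j.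
CS (TT k j): CS_convex and CS_glue (ι = Unit). Om_K := union of the pieces of generation < K.
Om_{K+1} = Om_K ∪ ⋃_{j<2^K} TT K j; the TT K j are pairwise disjoint (SBox: centres are 2^-K apart).
Om_K ∩ TT K j' = HH (K-1) (j'/2) ∩ VV K j' (convex): 
 * TT m j ∩ TT K j' = ∅ for m + 2 <= K (imaginary parts: 9/8 2^{-m-2} < 3/8 2^-m);
 * with k = K-1: VV k j ∩ HH K j' = ∅ and HH k j ∩ HH K j' = ∅ (imaginary parts: on VV k, HH k Im > 3/8 2^-k,
   on HH K Im < 2^{-k-2} + al(k+1) <= (1/4+1/24) 2^-k);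
 * VV k j ∩ VV K j' = ∅: |xx k j - xx (k+1) j'| is an odd multiple of 2^{-k-2}, and al k + al (k+1) <= (1/8+1/24) 2^-k;
 * HH k j ∩ VV (k+1) j' = ∅ unless |xx k j - xx (k+1) j'| = 2^{-k-2}, i.e. j = j'/2 (since 2^{-k-2} + al k + al (k+1)
   <= (1/4+1/8+1/24) 2^-k < 3/4 2^-k).
So CS (Om_K) for all K by CS_glue. For the union: given u continuous zero free on Om choose for every K a root s_K on Om_K
with s_K (PP 0 0) = a fixed root c (multiply by ±1); Om_K is connected, so s_{K+1} = s_K on Om_K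
(IsPreconnected.eq_or_eq_neg_of_sq_eq and the value at PP 0 0), define s w := s_K w for the least K with w ∈ Om_K.
Connected: each piece is connected and meets the previous one (PP (k+1) j' ∈ HH k (j'/2) ∩ VV (k+1) j').

## P8 SDisc, SSeg, SLog (about 60 + 50 + 120 lines)
SDisc: Schwarz-Pick on ball c r (Complex.dist_le_div_mul_dist... or compose with a disc automorphism, see
bl in Helper114.RMT): pseudo-hyperbolic distance of F c, F w is <= q = dist w c / r, hence
1 - |F w| >= (1-q)/(1+q) (1 - |F c|) >= ((r - dist w c)/(2r)) (1 - |F c|).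
SSeg: divide [a,b] into N = ceil(2 dist a b / r) equal steps of length <= r/2, every step costs log 4 by SDisc.
SLog: by induction on k LL F (PP k j) <= log 4 * 28 ((3/2)^k - 1): PP k j to QQ k j is a segment of length 2^{-k-1} with
balls of radius al k inside VV k j, cost log 4 (8 (3/2)^k + 1); QQ k j to PP (k+1) (2j or 2j+1): length 2^{-k-2}, inside
HH k j, cost log 4 (4 (3/2)^k + 1). Then to the nearest point c of the segment (total <= log 4 * 42 (3/2)^k <= 60 (3/2)^k)
and SDisc with centre c, r = al k, dist w c = infDist (the segment is compact).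

## P9 SCov (about 40 lines)
MeasureTheory.lintegral_image_eq_lintegral_abs_det_fderiv_mul with f = psi, s = ball 0 1, psi '' ball = U; the determinant of
the real derivative w ↦ psi'(z) w is |psi'(z)|^2.

## P10 SLow (about 80 lines)
Om ⊇ disjoint union over j < 2^k of the rectangles {|Re w - xx k j| < al k, 2^{-k-1} < Im w < 2^-k} ⊆ VV k j, total area
2^k * 2 al k * 2^{-k-1} = 3^-k/8, where 2 2^k Im w <= 2. So c = e^{-2}/8.

## P11 assembly (helper201).
-/
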