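import Pool.Agent.R201.UK.Stm
import Pool.Agent.Helper240.ZFM.AreaA

/-! # P1: area formula for the Dirichlet integral -/

set_option autoImplicit false

open Set Metric MeasureTheory

namespace Pool.Agent.R201.UK

namespace SAreaAux

theorem tc_hasSum {f : ℂ → ℂ} (hf : DifferentiableOn ℂ f (ball 0 1)) :
    ∀ z ∈ ball (0 : ℂ) 1, HasSum (fun n => tc f n * z ^ n) (f z) := by
  intro z hz
  have h := Complex.hasSum_taylorSeries_on_ball hf hz
  have e : (fun n : ℕ => ((n.factorial : ℂ))⁻¹ • (z - 0) ^ n • iteratedDeriv n f 0) =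
      fun n => tc f n * z ^ n := by
    funext n
    simp only [tc, smul_eq_mul, sub_zero]
    ring
  rwa [e] at h

/-- the integral over one circle -/
theorem circle_int {f : ℂ → ℂ} (hf : DifferentiableOn ℂ f (ball 0 1)) {r : ℝ} (h0 : 0 < r)
    (h1 : r < 1) :
    HasSum (fun j : ℕ => (2 * Real.pi) * ((j : ℝ) ^ 2 * ‖tc f j‖ ^ 2 * r ^ (2 * j)))
      (r ^ 2 * ∫ θ in (0 : ℝ)..(2 * Real.pi), ‖deriv f (circleMap 0 r θ)‖ ^ 2) := by
  have ha := tc_hasSum hf
  have hQ := Pool.Agent.Helper405.Area.hasSum_Q ha 0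
  have hsum : ∀ ρ : ℝ, 0 ≤ ρ → ρ < 1 → Summable fun j : ℕ => ‖((j : ℂ) - (0 : ℕ)) * tc f j‖ * ρ ^ j :=
    fun ρ h2 h3 => Pool.Agent.Helper405.Area.summable_of_hasSum
      (a := fun j : ℕ => ((j : ℂ) - (0 : ℕ)) * tc f j) hQ h2 h3
  have hb : ∀ z : ℂ, ‖z‖ = r → z ∈ ball (0 : ℂ) 1 := fun z hz => by
    rw [mem_ball_zero_iff, hz]; exact h1
  have hP := Pool.Agent.Helper405.Area.parseval (P := fun z => z * deriv f z - ((0 : ℕ) : ℂ) * f z)
    (Q := fun z => z * deriv f z - ((0 : ℕ) : ℂ) * f z)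
    (a := fun j : ℕ => ((j : ℂ) - (0 : ℕ)) * tc f j) (b := fun j : ℕ => ((j : ℂ) - (0 : ℕ)) * tc f j)
    h0.le (hsum r h0.le h1) (hsum r h0.le h1) (fun z hz => hQ z (hb z hz)) (fun z hz => hQ z (hb z hz))
  have hc : ∀ θ, ‖circleMap 0 r θ‖ = r := fun θ => by simp [abs_of_pos h0]
  have e1 : (fun j : ℕ => (starRingEnd ℂ) (((j : ℂ) - (0 : ℕ)) * tc f j) *
      (((j : ℂ) - (0 : ℕ)) * tc f j) * ((r ^ (2 * j) : ℝ) : ℂ)) =
      fun j : ℕ => (((j : ℝ) ^ 2 * ‖tc f j‖ ^ 2 * r ^ (2 * j) : ℝ) : ℂ) := by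
    funext j
    have hj : ‖((j : ℂ) - ((0 : ℕ) : ℂ))‖ = (j : ℝ) := by simp
    rw [Complex.conj_mul', norm_mul, hj]
    push_cast
    ring
  have e2 : ∀ θ : ℝ, (starRingEnd ℂ) (circleMap 0 r θ * deriv f (circleMap 0 r θ) -
      ((0 : ℕ) : ℂ) * f (circleMap 0 r θ)) * (circleMap 0 r θ * deriv f (circleMap 0 r θ) -
      ((0 : ℕ) : ℂ) * f (circleMap 0 r θ)) =
      ((r ^ 2 * ‖deriv f (circleMap 0 r θ)‖ ^ 2 : ℝ) : ℂ) := by
    intro θ
    rw [Complex.conj_mul', Nat.cast_zero, zero_mul, sub_zero, norm_mul, hc]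
    push_cast
    ring
  simp only [e2] at hP
  rw [e1, intervalIntegral.integral_ofReal] at hP
  have hP' : HasSum (fun j : ℕ => (((j : ℝ) ^ 2 * ‖tc f j‖ ^ 2 * r ^ (2 * j) : ℝ) : ℂ))
      (((2 * Real.pi)⁻¹ * ∫ θ in (0 : ℝ)..(2 * Real.pi), r ^ 2 * ‖deriv f (circleMap 0 r θ)‖ ^ 2 : ℝ) : ℂ) := by
    convert hP using 1
    push_cast
    ring
  have hR := Complex.hasSum_ofReal.1 hP'
  have hpi : (0 : ℝ) < 2 * Real.pi := by positivity
  have := hR.mul_left (2 * Real.pi)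
  rw [← mul_assoc, mul_inv_cancel₀ hpi.ne', one_mul, intervalIntegral.integral_const_mul] at this
  exact this

theorem deriv_cont {f : ℂ → ℂ} (hf : DifferentiableOn ℂ f (ball 0 1)) :
    ContinuousOn (deriv f) (ball 0 1) :=
  (hf.deriv isOpen_ball).continuousOn

theorem circle_lint {f : ℂ → ℂ} (hf : DifferentiableOn ℂ f (ball 0 1)) {r : ℝ} (h0 : 0 < r)
    (h1 : r < 1) :
    ∫⁻ θ in Ioo (-Real.pi) Real.pi, ENNReal.ofReal r *
      ENNReal.ofReal (‖deriv f (circleMap 0 r θ)‖ ^ 2) =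
      ∑' j : ℕ, ENNReal.ofReal ((2 * Real.pi) * ((j : ℝ) ^ 2 * ‖tc f j‖ ^ 2) * r ^ (2 * j - 1)) := by
  have hcont : Continuous fun θ : ℝ => ‖deriv f (circleMap 0 r θ)‖ ^ 2 := by
    have hm : ∀ θ, circleMap 0 r θ ∈ ball (0 : ℂ) 1 := fun θ => by
      rw [mem_ball_zero_iff]; simpa [abs_of_pos h0] using h1
    have := (deriv_cont hf).comp_continuous (continuous_circleMap 0 r) hm
    exact this.norm.pow 2
  have hper : Function.Periodic (fun θ : ℝ => ‖deriv f (circleMap 0 r θ)‖ ^ 2) (2 * Real.pi) :=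
    (periodic_circleMap 0 r).comp (fun z => ‖deriv f z‖ ^ 2)
  have h2 := hper.intervalIntegral_add_eq (-Real.pi) 0
  rw [zero_add, show -Real.pi + 2 * Real.pi = Real.pi by ring] at h2
  have hS := circle_int hf h0 h1
  rw [← h2] at hS
  have hS2 : HasSum (fun j : ℕ => (2 * Real.pi) * ((j : ℝ) ^ 2 * ‖tc f j‖ ^ 2) * r ^ (2 * j - 1))
      (r * ∫ θ in (-Real.pi)..Real.pi, ‖deriv f (circleMap 0 r θ)‖ ^ 2) := by
    have h3 := hS.mul_left r⁻¹
    have e1 : (fun j : ℕ => r⁻¹ * (2 * Real.pi * ((j : ℝ) ^ 2 * ‖tc f j‖ ^ 2 * r ^ (2 * j)))) =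
        fun j : ℕ => (2 * Real.pi) * ((j : ℝ) ^ 2 * ‖tc f j‖ ^ 2) * r ^ (2 * j - 1) := by
      funext j
      rcases Nat.eq_zero_or_pos j with hj | hj
      · subst hj; simp
      · have e : r ^ (2 * j) = r * r ^ (2 * j - 1) := by
          rw [← pow_succ']
          congr 1
          omega
        rw [e]
        field_simp
    have e2 : r⁻¹ * (r ^ 2 * ∫ θ in (-Real.pi)..Real.pi, ‖deriv f (circleMap 0 r θ)‖ ^ 2) =
        r * ∫ θ in (-Real.pi)..Real.pi, ‖deriv f (circleMap 0 r θ)‖ ^ 2 := by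
      rw [← mul_assoc]
      congr 1
      field_simp
    rw [e1, e2] at h3
    exact h3
  rw [← ENNReal.ofReal_tsum_of_nonneg (fun j => by positivity) hS2.summable, hS2.tsum_eq]
  rw [lintegral_const_mul' _ _ ENNReal.ofReal_ne_top]
  rw [ENNReal.ofReal_mul h0.le]
  congr 1
  rw [intervalIntegral.integral_of_le (by linarith [Real.pi_pos]), integral_Ioc_eq_integral_Ioo]
  rw [ofReal_integral_eq_lintegral_ofReal]
  · exact (hcont.integrableOn_Icc (a := -Real.pi) (b := Real.pi)).mono_set Ioo_subset_Icc_self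
  · exact Filter.Eventually.of_forall fun θ => by positivity

theorem polar_eq (p : ℝ × ℝ) : Complex.polarCoord.symm p = circleMap 0 p.1 p.2 := by
  rw [Complex.polarCoord_symm_apply, circleMap, zero_add, Complex.exp_mul_I, Complex.ofReal_cos,
    Complex.ofReal_sin]

theorem rad_int (c : ℝ) (hc : 0 ≤ c) (j : ℕ) (hj : 1 ≤ j) :
    ∫⁻ r in Ioo (0 : ℝ) 1, ENNReal.ofReal (c * r ^ (2 * j - 1)) = ENNReal.ofReal (c / (2 * j)) := by
  rw [← ofReal_integral_eq_lintegral_ofReal]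
  · congr 1
    rw [← integral_Ioc_eq_integral_Ioo, ← intervalIntegral.integral_of_le zero_le_one,
      intervalIntegral.integral_const_mul, integral_pow]
    have e : ((2 * j - 1 : ℕ) : ℝ) + 1 = 2 * j := by
      rw [Nat.cast_sub (by omega)]
      push_cast
      ring
    rw [e]
    have : 2 * j - 1 + 1 ≠ 0 := by omega
    rw [one_pow, zero_pow this]
    ring
  · have : Continuous fun r : ℝ => c * r ^ (2 * j - 1) := by fun_prop
    exact (this.integrableOn_Icc (a := 0) (b := 1)).mono_set Ioo_subset_Icc_self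
  · refine (ae_restrict_iff' measurableSet_Ioo).2 (Filter.Eventually.of_forall fun r hr => ?_)
    have := hr.1
    show 0 ≤ c * r ^ (2 * j - 1)
    positivity

end SAreaAux

open SAreaAux in
theorem sArea : SArea := by
  intro f hf
  have hdc := deriv_cont hf
  -- polar coordinates
  have hI : ∫⁻ z in ball (0 : ℂ) 1, ENNReal.ofReal (‖deriv f z‖ ^ 2) =
      ∫⁻ p in Ioo (0 : ℝ) 1 ×ˢ Ioo (-Real.pi) Real.pi, ENNReal.ofReal p.1 *
        ENNReal.ofReal (‖deriv f (circleMap 0 p.1 p.2)‖ ^ 2) := by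
    rw [← lintegral_indicator isOpen_ball.measurableSet, ← Complex.lintegral_comp_polarCoord_symm,
      ← lintegral_indicator polarCoord.open_target.measurableSet,
      ← lintegral_indicator (measurableSet_Ioo.prod measurableSet_Ioo)]
    refine lintegral_congr fun p => ?_
    by_cases hp : p ∈ Ioo (0 : ℝ) 1 ×ˢ Ioo (-Real.pi) Real.pi
    · have h1 : p ∈ polarCoord.target := by
        rw [polarCoord_target]
        exact ⟨hp.1.1, hp.2⟩
      have h2 : Complex.polarCoord.symm p ∈ ball (0 : ℂ) 1 := by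
        rw [mem_ball_zero_iff, Complex.norm_polarCoord_symm, abs_of_pos hp.1.1]
        exact hp.1.2
      rw [indicator_of_mem hp, indicator_of_mem h1, indicator_of_mem h2, smul_eq_mul, polar_eq]
    · rw [indicator_of_notMem hp]
      by_cases h1 : p ∈ polarCoord.target
      · have h1' := h1
        rw [polarCoord_target] at h1'
        have h2 : Complex.polarCoord.symm p ∉ ball (0 : ℂ) 1 := by
          intro h3
          rw [mem_ball_zero_iff, Complex.norm_polarCoord_symm, abs_of_pos h1'.1] at h3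
          exact hp ⟨⟨h1'.1, h3⟩, h1'.2⟩
        rw [indicator_of_mem h1, indicator_of_notMem h2, smul_zero]
      · rw [indicator_of_notMem h1]
  rw [hI, Measure.volume_eq_prod, setLIntegral_prod]
  · have h1 : ∫⁻ r in Ioo (0 : ℝ) 1, ∫⁻ θ in Ioo (-Real.pi) Real.pi, ENNReal.ofReal r *
        ENNReal.ofReal (‖deriv f (circleMap 0 r θ)‖ ^ 2) =
        ∫⁻ r in Ioo (0 : ℝ) 1, ∑' j : ℕ,
          ENNReal.ofReal ((2 * Real.pi) * ((j : ℝ) ^ 2 * ‖tc f j‖ ^ 2) * r ^ (2 * j - 1)) :=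
      setLIntegral_congr_fun measurableSet_Ioo fun r hr => circle_lint hf hr.1 hr.2
    rw [h1, lintegral_tsum (fun j => by fun_prop), ← ENNReal.tsum_mul_left]
    refine tsum_congr fun j => ?_
    rw [← ENNReal.ofReal_mul Real.pi_pos.le]
    rcases Nat.eq_zero_or_pos j with hj | hj
    · subst hj; simp
    · rw [rad_int _ (by positivity) j hj]
      congr 1
      have : (j : ℝ) ≠ 0 := by exact_mod_cast hj.ne'
      field_simp
  · -- measurability
    have hcm : Continuous fun p : ℝ × ℝ => circleMap 0 p.1 p.2 := by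
      unfold circleMap
      fun_prop
    have h1 : ContinuousOn (fun p : ℝ × ℝ => ENNReal.ofReal p.1 *
        ENNReal.ofReal (‖deriv f (circleMap 0 p.1 p.2)‖ ^ 2))
        (Ioo (0 : ℝ) 1 ×ˢ Ioo (-Real.pi) Real.pi) := by
      have h2 : ContinuousOn (fun p : ℝ × ℝ => p.1 * ‖deriv f (circleMap 0 p.1 p.2)‖ ^ 2)
          (Ioo (0 : ℝ) 1 ×ˢ Ioo (-Real.pi) Real.pi) := by
        refine continuousOn_fst.mul ((ContinuousOn.norm (hdc.comp hcm.continuousOn ?_)).pow 2)
        intro p hp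
        rw [mem_ball_zero_iff]
        simpa [abs_of_pos hp.1.1] using hp.1.2
      refine (ENNReal.continuous_ofReal.comp_continuousOn h2).congr ?_
      intro p hp
      exact (ENNReal.ofReal_mul hp.1.1.le).symm
    exact h1.aemeasurable (measurableSet_Ioo.prod measurableSet_Ioo)

end Pool.Agent.R201.UK
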