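import Pool.Agent.R201.UK.Stm

set_option autoImplicit false

open Set Metric MeasureTheory

namespace Pool.Agent.R201.UK

theorem SBoxAux.al_le (k : ℕ) : al k ≤ (1 / 2) ^ k / 8 := by
  unfold al
  have : ((1 : ℝ) / 3) ^ k ≤ (1 / 2) ^ k := pow_le_pow_left₀ (by norm_num) (by norm_num) k
  linarith

theorem SBoxAux.re_im (w z : ℂ) (r : ℝ) (h : dist w z < r) : |w.re - z.re| < r ∧ |w.im - z.im| < r := by
  rw [dist_eq_norm] at h
  constructor
  · have := Complex.abs_re_le_norm (w - z)
    rw [Complex.sub_re] at this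
    linarith
  · have := Complex.abs_im_le_norm (w - z)
    rw [Complex.sub_im] at this
    linarith

theorem SBoxAux.two (k j : ℕ) : xx (k + 1) (2 * j) = xx k j - (1 / 4) * (1 / 2) ^ k ∧
    xx (k + 1) (2 * j + 1) = xx k j + (1 / 4) * (1 / 2) ^ k := by
  unfold xx
  push_cast
  constructor
  · ring
  · ring

theorem sBox : SBox := by
  intro k j w hw
  have hal := SBoxAux.al_le k
  have h2 : (0 : ℝ) < (1 / 2) ^ k := by positivity
  rcases hw with hw | hw
  · obtain ⟨z, ⟨a, b, ha, hb, hab, rfl⟩, hz⟩ := mem_thickening_iff.1 hw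
    obtain ⟨h3, h4⟩ := SBoxAux.re_im _ _ _ hz
    have hre : (a • PP k j + b • QQ k j).re = xx k j := by
      simp only [PP, QQ, Complex.add_re, Complex.smul_re, smul_eq_mul]
      rw [← add_mul, hab, one_mul]
    have him : (a • PP k j + b • QQ k j).im = a * (1 / 2) ^ k + b * ((1 / 2) * (1 / 2) ^ k) := by
      simp only [PP, QQ, Complex.add_im, Complex.smul_im, smul_eq_mul]
      ring
    rw [hre] at h3
    rw [him] at h4
    rw [abs_lt] at h3 h4
    have hb' : b = 1 - a := by linarith
    subst hb'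
    refine ⟨?_, ?_, ?_⟩
    · rw [abs_le]
      constructor <;> linarith
    · nlinarith
    · nlinarith
  · obtain ⟨z, ⟨a, b, ha, hb, hab, rfl⟩, hz⟩ := mem_thickening_iff.1 hw
    obtain ⟨h3, h4⟩ := SBoxAux.re_im _ _ _ hz
    obtain ⟨e1, e2⟩ := SBoxAux.two k j
    have hre : (a • PP (k + 1) (2 * j) + b • PP (k + 1) (2 * j + 1)).re =
        xx k j + (b - a) * ((1 / 4) * (1 / 2) ^ k) := by
      simp only [PP, Complex.add_re, Complex.smul_re, smul_eq_mul]
      rw [e1, e2]
      have hb' : b = 1 - a := by linarith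
      subst hb'
      ring
    have him : (a • PP (k + 1) (2 * j) + b • PP (k + 1) (2 * j + 1)).im = (1 / 2) * (1 / 2) ^ k := by
      simp only [PP, Complex.add_im, Complex.smul_im, smul_eq_mul]
      rw [← add_mul, hab, one_mul, pow_succ]
      ring
    rw [hre] at h3
    rw [him] at h4
    rw [abs_lt] at h3 h4
    refine ⟨?_, ?_, ?_⟩
    · rw [abs_le]
      have hba1 : b - a ≤ 1 := by linarith
      have hba2 : -1 ≤ b - a := by linarith
      constructor
      · nlinarith
      · nlinarith
    · linarith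
    · linarith

end Pool.Agent.R201.UK
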