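import Pool.Agent.R201.UK.Stm

/-! # Project UK, piece P9: change of variables for a conformal map -/

set_option autoImplicit false

open Set Metric MeasureTheory

namespace Pool.Agent.R201.UK

namespace CovP

/-- multiplication as a real linear map -/
noncomputable def mulR (c : ℂ) : ℂ →L[ℝ] ℂ := ContinuousLinearMap.mul ℝ ℂ c

lemma det_mulR (c : ℂ) : (mulR c).det = ‖c‖ ^ 2 := by
  have h : ((mulR c : ℂ →L[ℝ] ℂ) : ℂ →ₗ[ℝ] ℂ) = Algebra.lmul ℝ ℂ c := by
    ext <;> simp [mulR]
  rw [ContinuousLinearMap.det, h, ← Algebra.norm_apply, Algebra.norm_complex_apply,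
    Complex.normSq_eq_norm_sq]

end CovP

open CovP

theorem sCov : SCov := by
  intro U F ψ hd h1 h2 h
  have himg : ψ '' ball (0 : ℂ) 1 = U := by
    ext w
    constructor
    · rintro ⟨z, hz, rfl⟩
      exact (h1 z hz).1
    · intro hw
      exact ⟨F w, (h2 w hw).1, (h2 w hw).2⟩
  have hinj : InjOn ψ (ball (0 : ℂ) 1) := by
    intro z hz w hw hzw
    rw [← (h1 z hz).2, ← (h1 w hw).2, hzw]
  have hf : ∀ z ∈ ball (0 : ℂ) 1, HasFDerivWithinAt ψ (mulR (deriv ψ z)) (ball (0 : ℂ) 1) z := by
    intro z hz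
    have h3 : HasDerivAt ψ (deriv ψ z) z :=
      (hd.differentiableAt (isOpen_ball.mem_nhds hz)).hasDerivAt
    have h4 := (h3.hasFDerivAt.restrictScalars ℝ).hasFDerivWithinAt (s := ball (0 : ℂ) 1)
    have h5 : mulR (deriv ψ z) = ContinuousLinearMap.restrictScalars ℝ
        (ContinuousLinearMap.toSpanSingleton ℂ (deriv ψ z)) := by
      refine ContinuousLinearMap.ext fun w => ?_
      simp [mulR, mul_comm]
    rw [h5]
    exact h4
  have key := lintegral_image_eq_lintegral_abs_det_fderiv_mul volume measurableSet_ball hf hinj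
    (fun w => h (F w))
  rw [himg] at key
  rw [key]
  refine setLIntegral_congr_fun measurableSet_ball fun z hz => ?_
  beta_reduce
  rw [det_mulR, abs_of_nonneg (by positivity), (h1 z hz).2, mul_comm]

end Pool.Agent.R201.UK
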