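import Pool.Agent.R201.UK.Stm

/-! # Schwarz-Pick in a disc and along a segment (by helper980) -/

set_option autoImplicit false

open Set Metric MeasureTheory

namespace Pool.Agent.R201.UK

namespace SDiscAux

/-- the basic identity -/
theorem key (a u : ℂ) : ‖1 - (starRingEnd ℂ) a * u‖ ^ 2 =
    ‖u - a‖ ^ 2 + (1 - ‖a‖ ^ 2) * (1 - ‖u‖ ^ 2) := by
  rw [← Complex.normSq_eq_norm_sq, ← Complex.normSq_eq_norm_sq, ← Complex.normSq_eq_norm_sq,
    ← Complex.normSq_eq_norm_sq]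
  simp only [Complex.normSq_apply, Complex.sub_re, Complex.sub_im, Complex.mul_re, Complex.mul_im,
    Complex.conj_re, Complex.conj_im, Complex.one_re, Complex.one_im]
  ring

theorem den_ne {a u : ℂ} (ha : ‖a‖ < 1) (hu : ‖u‖ < 1) : 1 - (starRingEnd ℂ) a * u ≠ 0 := by
  intro h
  have h1 := key a u
  rw [h, norm_zero] at h1
  have h2 : 0 < 1 - ‖a‖ ^ 2 := by nlinarith [norm_nonneg a]
  have h3 : 0 < 1 - ‖u‖ ^ 2 := by nlinarith [norm_nonneg u]
  have h4 := mul_pos h2 h3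
  nlinarith [sq_nonneg ‖u - a‖]

theorem quot_lt {a u : ℂ} (ha : ‖a‖ < 1) (hu : ‖u‖ < 1) :
    ‖(u - a) / (1 - (starRingEnd ℂ) a * u)‖ < 1 := by
  have h0 : 0 < ‖1 - (starRingEnd ℂ) a * u‖ := norm_pos_iff.2 (den_ne ha hu)
  rw [norm_div, div_lt_one h0]
  have h1 := key a u
  have h2 : 0 < 1 - ‖a‖ ^ 2 := by nlinarith [norm_nonneg a]
  have h3 : 0 < 1 - ‖u‖ ^ 2 := by nlinarith [norm_nonneg u]
  have h4 := mul_pos h2 h3
  have h5 : ‖u - a‖ ^ 2 < ‖1 - (starRingEnd ℂ) a * u‖ ^ 2 := by linarith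
  exact lt_of_pow_lt_pow_left₀ 2 h0.le h5

theorem real_ineq {α β ρ x y : ℝ} (hα : 0 ≤ α) (hα1 : α < 1) (hβ : 0 ≤ β) (hβ1 : β < 1)
    (hρ : 0 ≤ ρ) (hρ1 : ρ < 1) (hx : 0 ≤ x) (hy : 0 ≤ y) (h1 : x ≤ ρ * y)
    (h2 : y ^ 2 = x ^ 2 + (1 - α ^ 2) * (1 - β ^ 2)) (h3 : |β - α| ≤ x) :
    (1 - α) * (1 - ρ) / 2 ≤ 1 - β := by
  have h4 : (β - α) ^ 2 ≤ x ^ 2 := by
    rw [← sq_abs (β - α)]
    exact pow_le_pow_left₀ (abs_nonneg _) h3 2
  have h5 : x ^ 2 ≤ ρ ^ 2 * y ^ 2 := by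
    have := pow_le_pow_left₀ hx h1 2
    rwa [mul_pow] at this
  have h6 : (β - α) ^ 2 ≤ ρ ^ 2 * (1 - α * β) ^ 2 := by
    have e : (1 - α * β) ^ 2 = (β - α) ^ 2 + (1 - α ^ 2) * (1 - β ^ 2) := by ring
    rw [e]
    have hρ2 : ρ ^ 2 ≤ 1 := by nlinarith
    have h7 : x ^ 2 * (1 - ρ ^ 2) ≤ ρ ^ 2 * ((1 - α ^ 2) * (1 - β ^ 2)) := by
      rw [h2] at h5
      linarith
    have h8 : (β - α) ^ 2 * (1 - ρ ^ 2) ≤ x ^ 2 * (1 - ρ ^ 2) :=
      mul_le_mul_of_nonneg_right h4 (by linarith)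
    linarith
  have hαβ : α * β < 1 := by nlinarith
  have h9 : β - α ≤ ρ * (1 - α * β) := by
    refine le_of_sq_le_sq' ?_ (mul_nonneg hρ (by linarith))
    rw [mul_pow]
    exact h6
  nlinarith [mul_nonneg hρ hα, mul_nonneg hρ (sub_nonneg.2 hα1.le)]
where
  le_of_sq_le_sq' {s t : ℝ} (h : s ^ 2 ≤ t ^ 2) (ht : 0 ≤ t) : s ≤ t := abs_le_of_sq_le_sq' h ht |>.2

end SDiscAux

theorem sDisc : SDisc := by
  intro U F hF hmaps c w r hr hU hw
  have hc : c ∈ ball c r := mem_ball_self hr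
  have hwb : w ∈ ball c r := hw
  have ha : ‖F c‖ < 1 := by simpa using hmaps (hU hc)
  have hb : ‖F w‖ < 1 := by simpa using hmaps (hU hwb)
  set a := F c with ha_def
  let g : ℂ → ℂ := fun u => (F u - a) / (1 - (starRingEnd ℂ) a * F u)
  have hgc : g c = 0 := by simp [g, ← ha_def]
  have hgd : DifferentiableOn ℂ g (ball c r) := by
    have hF' : DifferentiableOn ℂ F (ball c r) := hF.mono hU
    refine (hF'.sub_const a).div ((hF'.const_mul _).const_sub 1) ?_
    intro u hu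
    have : ‖F u‖ < 1 := by simpa using hmaps (hU hu)
    exact SDiscAux.den_ne ha this
  have hgm : MapsTo g (ball c r) (ball (g c) 1) := by
    intro u hu
    have : ‖F u‖ < 1 := by simpa using hmaps (hU hu)
    rw [hgc, mem_ball_zero_iff]
    exact SDiscAux.quot_lt ha this
  have h1 := Complex.dist_le_div_mul_dist_of_mapsTo_ball hgd (hgm.mono_right ball_subset_closedBall) hwb
  rw [hgc, dist_zero_right] at h1
  set d := dist w c with hd
  have hd0 : 0 ≤ d := dist_nonneg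
  have hρ1 : d / r < 1 := (div_lt_one hr).2 hw
  have hρ0 : 0 ≤ d / r := div_nonneg hd0 hr.le
  have hden : 0 < ‖1 - (starRingEnd ℂ) a * F w‖ := norm_pos_iff.2 (SDiscAux.den_ne ha hb)
  have h2 : ‖F w - a‖ ≤ d / r * ‖1 - (starRingEnd ℂ) a * F w‖ := by
    have e : ‖g w‖ = ‖F w - a‖ / ‖1 - (starRingEnd ℂ) a * F w‖ := by
      simp only [g, norm_div]
    rw [e, div_le_iff₀ hden] at h1
    calc ‖F w - a‖ ≤ 1 / r * d * ‖1 - (starRingEnd ℂ) a * F w‖ := h1
      _ = d / r * ‖1 - (starRingEnd ℂ) a * F w‖ := by ring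
  have h3 : (1 - ‖a‖) * (1 - d / r) / 2 ≤ 1 - ‖F w‖ :=
    SDiscAux.real_ineq (norm_nonneg _) ha (norm_nonneg _) hb hρ0 hρ1 (norm_nonneg _)
      hden.le h2 (SDiscAux.key a (F w)) (by
        rw [abs_sub_comm]
        have := abs_norm_sub_norm_le a (F w)
        rwa [norm_sub_rev] at this)
  have h4 : 0 < (1 - ‖a‖) * (1 - d / r) / 2 := by
    have h5 : 0 < 1 - ‖a‖ := by linarith
    have h6 : 0 < 1 - d / r := by linarith
    positivity
  rw [LL, LL, ← ha_def]
  have h5 := Real.log_le_log h4 h3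
  have hrd : 0 < r - d := by linarith
  have e1 : (1 - ‖a‖) * (1 - d / r) / 2 = (1 - ‖a‖) / (2 * r / (r - d)) := by
    field_simp
  rw [e1, Real.log_div (by linarith) (by positivity)] at h5
  linarith

theorem sSeg (h : SDisc) : SSeg := by
  intro U F hF hmaps a b r hr hU
  have hlog4 : 0 ≤ Real.log 4 := Real.log_nonneg (by norm_num)
  rcases eq_or_ne a b with rfl | hab
  · rw [dist_self]
    have : 0 ≤ Real.log 4 * (2 * 0 / r + 1) := by
      rw [mul_zero, zero_div, zero_add, mul_one]; exact hlog4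
    linarith
  have hd : 0 < dist a b := dist_pos.2 hab
  set N := ⌈2 * dist a b / r⌉₊ with hN
  have hpos : 0 < 2 * dist a b / r := by positivity
  have hN0 : 0 < N := Nat.ceil_pos.2 hpos
  have hN0' : (0 : ℝ) < N := by exact_mod_cast hN0
  have hNle : 2 * dist a b / r ≤ N := Nat.le_ceil _
  have hNlt : (N : ℝ) < 2 * dist a b / r + 1 := Nat.ceil_lt_add_one hpos.le
  have hstep : dist a b / N ≤ r / 2 := by
    rw [div_le_iff₀ hN0']
    rw [div_le_iff₀ hr] at hNle
    linarith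
  have key : ∀ i : ℕ, i ≤ N →
      LL F (AffineMap.lineMap a b ((i : ℝ) / N)) ≤ LL F a + i * Real.log 4 := by
    intro i
    induction i with
    | zero => intro _; simp
    | succ i ih =>
      intro hi
      have h1 := ih (by omega)
      have hmem : AffineMap.lineMap a b ((i : ℝ) / N) ∈ segment ℝ a b := by
        rw [segment_eq_image_lineMap]
        refine ⟨(i : ℝ) / N, ⟨by positivity, ?_⟩, rfl⟩
        rw [div_le_one hN0']
        exact_mod_cast (by omega : i ≤ N)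
      have hdist : dist (AffineMap.lineMap a b (((i + 1 : ℕ) : ℝ) / N) : ℂ)
          (AffineMap.lineMap a b ((i : ℝ) / N)) = dist a b / N := by
        rw [dist_lineMap_lineMap, Real.dist_eq]
        have : ((i + 1 : ℕ) : ℝ) / N - (i : ℝ) / N = 1 / N := by push_cast; ring
        rw [this, abs_of_nonneg (by positivity)]
        ring
      have h2 := h U F hF hmaps _ (AffineMap.lineMap a b (((i + 1 : ℕ) : ℝ) / N)) r hr
        (hU _ hmem) (by rw [hdist]; linarith)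
      rw [hdist] at h2
      have h3 : Real.log (2 * r / (r - dist a b / N)) ≤ Real.log 4 := by
        have h4 : 0 < r - dist a b / N := by linarith
        refine Real.log_le_log (by positivity) ?_
        rw [div_le_iff₀ h4]
        linarith
      push_cast at h2 ⊢
      linarith
  have h1 := key N le_rfl
  rw [div_self hN0'.ne', AffineMap.lineMap_apply_one] at h1
  have h2 : (N : ℝ) * Real.log 4 ≤ Real.log 4 * (2 * dist a b / r + 1) := by
    rw [mul_comm]
    exact mul_le_mul_of_nonneg_left hNlt.le hlog4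
  linarith

end Pool.Agent.R201.UK
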