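import Pool.Agent.R201.UK.Stm

/-! # Piece P7b: the tree domain -/

set_option autoImplicit false

open Set Metric MeasureTheory Topology

namespace Pool.Agent.R201.UK

namespace DomAux

open R229.HN

theorem al_pos (k : ℕ) : 0 < al k := by unfold al; positivity

theorem al_le (k : ℕ) : al k ≤ (1 / 2) ^ k / 8 := by
  unfold al
  refine div_le_div_of_nonneg_right ?_ (by norm_num)
  exact pow_le_pow_left₀ (by norm_num) (by norm_num) k

theorem al_succ_le (k : ℕ) : al (k + 1) ≤ (1 / 2) ^ k / 24 := by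
  have h := al_le k
  have e : al (k + 1) = al k / 3 := by
    unfold al
    rw [pow_succ]
    ring
  rw [e]
  linarith

theorem xx_eq (k j : ℕ) : xx k j = (2 * (j : ℝ) + 1) * (1 / 2) ^ k / 2 := by
  unfold xx
  rw [pow_succ]
  ring

theorem xx_succ (k j : ℕ) : xx (k + 1) j = (2 * (j : ℝ) + 1) * (1 / 2) ^ k / 4 := by
  unfold xx
  rw [pow_succ, pow_succ]
  ring

/-- a point near a vertical segment -/
theorem memV {k j : ℕ} {w : ℂ} (h : w ∈ VV k j) : |w.re - xx k j| < al k := by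
  unfold VV at h
  rw [mem_thickening_iff] at h
  obtain ⟨c, hc, hd⟩ := h
  obtain ⟨a, b, _, _, hab, rfl⟩ := hc
  have h1 : (a • PP k j + b • QQ k j).re = xx k j := by
    simp only [PP, QQ, Complex.add_re, Complex.real_smul, Complex.mul_re, Complex.ofReal_re,
      Complex.ofReal_im, zero_mul, sub_zero]
    rw [← add_mul, hab, one_mul]
  rw [← h1, ← Complex.sub_re]
  exact lt_of_le_of_lt (Complex.abs_re_le_norm _) (by rwa [dist_eq_norm] at hd)

/-- a point near a horizontal segment -/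
theorem memH {k j : ℕ} {w : ℂ} (h : w ∈ HH k j) : |w.im - (1 / 2) ^ (k + 1)| < al k ∧
    |w.re - xx k j| < (1 / 2) ^ k / 4 + al k := by
  unfold HH at h
  rw [mem_thickening_iff] at h
  obtain ⟨c, hc, hd⟩ := h
  obtain ⟨a, b, ha, hb, hab, rfl⟩ := hc
  have h1 : (a • PP (k + 1) (2 * j) + b • PP (k + 1) (2 * j + 1)).im = (1 / 2) ^ (k + 1) := by
    simp only [PP, Complex.add_im, Complex.real_smul, Complex.mul_im, Complex.ofReal_re,
      Complex.ofReal_im, zero_mul, add_zero]
    rw [← add_mul, hab, one_mul]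
  have h2 : (a • PP (k + 1) (2 * j) + b • PP (k + 1) (2 * j + 1)).re - xx k j =
      (b - a) * ((1 / 2) ^ k / 4) := by
    simp only [PP, Complex.add_re, Complex.real_smul, Complex.mul_re, Complex.ofReal_re,
      Complex.ofReal_im, zero_mul, sub_zero]
    rw [xx_succ, xx_succ, xx_eq]
    have hb' : b = 1 - a := by linarith
    rw [hb']
    push_cast
    ring
  rw [dist_eq_norm] at hd
  have ht : (0 : ℝ) < (1 / 2) ^ k := by positivity
  constructor
  · rw [← h1, ← Complex.sub_im]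
    exact lt_of_le_of_lt (Complex.abs_im_le_norm _) hd
  · have h3 : |w.re - (a • PP (k + 1) (2 * j) + b • PP (k + 1) (2 * j + 1)).re| < al k := by
      rw [← Complex.sub_re]
      exact lt_of_le_of_lt (Complex.abs_re_le_norm _) hd
    have h4 : |(a • PP (k + 1) (2 * j) + b • PP (k + 1) (2 * j + 1)).re - xx k j| ≤
        (1 / 2) ^ k / 4 := by
      rw [h2, abs_mul, abs_of_pos (by positivity : (0 : ℝ) < (1 / 2) ^ k / 4)]
      have : |b - a| ≤ 1 := by
        rw [abs_le]
        constructor <;> linarith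
      exact mul_le_of_le_one_left (by positivity) this
    have h5 := abs_sub_le w.re (a • PP (k + 1) (2 * j) + b • PP (k + 1) (2 * j + 1)).re (xx k j)
    linarith

theorem openV (k j : ℕ) : IsOpen (VV k j) := isOpen_thickening
theorem openH (k j : ℕ) : IsOpen (HH k j) := isOpen_thickening
theorem openT (k j : ℕ) : IsOpen (TT k j) := (openV k j).union (openH k j)
theorem convV (k j : ℕ) : Convex ℝ (VV k j) := (convex_segment _ _).thickening _
theorem convH (k j : ℕ) : Convex ℝ (HH k j) := (convex_segment _ _).thickening _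

theorem csT (k j : ℕ) : CS (TT k j) := by
  have h := CS_glue (ι := Unit) (U₀ := VV k j) (V := fun _ => HH k j) (openV k j)
    (fun _ => openH k j) (CS_convex (openV k j) (convV k j))
    (fun _ => CS_convex (openH k j) (convH k j)) (fun _ _ _ _ _ => rfl)
    (fun _ => ((convV k j).inter (convH k j)).isPreconnected)
  rw [iUnion_const] at h
  exact h

theorem QV (k j : ℕ) : QQ k j ∈ VV k j :=
  self_subset_thickening (al_pos k) _ (right_mem_segment ℝ _ _)

theorem PV (k j : ℕ) : PP k j ∈ VV k j :=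
  self_subset_thickening (al_pos k) _ (left_mem_segment ℝ _ _)

theorem QH (k j : ℕ) : QQ k j ∈ HH k j := by
  refine self_subset_thickening (al_pos k) _ ⟨1 / 2, 1 / 2, by norm_num, by norm_num,
    by norm_num, ?_⟩
  refine Complex.ext ?_ ?_
  · simp only [PP, QQ, Complex.add_re, Complex.real_smul, Complex.mul_re, Complex.ofReal_re,
      Complex.ofReal_im, zero_mul, sub_zero]
    rw [xx_succ, xx_succ, xx_eq]
    push_cast
    ring
  · simp only [PP, QQ, Complex.add_im, Complex.real_smul, Complex.mul_im, Complex.ofReal_re,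
      Complex.ofReal_im, zero_mul, add_zero]
    ring

theorem PH (k j' : ℕ) : PP (k + 1) j' ∈ HH k (j' / 2) := by
  rcases Nat.even_or_odd' j' with ⟨c, rfl | rfl⟩
  · have e : 2 * c / 2 = c := by omega
    rw [e]
    exact self_subset_thickening (al_pos k) _ (left_mem_segment ℝ _ _)
  · have e : (2 * c + 1) / 2 = c := by omega
    rw [e]
    exact self_subset_thickening (al_pos k) _ (right_mem_segment ℝ _ _)

theorem preT (k j : ℕ) : IsPreconnected (TT k j) :=
  (convV k j).isPreconnected.union (QQ k j) (QV k j) (QH k j) (convH k j).isPreconnected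

theorem disT (hB : SBox) (k j j' : ℕ) (w : ℂ) (h : w ∈ TT k j) (h' : w ∈ TT k j') : j = j' := by
  have h1 := (hB k j w h).1
  have h2 := (hB k j' w h').1
  have ht : (0 : ℝ) < (1 / 2) ^ k := by positivity
  by_contra hne
  have h3 : (1 : ℝ) ≤ |(j : ℝ) - j'| := by
    rcases Nat.lt_or_gt_of_ne hne with h | h
    · have : (j : ℝ) + 1 ≤ j' := by exact_mod_cast h
      rw [abs_sub_comm]
      exact le_trans (by linarith) (le_abs_self _)
    · have : (j' : ℝ) + 1 ≤ j := by exact_mod_cast h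
      exact le_trans (by linarith) (le_abs_self _)
  have h4 : |xx k j - xx k j'| = |(j : ℝ) - j'| * (1 / 2) ^ k := by
    rw [xx_eq, xx_eq]
    have e : (2 * (j : ℝ) + 1) * (1 / 2) ^ k / 2 - (2 * (j' : ℝ) + 1) * (1 / 2) ^ k / 2 =
        ((j : ℝ) - j') * (1 / 2) ^ k := by ring
    rw [e, abs_mul, abs_of_pos ht]
  have h5 : |xx k j - xx k j'| ≤ 3 / 4 * (1 / 2) ^ k := by
    have := abs_sub_le (xx k j) w.re (xx k j')
    rw [abs_sub_comm (xx k j) w.re] at this
    linarith
  rw [h4] at h5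
  nlinarith

/-- the union of the first generations -/
def OK (K : ℕ) : Set ℂ := ⋃ k ∈ Finset.range K, ⋃ j ∈ Finset.range (2 ^ k), TT k j

theorem memOK {K : ℕ} {w : ℂ} : w ∈ OK K ↔ ∃ k < K, ∃ j < 2 ^ k, w ∈ TT k j := by
  unfold OK
  simp only [mem_iUnion, Finset.mem_range, exists_prop]

theorem memOm {w : ℂ} : w ∈ Om ↔ ∃ k, ∃ j < 2 ^ k, w ∈ TT k j := by
  unfold Om
  simp only [mem_iUnion, Finset.mem_range, exists_prop]

theorem openOK (K : ℕ) : IsOpen (OK K) :=
  isOpen_biUnion fun k _ => isOpen_biUnion fun j _ => openT k j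

theorem OK_succ (K : ℕ) : OK (K + 1) = OK K ∪ ⋃ j : Fin (2 ^ K), TT K j := by
  ext w
  rw [mem_union, memOK, memOK, mem_iUnion]
  constructor
  · rintro ⟨k, hk, j, hj, hw⟩
    rcases Nat.lt_succ_iff_lt_or_eq.1 hk with h | h
    · exact Or.inl ⟨k, h, j, hj, hw⟩
    · subst h
      exact Or.inr ⟨⟨j, hj⟩, hw⟩
  · rintro (⟨k, hk, j, hj, hw⟩ | ⟨j, hw⟩)
    · exact ⟨k, by omega, j, hj, hw⟩
    · exact ⟨K, by omega, j, j.2, hw⟩

theorem inter_eq (hB : SBox) (k j' : ℕ) (hj' : j' < 2 ^ (k + 1)) :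
    OK (k + 1) ∩ TT (k + 1) j' = HH k (j' / 2) ∩ VV (k + 1) j' := by
  have ht : (0 : ℝ) < (1 / 2) ^ k := by positivity
  have hs : (1 / 2 : ℝ) ^ (k + 1) = (1 / 2) ^ k / 2 := by rw [pow_succ]; ring
  have hs2 : (1 / 2 : ℝ) ^ (k + 1 + 1) = (1 / 2) ^ k / 4 := by rw [pow_succ, pow_succ]; ring
  have ha := al_le k
  have ha' := al_succ_le k
  ext w
  constructor
  · rintro ⟨h1, h2⟩
    rw [memOK] at h1
    obtain ⟨m, hm, j, hj, hw⟩ := h1
    have b1 := hB m j w hw
    have b2 := hB (k + 1) j' w h2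
    rw [hs] at b2
    have hmk : m = k := by
      by_contra hne
      have hm2 : m + 1 ≤ k := by omega
      have h3 : (1 / 2 : ℝ) ^ k ≤ (1 / 2) ^ (m + 1) :=
        pow_le_pow_of_le_one (by norm_num) (by norm_num) hm2
      rw [pow_succ] at h3
      linarith [b1.2.1, b2.2.2]
    subst hmk
    have hV : w ∈ VV (m + 1) j' := by
      rcases h2 with h2 | h2
      · exact h2
      · exfalso
        have h3 := (memH h2).1
        rw [hs2, abs_lt] at h3
        linarith [h3.2, b1.2.1]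
    refine ⟨?_, hV⟩
    have hv := memV hV
    rw [xx_succ] at hv
    rcases hw with hw | hw
    · exfalso
      have h3 := memV hw
      rw [xx_eq] at h3
      rw [abs_lt] at h3 hv
      have h4 : ((4 * j + 1 : ℤ) : ℝ) - ((2 * j' : ℤ) : ℝ) < 1 := by
        push_cast
        have : ((4 * (j : ℝ) + 1) - 2 * (j' : ℝ)) * ((1 / 2) ^ m / 4) < 1 * ((1 / 2) ^ m / 4) := by
          linarith [h3.1, h3.2, hv.1, hv.2]
        exact lt_of_mul_lt_mul_right this (by positivity)
      have h5 : (-1 : ℝ) < ((4 * j + 1 : ℤ) : ℝ) - ((2 * j' : ℤ) : ℝ) := by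
        push_cast
        have : (-1) * ((1 / 2 : ℝ) ^ m / 4) < ((4 * (j : ℝ) + 1) - 2 * (j' : ℝ)) *
            ((1 / 2) ^ m / 4) := by
          linarith [h3.1, h3.2, hv.1, hv.2]
        exact lt_of_mul_lt_mul_right this (by positivity)
      have h6 : (4 * j + 1 : ℤ) - (2 * j' : ℤ) < 1 := by exact_mod_cast h4
      have h7 : (-1 : ℤ) < (4 * j + 1 : ℤ) - (2 * j' : ℤ) := by exact_mod_cast h5
      omega
    · have h3 := (memH hw).2
      rw [xx_eq] at h3
      rw [abs_lt] at h3 hv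
      have h4 : ((4 * j + 1 : ℤ) : ℝ) - ((2 * j' : ℤ) : ℝ) < 2 := by
        push_cast
        have : ((4 * (j : ℝ) + 1) - 2 * (j' : ℝ)) * ((1 / 2) ^ m / 4) < 2 * ((1 / 2) ^ m / 4) := by
          linarith [h3.1, h3.2, hv.1, hv.2]
        exact lt_of_mul_lt_mul_right this (by positivity)
      have h5 : (-2 : ℝ) < ((4 * j + 1 : ℤ) : ℝ) - ((2 * j' : ℤ) : ℝ) := by
        push_cast
        have : (-2) * ((1 / 2 : ℝ) ^ m / 4) < ((4 * (j : ℝ) + 1) - 2 * (j' : ℝ)) *
            ((1 / 2) ^ m / 4) := by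
          linarith [h3.1, h3.2, hv.1, hv.2]
        exact lt_of_mul_lt_mul_right this (by positivity)
      have h6 : (4 * j + 1 : ℤ) - (2 * j' : ℤ) < 2 := by exact_mod_cast h4
      have h7 : (-2 : ℤ) < (4 * j + 1 : ℤ) - (2 * j' : ℤ) := by exact_mod_cast h5
      have h8 : j' / 2 = j := by omega
      rw [h8]
      exact hw
  · rintro ⟨h1, h2⟩
    refine ⟨?_, Or.inl h2⟩
    rw [memOK]
    refine ⟨k, by omega, j' / 2, ?_, Or.inr h1⟩
    rw [pow_succ] at hj'
    omega

theorem preInter (hB : SBox) (K : ℕ) (j : Fin (2 ^ K)) : IsPreconnected (OK K ∩ TT K j) := by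
  cases K with
  | zero =>
    have : OK 0 = ∅ := by
      unfold OK
      simp
    rw [this, empty_inter]
    exact isPreconnected_empty
  | succ k =>
    rw [inter_eq hB k j j.2]
    exact ((convH k _).inter (convV (k + 1) _)).isPreconnected

/-- extension of a root -/
theorem ext_root {ι : Type} {U₀ : Set ℂ} {V : ι → Set ℂ} (hU₀ : IsOpen U₀)
    (hV : ∀ i, IsOpen (V i)) (hi : ∀ i, CS (V i)) (hdis : ∀ i j z, z ∈ V i → z ∈ V j → i = j)
    (hpre : ∀ i, IsPreconnected (U₀ ∩ V i)) (u : ℂ → ℂ) (hu : ContinuousOn u (U₀ ∪ ⋃ i, V i))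
    (hne : ∀ z ∈ U₀ ∪ ⋃ i, V i, u z ≠ 0) (s0 : ℂ → ℂ) (hs0c : ContinuousOn s0 U₀)
    (hs0 : ∀ z ∈ U₀, s0 z ^ 2 = u z) :
    ∃ S : ℂ → ℂ, ContinuousOn S (U₀ ∪ ⋃ i, V i) ∧ (∀ z ∈ U₀ ∪ ⋃ i, V i, S z ^ 2 = u z) ∧
      ∀ z ∈ U₀, S z = s0 z := by
  classical
  have hVsub : ∀ i, V i ⊆ U₀ ∪ ⋃ i, V i := fun i z hz => Or.inr (mem_iUnion.mpr ⟨i, hz⟩)
  choose s hsc hs using fun i => hi i u (hu.mono (hVsub i)) (fun z hz => hne z (hVsub i hz))
  have hs0ne : ∀ z ∈ U₀, s0 z ≠ 0 := by
    intro z hz h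
    apply hne z (Or.inl hz)
    rw [← hs0 z hz, h]; ring
  have hsign : ∀ i, ∃ σ : ℂ, (σ = 1 ∨ σ = -1) ∧ ∀ z ∈ U₀ ∩ V i, σ * s i z = s0 z := by
    intro i
    have h1 := (hpre i).eq_or_eq_neg_of_sq_eq (f := s i) (g := s0)
      ((hsc i).mono inter_subset_right) (hs0c.mono inter_subset_left)
      (by
        intro z hz
        simp only [Pi.pow_apply]
        rw [hs i z hz.2, hs0 z hz.1])
      (fun {z} hz => hs0ne z hz.1)
    rcases h1 with h | h
    · exact ⟨1, Or.inl rfl, fun z hz => by rw [one_mul]; exact h hz⟩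
    · refine ⟨-1, Or.inr rfl, fun z hz => ?_⟩
      have := h hz
      rw [Pi.neg_apply] at this
      rw [this]; ring
  choose σ hσ1 hσ using hsign
  set S : ℂ → ℂ := fun z => if z ∈ U₀ then s0 z else
    if h : ∃ i, z ∈ V i then σ h.choose * s h.choose z else 0 with hS
  have hS0 : ∀ z ∈ U₀, S z = s0 z := fun z hz => by simp only [hS, if_pos hz]
  have hSi : ∀ i, ∀ z ∈ V i, S z = σ i * s i z := by
    intro i z hz
    by_cases hz0 : z ∈ U₀
    · rw [hS0 z hz0, hσ i z ⟨hz0, hz⟩]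
    · have h : ∃ i, z ∈ V i := ⟨i, hz⟩
      have h2 : h.choose = i := hdis _ _ z h.choose_spec hz
      simp only [hS, if_neg hz0, dif_pos h, h2]
  refine ⟨S, ?_, ?_, hS0⟩
  · rintro z (hz | hz)
    · apply ContinuousAt.continuousWithinAt
      have h1 : S =ᶠ[𝓝 z] s0 := by
        filter_upwards [hU₀.mem_nhds hz] with w hw using hS0 w hw
      exact (hs0c.continuousAt (hU₀.mem_nhds hz)).congr h1.symm
    · obtain ⟨i, hz⟩ := mem_iUnion.mp hz
      apply ContinuousAt.continuousWithinAt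
      have h1 : S =ᶠ[𝓝 z] fun w => σ i * s i w := by
        filter_upwards [(hV i).mem_nhds hz] with w hw using hSi i w hw
      exact (continuousAt_const.mul ((hsc i).continuousAt ((hV i).mem_nhds hz))).congr h1.symm
  · rintro z (hz | hz)
    · rw [hS0 z hz, hs0 z hz]
    · obtain ⟨i, hz⟩ := mem_iUnion.mp hz
      rw [hSi i z hz, mul_pow, hs i z hz]
      rcases hσ1 i with h | h
      · rw [h]; ring
      · rw [h]; ring

theorem OK_sub (K : ℕ) : OK K ⊆ Om := by
  intro w hw
  rw [memOK] at hw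
  obtain ⟨k, _, j, hj, hw⟩ := hw
  exact memOm.2 ⟨k, j, hj, hw⟩

theorem OK_mono {K L : ℕ} (h : K ≤ L) : OK K ⊆ OK L := by
  intro w hw
  rw [memOK] at hw ⊢
  obtain ⟨k, hk, j, hj, hw⟩ := hw
  exact ⟨k, by omega, j, hj, hw⟩

theorem csOm (hB : SBox) : CS Om := by
  classical
  intro u hu hne
  -- a compatible sequence of roots
  let Good : ℕ → (ℂ → ℂ) → Prop := fun K s => ContinuousOn s (OK K) ∧ ∀ z ∈ OK K, s z ^ 2 = u z
  have hstep : ∀ K (s : {s : ℂ → ℂ // Good K s}), ∃ S : {s : ℂ → ℂ // Good (K + 1) s},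
      ∀ z ∈ OK K, S.1 z = s.1 z := by
    intro K s
    have hsub : OK K ∪ ⋃ j : Fin (2 ^ K), TT K j ⊆ Om := by
      rw [← OK_succ]
      exact OK_sub _
    obtain ⟨S, h1, h2, h3⟩ := ext_root (openOK K) (fun j : Fin (2 ^ K) => openT K j)
      (fun j => csT K j) (fun i j z hi hj => Fin.ext (disT hB K i j z hi hj))
      (fun j => preInter hB K j) u (hu.mono hsub) (fun z hz => hne z (hsub hz)) s.1 s.2.1 s.2.2
    rw [← OK_succ] at h1 h2
    exact ⟨⟨S, h1, h2⟩, h3⟩
  choose nx hnx using hstep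
  have h00 : OK 0 = ∅ := by
    unfold OK
    simp
  let s0 : {s : ℂ → ℂ // Good 0 s} := ⟨fun _ => 0, by
    refine ⟨by rw [h00]; exact continuousOn_empty _, fun z hz => ?_⟩
    rw [h00] at hz
    exact absurd hz (notMem_empty z)⟩
  let sq : (K : ℕ) → {s : ℂ → ℂ // Good K s} := fun K =>
    Nat.rec s0 (fun K s => nx K s) K
  have hsq : ∀ K, ∀ z ∈ OK K, (sq (K + 1)).1 z = (sq K).1 z := fun K z hz => hnx K (sq K) z hz
  have hcons : ∀ K L, K ≤ L → ∀ z ∈ OK K, (sq L).1 z = (sq K).1 z := by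
    intro K L hKL
    induction L with
    | zero =>
      intro z _
      have : K = 0 := by omega
      subst this
      rfl
    | succ L ih =>
      intro z hz
      rcases Nat.lt_or_ge L K with h | h
      · have : K = L + 1 := by omega
        subst this
        rfl
      · rw [hsq L z (OK_mono h hz), ih h z hz]
  have hex : ∀ z ∈ Om, ∃ K, z ∈ OK K := by
    intro z hz
    obtain ⟨k, j, hj, hz⟩ := memOm.1 hz
    exact ⟨k + 1, memOK.2 ⟨k, by omega, j, hj, hz⟩⟩
  let S : ℂ → ℂ := fun z => if h : ∃ K, z ∈ OK K then (sq (Nat.find h)).1 z else 0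
  have hS : ∀ K, ∀ z ∈ OK K, S z = (sq K).1 z := by
    intro K z hz
    have h : ∃ K, z ∈ OK K := ⟨K, hz⟩
    simp only [S, dif_pos h]
    exact (hcons _ K (Nat.find_min' h hz) z (Nat.find_spec h)).symm
  refine ⟨S, ?_, ?_⟩
  · intro z hz
    obtain ⟨K, hK⟩ := hex z hz
    apply ContinuousAt.continuousWithinAt
    have h1 : S =ᶠ[𝓝 z] (sq K).1 := by
      filter_upwards [(openOK K).mem_nhds hK] with w hw using hS K w hw
    exact ((sq K).2.1.continuousAt ((openOK K).mem_nhds hK)).congr h1.symm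
  · intro z hz
    obtain ⟨K, hK⟩ := hex z hz
    rw [hS K z hK]
    exact (sq K).2.2 z hK

theorem P0_mem (K : ℕ) : PP 0 0 ∈ OK (K + 1) :=
  memOK.2 ⟨0, by omega, 0, by norm_num, Or.inl (PV 0 0)⟩

theorem preOK (K : ℕ) : IsPreconnected (OK (K + 1)) := by
  induction K with
  | zero =>
    have h : OK 1 = TT 0 0 := by
      ext w
      rw [memOK]
      constructor
      · rintro ⟨k, hk, j, hj, hw⟩
        have : k = 0 := by omega
        subst this
        have : j = 0 := by
          rw [pow_zero] at hj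
          omega
        subst this
        exact hw
      · intro hw
        exact ⟨0, by norm_num, 0, by norm_num, hw⟩
    rw [zero_add, h]
    exact preT 0 0
  | succ K ih =>
    have h : OK (K + 1 + 1) = ⋃ j : Option (Fin (2 ^ (K + 1))),
        (OK (K + 1) ∪ (match j with
          | none => ∅
          | some j => TT (K + 1) j)) := by
      rw [OK_succ]
      ext w
      simp only [mem_union, mem_iUnion]
      constructor
      · rintro (hw | ⟨j, hw⟩)
        · exact ⟨none, Or.inl hw⟩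
        · exact ⟨some j, Or.inr hw⟩
      · rintro ⟨j, hw | hw⟩
        · exact Or.inl hw
        · cases j with
          | none => exact absurd hw (notMem_empty w)
          | some j => exact Or.inr ⟨j, hw⟩
    rw [h]
    refine isPreconnected_iUnion ⟨PP 0 0, mem_iInter.2 fun j => Or.inl (P0_mem K)⟩ fun j => ?_
    cases j with
    | none =>
      simp only [union_empty]
      exact ih
    | some j =>
      refine ih.union (PP (K + 1) j) ?_ (Or.inl (PV (K + 1) j)) (preT (K + 1) j)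
      refine memOK.2 ⟨K, by omega, (j : ℕ) / 2, ?_, Or.inr (PH K j)⟩
      have h9 : (j : ℕ) < 2 ^ K * 2 := lt_of_lt_of_eq j.2 (pow_succ 2 K)
      omega

end DomAux

open DomAux

theorem sDom (h : SBox) : SDom := by
  refine ⟨?_, ?_, ?_, csOm h⟩
  · exact isOpen_iUnion fun k => isOpen_biUnion fun j _ => openT k j
  · refine ⟨⟨PP 0 0, OK_sub 1 (P0_mem 0)⟩, ?_⟩
    have h1 : Om = ⋃ K : ℕ, OK (K + 1) := by
      ext w
      rw [memOm, mem_iUnion]
      constructor
      · rintro ⟨k, j, hj, hw⟩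
        exact ⟨k, memOK.2 ⟨k, by omega, j, hj, hw⟩⟩
      · rintro ⟨K, hw⟩
        exact memOm.1 (OK_sub _ hw)
    rw [h1]
    exact isPreconnected_iUnion ⟨PP 0 0, mem_iInter.2 fun K => P0_mem K⟩ fun K => preOK K
  · refine (Metric.isBounded_ball (x := (0 : ℂ)) (r := 4)).subset ?_
    intro w hw
    obtain ⟨k, j, hj, hw⟩ := memOm.1 hw
    have hb := h k j w hw
    have ht : (0 : ℝ) < (1 / 2) ^ k := by positivity
    have ht1 : (1 / 2 : ℝ) ^ k ≤ 1 := pow_le_one₀ (by norm_num) (by norm_num)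
    have hx : 0 ≤ xx k j ∧ xx k j ≤ 1 := by
      rw [xx_eq]
      have h2 : (j : ℝ) + 1 ≤ 2 ^ k := by exact_mod_cast hj
      have h3 : (2 : ℝ) ^ k * (1 / 2) ^ k = 1 := by rw [← mul_pow]; norm_num
      constructor
      · positivity
      · nlinarith
    rw [mem_ball_zero_iff]
    have h4 := Complex.norm_le_abs_re_add_abs_im w
    have h5 : |w.re| ≤ 3 / 8 + 1 := by
      rw [abs_le]
      have := abs_le.1 hb.1
      constructor <;> nlinarith [this.1, this.2, hx.1, hx.2]
    have h6 : |w.im| ≤ 9 / 8 := by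
      rw [abs_le]
      constructor <;> nlinarith [hb.2.1, hb.2.2]
    linarith

end Pool.Agent.R201.UK
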