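import Pool.Agent.R201.UK.Stm

/-! # P2: point evaluations in the Dirichlet space -/

set_option autoImplicit false
open Set Metric MeasureTheory
namespace Pool.Agent.R201.UK
namespace SEvalAux

theorem tc_hasSum {f : ℂ → ℂ} (hf : DifferentiableOn ℂ f (ball 0 1)) {z : ℂ}
    (hz : z ∈ ball (0 : ℂ) 1) : HasSum (fun n => tc f n * z ^ n) (f z) := by
  have h := Complex.hasSum_taylorSeries_on_ball hf hz
  have e : (fun n : ℕ => ((n.factorial : ℂ))⁻¹ • (z - 0) ^ n • iteratedDeriv n f 0) =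
      fun n => tc f n * z ^ n := by
    funext n
    simp only [tc, smul_eq_mul, sub_zero]
    ring
  rwa [e] at h

theorem log_nonpos' {y : ℝ} (h0 : 0 ≤ y) (h1 : y < 1) : Real.log (1 - y) ≤ 0 :=
  Real.log_nonpos (by linarith) (by linarith)

theorem sum_bound {y : ℝ} (h0 : 0 ≤ y) (h1 : y < 1) :
    Summable (fun n : ℕ => y ^ (2 * n) / ((n : ℝ) + 1)) ∧
      ∑' n : ℕ, y ^ (2 * n) / ((n : ℝ) + 1) ≤ 1 - Real.log (1 - y) := by
  have hle : ∀ n : ℕ, y ^ (2 * n) / ((n : ℝ) + 1) ≤ y ^ n := by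
    intro n
    rw [div_le_iff₀ (by positivity)]
    have h2 : y ^ (2 * n) ≤ y ^ n := pow_le_pow_of_le_one h0 h1.le (by omega)
    have h3 : y ^ n * 1 ≤ y ^ n * ((n : ℝ) + 1) :=
      mul_le_mul_of_nonneg_left (by linarith [Nat.cast_nonneg (α := ℝ) n]) (by positivity)
    linarith
  have hs : Summable (fun n : ℕ => y ^ (2 * n) / ((n : ℝ) + 1)) :=
    Summable.of_nonneg_of_le (fun n => by positivity) hle (summable_geometric_of_lt_one h0 h1)
  refine ⟨hs, ?_⟩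
  have hlog := Real.hasSum_pow_div_log_of_abs_lt_one (x := y) (by rwa [abs_of_nonneg h0])
  rw [hs.tsum_eq_zero_add]
  have h4 : ∑' n : ℕ, y ^ (2 * (n + 1)) / (((n + 1 : ℕ) : ℝ) + 1) ≤ -Real.log (1 - y) := by
    rw [← hlog.tsum_eq]
    refine Summable.tsum_le_tsum (fun n => ?_) ((summable_nat_add_iff 1).2 hs) hlog.summable
    have h2 : y ^ (2 * (n + 1)) ≤ y ^ (n + 1) := pow_le_pow_of_le_one h0 h1.le (by omega)
    push_cast
    exact div_le_div₀ (by positivity) h2 (by positivity) (by linarith)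
  have h5 : y ^ (2 * 0) / (((0 : ℕ) : ℝ) + 1) = 1 := by simp
  rw [h5]
  linarith

end SEvalAux

open SEvalAux in
theorem sEval : SEval := by
  intro f hf z hz
  have hy1 : ‖z‖ < 1 := by simpa using hz
  have hy0 : 0 ≤ ‖z‖ := norm_nonneg z
  have hlog := log_nonpos' hy0 hy1
  by_cases htop : dn f = ⊤
  · rw [htop, ENNReal.mul_top]
    · exact le_top
    · have : (0 : ℝ) < 1 - Real.log (1 - ‖z‖) := by linarith
      exact (ENNReal.ofReal_pos.2 this).ne'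
  have hsum : Summable fun n : ℕ => ((n : ℝ) + 1) * ‖tc f n‖ ^ 2 := by
    have h := ENNReal.summable_toReal htop
    refine h.congr fun n => ?_
    rw [ENNReal.toReal_ofReal (by positivity)]
  have hdn : dn f = ENNReal.ofReal (∑' n : ℕ, ((n : ℝ) + 1) * ‖tc f n‖ ^ 2) := by
    rw [ENNReal.ofReal_tsum_of_nonneg (fun n => by positivity) hsum]
    rfl
  have hsq : ∀ n : ℕ, Real.sqrt ((n : ℝ) + 1) ^ 2 = (n : ℝ) + 1 := fun n =>
    Real.sq_sqrt (by positivity)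
  have hs0 : ∀ n : ℕ, 0 < Real.sqrt ((n : ℝ) + 1) := fun n => Real.sqrt_pos.2 (by positivity)
  obtain ⟨hb1, hb2⟩ := sum_bound hy0 hy1
  have eF : ∀ n : ℕ, (Real.sqrt ((n : ℝ) + 1) * ‖tc f n‖) ^ (2 : ℝ) =
      ((n : ℝ) + 1) * ‖tc f n‖ ^ 2 := by
    intro n
    rw [Real.rpow_two, mul_pow, hsq]
  have eG : ∀ n : ℕ, ((Real.sqrt ((n : ℝ) + 1))⁻¹ * ‖z‖ ^ n) ^ (2 : ℝ) =
      ‖z‖ ^ (2 * n) / ((n : ℝ) + 1) := by
    intro n
    rw [Real.rpow_two, mul_pow, inv_pow, hsq, ← pow_mul, mul_comm n 2]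
    field_simp
  have hCS := Real.inner_le_Lp_mul_Lq_tsum_of_nonneg
    (f := fun n : ℕ => Real.sqrt ((n : ℝ) + 1) * ‖tc f n‖)
    (g := fun n : ℕ => (Real.sqrt ((n : ℝ) + 1))⁻¹ * ‖z‖ ^ n) (p := 2) (q := 2)
    Real.HolderConjugate.two_two (fun n => by positivity) (fun n => by positivity)
    (by simp only [eF]; exact hsum) (by simp only [eG]; exact hb1)
  simp only [eF, eG] at hCS
  have hsumz := tc_hasSum hf hz
  have h1 : ‖f z‖ ≤ ∑' n : ℕ, Real.sqrt ((n : ℝ) + 1) * ‖tc f n‖ *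
      ((Real.sqrt ((n : ℝ) + 1))⁻¹ * ‖z‖ ^ n) := by
    rw [← hsumz.tsum_eq]
    refine (norm_tsum_le_tsum_norm hsumz.summable.norm).trans (le_of_eq ?_)
    refine tsum_congr fun n => ?_
    rw [norm_mul, norm_pow]
    have := (hs0 n).ne'
    field_simp
  have h2 := h1.trans hCS
  set A := ∑' n : ℕ, ((n : ℝ) + 1) * ‖tc f n‖ ^ 2 with hA
  set B := ∑' n : ℕ, ‖z‖ ^ (2 * n) / ((n : ℝ) + 1) with hB
  have hA0 : 0 ≤ A := tsum_nonneg fun n => by positivity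
  have hB0 : 0 ≤ B := tsum_nonneg fun n => by positivity
  have h3 : ‖f z‖ ^ 2 ≤ A * B := by
    have h4 := pow_le_pow_left₀ (norm_nonneg _) h2 2
    rw [mul_pow, ← Real.sqrt_eq_rpow, ← Real.sqrt_eq_rpow, Real.sq_sqrt hA0, Real.sq_sqrt hB0] at h4
    exact h4
  rw [hdn, ← ENNReal.ofReal_mul (by linarith)]
  apply ENNReal.ofReal_le_ofReal
  refine h3.trans ?_
  rw [mul_comm]
  exact mul_le_mul_of_nonneg_right hb2 hA0

end Pool.Agent.R201.UK
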