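import Pool.Agent.R201.UK.Stm

/-! # P8c: logarithmic size on the pieces -/

set_option autoImplicit false

open Set Metric MeasureTheory

namespace Pool.Agent.R201.UK

namespace SLogAux

theorem isCompact_seg (a b : ℂ) : IsCompact (segment ℝ a b) := by
  rw [segment_eq_image_lineMap]
  exact isCompact_Icc.image (by
    have : Continuous (AffineMap.lineMap a b : ℝ → ℂ) := by
      simp only [AffineMap.coe_lineMap]
      fun_prop
    exact this)

theorem al_pos (k : ℕ) : 0 < al k := by unfold al; positivity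

theorem VV_sub {k j : ℕ} (hj : j < 2 ^ k) : VV k j ⊆ Om := by
  intro w hw
  unfold Om
  rw [mem_iUnion]
  refine ⟨k, ?_⟩
  rw [mem_iUnion₂]
  exact ⟨j, Finset.mem_range.2 hj, Or.inl hw⟩

theorem HH_sub {k j : ℕ} (hj : j < 2 ^ k) : HH k j ⊆ Om := by
  intro w hw
  unfold Om
  rw [mem_iUnion]
  refine ⟨k, ?_⟩
  rw [mem_iUnion₂]
  exact ⟨j, Finset.mem_range.2 hj, Or.inr hw⟩

theorem xx_left (k j : ℕ) : xx (k + 1) (2 * j) = xx k j - (1 / 2) ^ k / 4 := by
  unfold xx
  push_cast
  ring

theorem xx_right (k j : ℕ) : xx (k + 1) (2 * j + 1) = xx k j + (1 / 2) ^ k / 4 := by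
  unfold xx
  push_cast
  ring

theorem dist_PQ (k j : ℕ) : dist (PP k j) (QQ k j) = (1 / 2) ^ k / 2 := by
  have h : PP k j - QQ k j = (((1 / 2 : ℝ) ^ k / 2 : ℝ) : ℂ) * Complex.I := by
    unfold PP QQ
    rw [pow_succ]
    generalize (1 / 2 : ℝ) ^ k = t
    apply Complex.ext
    · simp
    · simp; ring
  rw [dist_eq_norm, h, norm_mul, Complex.norm_I, mul_one, Complex.norm_real, Real.norm_eq_abs,
    abs_of_nonneg (by positivity)]

theorem dist_QL (k j : ℕ) : dist (QQ k j) (PP (k + 1) (2 * j)) = (1 / 2) ^ k / 4 := by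
  have h : QQ k j - PP (k + 1) (2 * j) = (((1 / 2 : ℝ) ^ k / 4 : ℝ) : ℂ) := by
    unfold PP QQ
    rw [xx_left]
    generalize (1 / 2 : ℝ) ^ k = t
    apply Complex.ext
    · simp
    · simp
  rw [dist_eq_norm, h, Complex.norm_real, Real.norm_eq_abs, abs_of_nonneg (by positivity)]

theorem dist_QR (k j : ℕ) : dist (QQ k j) (PP (k + 1) (2 * j + 1)) = (1 / 2) ^ k / 4 := by
  have h : QQ k j - PP (k + 1) (2 * j + 1) = ((-((1 / 2 : ℝ) ^ k / 4) : ℝ) : ℂ) := by
    unfold PP QQ
    rw [xx_right]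
    generalize (1 / 2 : ℝ) ^ k = t
    apply Complex.ext
    · simp
    · simp
  rw [dist_eq_norm, h, Complex.norm_real, Real.norm_eq_abs, abs_neg,
    abs_of_nonneg (by positivity)]

theorem Q_mem (k j : ℕ) : QQ k j ∈ segment ℝ (PP (k + 1) (2 * j)) (PP (k + 1) (2 * j + 1)) := by
  refine ⟨1 / 2, 1 / 2, by norm_num, by norm_num, by norm_num, ?_⟩
  apply Complex.ext
  · simp [PP, QQ, xx_left, xx_right]; ring
  · simp [PP, QQ]; ring

theorem cost (k : ℕ) (t : ℝ) : 2 * ((1 / 2) ^ k * t) / al k = 16 * t * (3 / 2) ^ k := by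
  have h : ((3 : ℝ) / 2) ^ k = (1 / 2) ^ k / (1 / 3) ^ k := by
    rw [← div_pow]; norm_num
  rw [h]
  unfold al
  have : ((1 : ℝ) / 3) ^ k ≠ 0 := by positivity
  field_simp
  ring

/-- distance from the midpoint to a point of the segment -/
theorem dist_Q_le (k j : ℕ) {c : ℂ}
    (hc : c ∈ segment ℝ (PP (k + 1) (2 * j)) (PP (k + 1) (2 * j + 1))) :
    dist (QQ k j) c ≤ (1 / 2) ^ k / 4 := by
  have hsub : segment ℝ (PP (k + 1) (2 * j)) (PP (k + 1) (2 * j + 1)) ⊆
      closedBall (QQ k j) ((1 / 2) ^ k / 4) := by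
    apply (convex_closedBall _ _).segment_subset
    · rw [mem_closedBall, dist_comm, dist_QL]
    · rw [mem_closedBall, dist_comm, dist_QR]
  have := hsub hc
  rwa [mem_closedBall, dist_comm] at this

theorem final (U : Set ℂ) (F : ℂ → ℂ) (h1 : SDisc) (hF : DifferentiableOn ℂ F U)
    (hm : MapsTo F U (ball 0 1)) (a b : ℂ) (r B : ℝ) (hr : 0 < r)
    (hU : Metric.thickening r (segment ℝ a b) ⊆ U) (hB : ∀ c ∈ segment ℝ a b, LL F c ≤ B)
    (w : ℂ) (hw : w ∈ Metric.thickening r (segment ℝ a b)) :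
    LL F w ≤ B + Real.log (2 * r / (r - infDist w (segment ℝ a b))) := by
  have hne : (segment ℝ a b).Nonempty := ⟨a, left_mem_segment ℝ a b⟩
  obtain ⟨c, hc, hcd⟩ := (isCompact_seg a b).exists_infDist_eq_dist hne w
  have hlt := (mem_thickening_iff_infDist_lt hne).1 hw
  rw [hcd] at hlt ⊢
  have := h1 U F hF hm c w r hr ((ball_subset_thickening hc r).trans hU) hlt
  have := hB c hc
  linarith

end SLogAux

open SLogAux

theorem sLog (h1 : SDisc) (h2 : SSeg) : SLog := by
  intro F hF hm h0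
  have hlog4 : Real.log 4 ≤ 1.4 := by
    rw [show (4 : ℝ) = 2 ^ 2 by norm_num, Real.log_pow]
    have := Real.log_two_lt_d9
    push_cast
    linarith
  have hlog4' : 0 ≤ Real.log 4 := Real.log_nonneg (by norm_num)
  have hpow : ∀ k : ℕ, (1 : ℝ) ≤ (3 / 2) ^ k := fun k => one_le_pow₀ (by norm_num)
  -- along the vertical segment
  have hV : ∀ k j : ℕ, j < 2 ^ k → ∀ c ∈ segment ℝ (PP k j) (QQ k j),
      LL F c ≤ LL F (PP k j) + Real.log 4 * (8 * (3 / 2) ^ k + 1) := by
    intro k j hj c hc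
    have hs : segment ℝ (PP k j) c ⊆ segment ℝ (PP k j) (QQ k j) :=
      (convex_segment _ _).segment_subset (left_mem_segment ℝ _ _) hc
    have := h2 Om F hF hm (PP k j) c (al k) (al_pos k) (fun c' hc' =>
      (ball_subset_thickening (hs hc') _).trans (VV_sub hj))
    have hd : dist (PP k j) c ≤ (1 / 2) ^ k / 2 := by
      have hsub : segment ℝ (PP k j) (QQ k j) ⊆ closedBall (PP k j) ((1 / 2) ^ k / 2) := by
        apply (convex_closedBall _ _).segment_subset
        · exact mem_closedBall_self (by positivity)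
        · rw [mem_closedBall, dist_comm, dist_PQ]
      have := hsub hc
      rwa [mem_closedBall, dist_comm] at this
    have h3 : 2 * dist (PP k j) c / al k ≤ 8 * (3 / 2) ^ k := by
      have := cost k (1 / 2)
      calc 2 * dist (PP k j) c / al k ≤ 2 * ((1 / 2) ^ k * (1 / 2)) / al k := by
            apply div_le_div_of_nonneg_right _ (al_pos k).le
            linarith
        _ = _ := by rw [this]; ring
    have h4 : Real.log 4 * (2 * dist (PP k j) c / al k + 1) ≤ Real.log 4 * (8 * (3 / 2) ^ k + 1) :=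
      mul_le_mul_of_nonneg_left (by linarith) hlog4'
    linarith
  have hH : ∀ k j : ℕ, j < 2 ^ k →
      ∀ c ∈ segment ℝ (PP (k + 1) (2 * j)) (PP (k + 1) (2 * j + 1)),
      LL F c ≤ LL F (PP k j) + Real.log 4 * (12 * (3 / 2) ^ k + 2) := by
    intro k j hj c hc
    have hs : segment ℝ (QQ k j) c ⊆ segment ℝ (PP (k + 1) (2 * j)) (PP (k + 1) (2 * j + 1)) :=
      (convex_segment _ _).segment_subset (Q_mem k j) hc
    have := h2 Om F hF hm (QQ k j) c (al k) (al_pos k) (fun c' hc' =>
      (ball_subset_thickening (hs hc') _).trans (HH_sub hj))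
    have hd := dist_Q_le k j hc
    have h3 : 2 * dist (QQ k j) c / al k ≤ 4 * (3 / 2) ^ k := by
      have := cost k (1 / 4)
      calc 2 * dist (QQ k j) c / al k ≤ 2 * ((1 / 2) ^ k * (1 / 4)) / al k := by
            apply div_le_div_of_nonneg_right _ (al_pos k).le
            linarith
        _ = _ := by rw [this]; ring
    have h4 : Real.log 4 * (2 * dist (QQ k j) c / al k + 1) ≤ Real.log 4 * (4 * (3 / 2) ^ k + 1) :=
      mul_le_mul_of_nonneg_left (by linarith) hlog4'
    have h5 := hV k j hj (QQ k j) (right_mem_segment ℝ _ _)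
    have h6 : Real.log 4 * (8 * (3 / 2) ^ k + 1) + Real.log 4 * (4 * (3 / 2) ^ k + 1)
      = Real.log 4 * (12 * (3 / 2) ^ k + 2) := by ring
    linarith
  -- induction
  have hP : ∀ k j : ℕ, j < 2 ^ k → LL F (PP k j) ≤ Real.log 4 * (28 * ((3 / 2) ^ k - 1)) := by
    intro k
    induction k with
    | zero =>
      intro j hj
      obtain rfl : j = 0 := by simpa using hj
      unfold LL
      rw [h0]
      simp
    | succ k ih =>
      intro j hj
      have hj2 : j / 2 < 2 ^ k := by
        rw [Nat.div_lt_iff_lt_mul (by norm_num)]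
        rw [pow_succ] at hj
        exact hj
      have hmem : PP (k + 1) j ∈ segment ℝ (PP (k + 1) (2 * (j / 2)))
          (PP (k + 1) (2 * (j / 2) + 1)) := by
        rcases Nat.even_or_odd' j with ⟨i, hi | hi⟩
        · have : 2 * (j / 2) = j := by omega
          rw [this]; exact left_mem_segment ℝ _ _
        · have : 2 * (j / 2) + 1 = j := by omega
          rw [this]; exact right_mem_segment ℝ _ _
      have e1 := hH k (j / 2) hj2 _ hmem
      have e2 := ih (j / 2) hj2
      have e3 : Real.log 4 * (28 * ((3 / 2) ^ k - 1)) + Real.log 4 * (12 * (3 / 2) ^ k + 2)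
          ≤ Real.log 4 * (28 * ((3 / 2) ^ (k + 1) - 1)) := by
        rw [← mul_add]
        apply mul_le_mul_of_nonneg_left _ hlog4'
        rw [pow_succ]
        have := hpow k
        linarith
      linarith
  intro k j hj
  have hk := hP k j hj
  have hp := hpow k
  constructor
  · intro w hw
    refine final Om F h1 hF hm (PP k j) (QQ k j) (al k) _ (al_pos k) (VV_sub hj) ?_ w hw
    intro c hc
    have := hV k j hj c hc
    have e : Real.log 4 * (28 * ((3 / 2) ^ k - 1)) + Real.log 4 * (8 * (3 / 2) ^ k + 1)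
        ≤ 60 * (3 / 2) ^ k := by
      rw [← mul_add]
      calc Real.log 4 * (28 * ((3 / 2) ^ k - 1) + (8 * (3 / 2) ^ k + 1))
          ≤ Real.log 4 * (36 * (3 / 2) ^ k) := mul_le_mul_of_nonneg_left (by linarith) hlog4'
        _ ≤ 1.4 * (36 * (3 / 2) ^ k) := mul_le_mul_of_nonneg_right hlog4 (by positivity)
        _ ≤ _ := by linarith
    linarith
  · intro w hw
    refine final Om F h1 hF hm _ _ (al k) _ (al_pos k) (HH_sub hj) ?_ w hw
    intro c hc
    have := hH k j hj c hc
    have e : Real.log 4 * (28 * ((3 / 2) ^ k - 1)) + Real.log 4 * (12 * (3 / 2) ^ k + 2)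
        ≤ 60 * (3 / 2) ^ k := by
      rw [← mul_add]
      calc Real.log 4 * (28 * ((3 / 2) ^ k - 1) + (12 * (3 / 2) ^ k + 2))
          ≤ Real.log 4 * (40 * (3 / 2) ^ k) := mul_le_mul_of_nonneg_left (by linarith) hlog4'
        _ ≤ 1.4 * (40 * (3 / 2) ^ k) := mul_le_mul_of_nonneg_right hlog4 (by positivity)
        _ ≤ _ := by linarith
    linarith

end Pool.Agent.R201.UK
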