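import Pool.Agent.R201.UK.Stm

set_option autoImplicit false

open Set Metric MeasureTheory

namespace Pool.Agent.R201.UK

/-- open rectangle -/
def SLowAux.R (a b c d : ℝ) : Set ℂ := {w : ℂ | w.re ∈ Ioo a b ∧ w.im ∈ Ioo c d}

theorem SLowAux.vol (a b c d : ℝ) :
    volume (SLowAux.R a b c d) = ENNReal.ofReal (b - a) * ENNReal.ofReal (d - c) := by
  have h := Complex.volume_preserving_equiv_real_prod.measure_preimage (s := Ioo a b ×ˢ Ioo c d)
    (measurableSet_Ioo.prod measurableSet_Ioo).nullMeasurableSet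
  have h2 : Complex.measurableEquivRealProd ⁻¹' (Ioo a b ×ˢ Ioo c d) = SLowAux.R a b c d := by
    ext w
    simp [SLowAux.R, Complex.measurableEquivRealProd_apply]
  rw [← h2, h, Measure.volume_eq_prod, Measure.prod_prod, Real.volume_Ioo, Real.volume_Ioo]

theorem SLowAux.meas (a b c d : ℝ) : MeasurableSet (SLowAux.R a b c d) := by
  have : SLowAux.R a b c d = Complex.re ⁻¹' (Ioo a b) ∩ Complex.im ⁻¹' (Ioo c d) := rfl
  rw [this]
  exact (Complex.measurable_re measurableSet_Ioo).inter (Complex.measurable_im measurableSet_Ioo)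

theorem SLowAux.sub (k j : ℕ) :
    SLowAux.R (xx k j - al k) (xx k j + al k) ((1 / 2) ^ (k + 1)) ((1 / 2) ^ k) ⊆ VV k j := by
  rintro w ⟨⟨h1, h2⟩, h3, h4⟩
  have hk : (0 : ℝ) < (1 / 2) ^ k := by positivity
  rw [pow_succ] at h3
  refine mem_thickening_iff.2 ⟨⟨xx k j, w.im⟩, ?_, ?_⟩
  · refine ⟨2 * w.im / (1 / 2) ^ k - 1, 2 - 2 * w.im / (1 / 2) ^ k, ?_, ?_, by ring, ?_⟩
    · rw [sub_nonneg, le_div_iff₀ hk]
      linarith
    · rw [sub_nonneg, div_le_iff₀ hk]
      linarith
    · apply Complex.ext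
      · simp only [PP, QQ, Complex.add_re, Complex.smul_re, smul_eq_mul]
        ring
      · simp only [PP, QQ, Complex.add_im, Complex.smul_im, smul_eq_mul]
        rw [pow_succ]
        field_simp
        ring
  · rw [dist_eq_norm]
    have : w - ⟨xx k j, w.im⟩ = ((w.re - xx k j : ℝ) : ℂ) := by
      apply Complex.ext <;> simp
    rw [this, Complex.norm_real, Real.norm_eq_abs, abs_lt]
    constructor <;> linarith

theorem SLowAux.disj (k j j' : ℕ) (h : j < j') :
    Disjoint (SLowAux.R (xx k j - al k) (xx k j + al k) ((1 / 2) ^ (k + 1)) ((1 / 2) ^ k))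
      (SLowAux.R (xx k j' - al k) (xx k j' + al k) ((1 / 2) ^ (k + 1)) ((1 / 2) ^ k)) := by
  rw [Set.disjoint_left]
  rintro w ⟨⟨h1, h2⟩, _⟩ ⟨⟨h3, h4⟩, _⟩
  have hk : (0 : ℝ) < (1 / 2) ^ k := by positivity
  have hal : al k ≤ (1 / 2) ^ k / 8 := by
    unfold al
    have : ((1 : ℝ) / 3) ^ k ≤ (1 / 2) ^ k := pow_le_pow_left₀ (by norm_num) (by norm_num) k
    linarith
  have hx : xx k j + (1 / 2) ^ k ≤ xx k j' := by
    unfold xx
    rw [pow_succ]
    have : (j : ℝ) + 1 ≤ j' := by exact_mod_cast h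
    nlinarith
  linarith

theorem sLow : SLow := by
  refine ⟨Real.exp (-2) / 8, by positivity, fun k => ?_⟩
  set U : Set ℂ := ⋃ j ∈ Finset.range (2 ^ k),
    SLowAux.R (xx k j - al k) (xx k j + al k) ((1 / 2) ^ (k + 1)) ((1 / 2) ^ k) with hU
  have hUO : U ⊆ Om := by
    intro w hw
    obtain ⟨j, hj, hw⟩ := mem_iUnion₂.1 hw
    exact mem_iUnion.2 ⟨k, mem_iUnion₂.2 ⟨j, hj, Or.inl (SLowAux.sub k j hw)⟩⟩
  have hvol : volume U = ENNReal.ofReal ((1 / 3) ^ k / 8) := by
    rw [hU, measure_biUnion_finset]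
    · have : ∀ j ∈ Finset.range (2 ^ k),
          volume (SLowAux.R (xx k j - al k) (xx k j + al k) ((1 / 2) ^ (k + 1)) ((1 / 2) ^ k)) =
            ENNReal.ofReal ((1 / 3) ^ k / 4 * ((1 / 2) ^ k / 2)) := by
        intro j _
        rw [SLowAux.vol, ← ENNReal.ofReal_mul]
        · congr 1
          unfold al
          rw [pow_succ]
          ring
        · unfold al
          have : (0 : ℝ) < (1 / 3) ^ k := by positivity
          linarith
      rw [Finset.sum_congr rfl this, Finset.sum_const, Finset.card_range, nsmul_eq_mul]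
      have h1 : ((2 ^ k : ℕ) : ENNReal) = ENNReal.ofReal (2 ^ k) := by
        rw [ENNReal.ofReal_pow (by norm_num)]
        simp
      rw [h1, ← ENNReal.ofReal_mul (by positivity)]
      congr 1
      have h2 : (2 : ℝ) ^ k * (1 / 2) ^ k = 1 := by
        rw [← mul_pow]
        norm_num
      calc (2 : ℝ) ^ k * ((1 / 3) ^ k / 4 * ((1 / 2) ^ k / 2)) =
          (2 ^ k * (1 / 2) ^ k) * ((1 / 3) ^ k / 8) := by ring
        _ = _ := by rw [h2, one_mul]
    · intro j _ j' _ hjj
      rcases lt_or_gt_of_ne hjj with h | h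
      · exact SLowAux.disj k j j' h
      · exact (SLowAux.disj k j' j h).symm
    · intro j _
      exact SLowAux.meas _ _ _ _
  have hUm : MeasurableSet U := by
    rw [hU]
    exact Finset.measurableSet_biUnion _ (fun j _ => SLowAux.meas _ _ _ _)
  calc ENNReal.ofReal (Real.exp (-2) / 8 * (1 / 3) ^ k)
      = ENNReal.ofReal (Real.exp (-2)) * volume U := by
        rw [hvol, ← ENNReal.ofReal_mul (by positivity)]
        congr 1
        ring
    _ = ∫⁻ _ in U, ENNReal.ofReal (Real.exp (-2)) := by rw [setLIntegral_const]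
    _ ≤ ∫⁻ w in U, ENNReal.ofReal (Real.exp (-(2 * (2 : ℝ) ^ k * w.im))) := by
        apply setLIntegral_mono' hUm
        intro w hw
        obtain ⟨j, hj, hw⟩ := mem_iUnion₂.1 hw
        apply ENNReal.ofReal_le_ofReal
        apply Real.exp_le_exp.2
        have h4 : w.im < (1 / 2) ^ k := hw.2.2
        have h2 : (2 : ℝ) ^ k * (1 / 2) ^ k = 1 := by
          rw [← mul_pow]
          norm_num
        have h3 : (0 : ℝ) < 2 ^ k := by positivity
        nlinarith
    _ ≤ _ := lintegral_mono_set hUO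

end Pool.Agent.R201.UK
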