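import Pool.Agent.R201.UK.Stm

set_option autoImplicit false

open Set Metric MeasureTheory

namespace Pool.Agent.R201.UK

/-- the sum in the area formula -/
noncomputable def SOpAux.S (f : ℂ → ℂ) : ENNReal := ∑' n : ℕ, ENNReal.ofReal ((n : ℝ) * ‖tc f n‖ ^ 2)

theorem SOpAux.tc0 (f : ℂ → ℂ) : tc f 0 = f 0 := by
  simp [tc]

theorem SOpAux.upper (h : ℂ → ℂ) : dn h ≤ ENNReal.ofReal (‖h 0‖ ^ 2) + 2 * SOpAux.S h := by
  have e : ENNReal.ofReal (‖h 0‖ ^ 2) + 2 * SOpAux.S h =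
      ∑' n : ℕ, ((if n = 0 then ENNReal.ofReal (‖h 0‖ ^ 2) else 0) +
        2 * ENNReal.ofReal ((n : ℝ) * ‖tc h n‖ ^ 2)) := by
    rw [ENNReal.tsum_add, tsum_ite_eq, ENNReal.tsum_mul_left]
    rfl
  rw [e]
  refine ENNReal.tsum_le_tsum fun n => ?_
  rcases Nat.eq_zero_or_pos n with rfl | hn
  · simp [SOpAux.tc0]
  · rw [if_neg hn.ne', zero_add]
    have h2 : (2 : ENNReal) = ENNReal.ofReal 2 := by simp
    rw [h2, ← ENNReal.ofReal_mul (by norm_num)]
    apply ENNReal.ofReal_le_ofReal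
    have : (1 : ℝ) ≤ n := by exact_mod_cast hn
    nlinarith [sq_nonneg ‖tc h n‖]

theorem SOpAux.lower1 (f : ℂ → ℂ) : ENNReal.ofReal (‖f 0‖ ^ 2) ≤ dn f := by
  have := ENNReal.le_tsum (f := fun n : ℕ => ENNReal.ofReal (((n : ℝ) + 1) * ‖tc f n‖ ^ 2)) 0
  simp only [CharP.cast_eq_zero, zero_add, one_mul, SOpAux.tc0] at this
  exact this

theorem SOpAux.lower2 (f : ℂ → ℂ) : SOpAux.S f ≤ dn f := by
  refine ENNReal.tsum_le_tsum fun n => ENNReal.ofReal_le_ofReal ?_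
  nlinarith [sq_nonneg ‖tc f n‖]

theorem sOp (h1 : SArea) (h2 : SEval) : SOp := by
  intro C hC
  refine ⟨5 + 4 * C / Real.pi, fun g hg hg1 hgC f hf => ?_⟩
  obtain ⟨hfd, hff⟩ := hf
  set h : ℂ → ℂ := fun z => g z * f z with hh
  have hhd : DifferentiableOn ℂ h (ball 0 1) := hg.mul hfd
  have hball : MeasurableSet (ball (0 : ℂ) 1) := isOpen_ball.measurableSet
  have hpi : (0 : ℝ) < Real.pi := Real.pi_pos
  -- pointwise bound
  have hpt : ∀ z ∈ ball (0 : ℂ) 1, ENNReal.ofReal (‖deriv h z‖ ^ 2) ≤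
      (2 * dn f) * (ENNReal.ofReal (1 - Real.log (1 - ‖z‖)) * ENNReal.ofReal (‖deriv g z‖ ^ 2)) +
        2 * ENNReal.ofReal (‖deriv f z‖ ^ 2) := by
    intro z hz
    have hgz : DifferentiableAt ℂ g z := hg.differentiableAt (isOpen_ball.mem_nhds hz)
    have hfz : DifferentiableAt ℂ f z := hfd.differentiableAt (isOpen_ball.mem_nhds hz)
    have hd : deriv h z = deriv g z * f z + g z * deriv f z := deriv_fun_mul hgz hfz
    have hn : ‖deriv h z‖ ≤ ‖deriv g z‖ * ‖f z‖ + ‖deriv f z‖ := by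
      rw [hd]
      refine (norm_add_le _ _).trans ?_
      rw [norm_mul, norm_mul]
      have := mul_le_mul_of_nonneg_right (hg1 z hz) (norm_nonneg (deriv f z))
      linarith
    have hsq : ‖deriv h z‖ ^ 2 ≤ 2 * (‖deriv g z‖ ^ 2 * ‖f z‖ ^ 2) + 2 * ‖deriv f z‖ ^ 2 := by
      have h3 : ‖deriv h z‖ ^ 2 ≤ (‖deriv g z‖ * ‖f z‖ + ‖deriv f z‖) ^ 2 :=
        pow_le_pow_left₀ (norm_nonneg _) hn 2
      nlinarith [sq_nonneg (‖deriv g z‖ * ‖f z‖ - ‖deriv f z‖)]
    have e2 : (2 : ENNReal) = ENNReal.ofReal 2 := by simp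
    calc ENNReal.ofReal (‖deriv h z‖ ^ 2)
        ≤ ENNReal.ofReal (2 * (‖deriv g z‖ ^ 2 * ‖f z‖ ^ 2) + 2 * ‖deriv f z‖ ^ 2) :=
          ENNReal.ofReal_le_ofReal hsq
      _ = 2 * (ENNReal.ofReal (‖deriv g z‖ ^ 2) * ENNReal.ofReal (‖f z‖ ^ 2)) +
          2 * ENNReal.ofReal (‖deriv f z‖ ^ 2) := by
          rw [ENNReal.ofReal_add (by positivity) (by positivity),
            ENNReal.ofReal_mul (by norm_num), ENNReal.ofReal_mul (by positivity),
            ENNReal.ofReal_mul (by norm_num), ← e2]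
      _ ≤ 2 * (ENNReal.ofReal (‖deriv g z‖ ^ 2) *
            (ENNReal.ofReal (1 - Real.log (1 - ‖z‖)) * dn f)) +
          2 * ENNReal.ofReal (‖deriv f z‖ ^ 2) := by
          gcongr
          exact h2 f hfd z hz
      _ = _ := by ring
  have hmf : Measurable (fun z : ℂ => 2 * ENNReal.ofReal (‖deriv f z‖ ^ 2)) :=
    ((measurable_deriv f).norm.pow_const 2).ennreal_ofReal.const_mul 2
  have hI : ∫⁻ z in ball (0 : ℂ) 1, ENNReal.ofReal (‖deriv h z‖ ^ 2) ≤
      (2 * dn f) * ENNReal.ofReal C + 2 * (ENNReal.ofReal Real.pi * dn f) := by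
    calc ∫⁻ z in ball (0 : ℂ) 1, ENNReal.ofReal (‖deriv h z‖ ^ 2)
        ≤ ∫⁻ z in ball (0 : ℂ) 1, ((2 * dn f) *
            (ENNReal.ofReal (1 - Real.log (1 - ‖z‖)) * ENNReal.ofReal (‖deriv g z‖ ^ 2)) +
              2 * ENNReal.ofReal (‖deriv f z‖ ^ 2)) := setLIntegral_mono' hball hpt
      _ = (∫⁻ z in ball (0 : ℂ) 1, (2 * dn f) *
            (ENNReal.ofReal (1 - Real.log (1 - ‖z‖)) * ENNReal.ofReal (‖deriv g z‖ ^ 2))) +
          ∫⁻ z in ball (0 : ℂ) 1, 2 * ENNReal.ofReal (‖deriv f z‖ ^ 2) :=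
          lintegral_add_right _ hmf
      _ = (2 * dn f) * (∫⁻ z in ball (0 : ℂ) 1,
            (ENNReal.ofReal (1 - Real.log (1 - ‖z‖)) * ENNReal.ofReal (‖deriv g z‖ ^ 2))) +
          2 * ∫⁻ z in ball (0 : ℂ) 1, ENNReal.ofReal (‖deriv f z‖ ^ 2) := by
          rw [lintegral_const_mul' _ _ (ENNReal.mul_ne_top (by simp) hff.ne),
            lintegral_const_mul' _ _ (by simp)]
      _ ≤ (2 * dn f) * ENNReal.ofReal C + 2 * (ENNReal.ofReal Real.pi * dn f) := by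
          gcongr
          rw [h1 f hfd]
          gcongr
          exact SOpAux.lower2 f
  have hh0 : ENNReal.ofReal (‖h 0‖ ^ 2) ≤ dn f := by
    refine le_trans (ENNReal.ofReal_le_ofReal ?_) (SOpAux.lower1 f)
    have h0 : (0 : ℂ) ∈ ball (0 : ℂ) 1 := mem_ball_self one_pos
    have : ‖h 0‖ ≤ ‖f 0‖ := by
      rw [hh]
      simp only [norm_mul]
      have := mul_le_mul_of_nonneg_right (hg1 0 h0) (norm_nonneg (f 0))
      linarith
    exact pow_le_pow_left₀ (norm_nonneg _) this 2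
  have hS : ENNReal.ofReal Real.pi * SOpAux.S h ≤
      (2 * dn f) * ENNReal.ofReal C + 2 * (ENNReal.ofReal Real.pi * dn f) := by
    have := h1 h hhd
    rw [SOpAux.S, ← this]
    exact hI
  have hfin : ENNReal.ofReal Real.pi * dn h ≤
      ENNReal.ofReal Real.pi * (ENNReal.ofReal (5 + 4 * C / Real.pi) * dn f) := by
    calc ENNReal.ofReal Real.pi * dn h
        ≤ ENNReal.ofReal Real.pi * (ENNReal.ofReal (‖h 0‖ ^ 2) + 2 * SOpAux.S h) := by
          gcongr
          exact SOpAux.upper h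
      _ = ENNReal.ofReal Real.pi * ENNReal.ofReal (‖h 0‖ ^ 2) +
          2 * (ENNReal.ofReal Real.pi * SOpAux.S h) := by ring
      _ ≤ ENNReal.ofReal Real.pi * dn f + 2 * ((2 * dn f) * ENNReal.ofReal C +
          2 * (ENNReal.ofReal Real.pi * dn f)) := by
          gcongr
      _ = (5 * ENNReal.ofReal Real.pi + 4 * ENNReal.ofReal C) * dn f := by ring
      _ = _ := by
          rw [← mul_assoc, ← ENNReal.ofReal_mul hpi.le]
          congr 1
          have e : Real.pi * (5 + 4 * C / Real.pi) = 5 * Real.pi + 4 * C := by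
            field_simp
          rw [e, ENNReal.ofReal_add (by positivity) (by positivity),
            ENNReal.ofReal_mul (by norm_num), ENNReal.ofReal_mul (by norm_num)]
          simp
  exact (ENNReal.mul_le_mul_iff_right (by simpa using hpi) ENNReal.ofReal_ne_top).1 hfin

end Pool.Agent.R201.UK
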