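import Pool.Agent.R201.UK.Stm

/-! # P4: bounds of the derivative of the Cesaro polynomial -/

set_option autoImplicit false

open Set Metric MeasureTheory

namespace Pool.Agent.R201.UK

namespace SPnAux

theorem pn_deriv (n : ℕ) (u : ℂ) :
    deriv (pn n) u = ((n : ℂ) + 1)⁻¹ * ∑ k ∈ Finset.range (n + 1), (k : ℂ) * u ^ (k - 1) := by
  have h : HasDerivAt (pn n) (((n : ℂ) + 1)⁻¹ *
      ∑ k ∈ Finset.range (n + 1), (k : ℂ) * u ^ (k - 1)) u := by
    unfold pn
    refine HasDerivAt.const_mul _ ?_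
    refine HasDerivAt.fun_sum fun k _ => ?_
    exact hasDerivAt_pow k u
  exact h.deriv

theorem sum_id (n : ℕ) (u : ℂ) :
    (∑ k ∈ Finset.range (n + 1), (k : ℂ) * u ^ (k - 1)) * (u - 1) ^ 2 =
      ((n : ℂ) + 1) * u ^ n * (u - 1) - (u ^ (n + 1) - 1) := by
  induction n with
  | zero => simp
  | succ n ih =>
    rw [Finset.sum_range_succ, add_mul, ih, Nat.add_sub_cancel]
    push_cast
    ring

theorem le_n (n : ℕ) {u : ℂ} (hu : ‖u‖ ≤ 1) : ‖deriv (pn n) u‖ ≤ n := by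
  rw [pn_deriv, norm_mul, norm_inv]
  have h1 : ‖((n : ℂ) + 1)‖ = (n : ℝ) + 1 := by
    have : ((n : ℂ) + 1) = (((n : ℝ) + 1 : ℝ) : ℂ) := by push_cast; rfl
    rw [this, Complex.norm_real, Real.norm_of_nonneg (by positivity)]
  have h2 : ‖∑ k ∈ Finset.range (n + 1), (k : ℂ) * u ^ (k - 1)‖ ≤ ((n : ℝ) + 1) * n := by
    refine (norm_sum_le _ _).trans ?_
    have : ∀ k ∈ Finset.range (n + 1), ‖(k : ℂ) * u ^ (k - 1)‖ ≤ (n : ℝ) := by
      intro k hk
      rw [norm_mul, norm_pow, Complex.norm_natCast]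
      have h3 : (k : ℝ) ≤ n := by
        have := Finset.mem_range.1 hk
        exact_mod_cast Nat.lt_succ_iff.1 this
      calc (k : ℝ) * ‖u‖ ^ (k - 1) ≤ (n : ℝ) * 1 :=
            mul_le_mul h3 (pow_le_one₀ (norm_nonneg _) hu) (by positivity) (by positivity)
        _ = n := mul_one _
    refine (Finset.sum_le_sum this).trans (le_of_eq ?_)
    rw [Finset.sum_const, Finset.card_range, nsmul_eq_mul]
    push_cast
    ring
  rw [h1]
  rw [inv_mul_le_iff₀ (by positivity)]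
  exact h2

theorem le_two (n : ℕ) {u : ℂ} (hu : ‖u‖ ≤ 1) (h1 : u ≠ 1) :
    ‖deriv (pn n) u‖ ≤ ‖u‖ ^ n / ‖1 - u‖ + 2 / (((n : ℝ) + 1) * ‖1 - u‖ ^ 2) := by
  have hd : u - 1 ≠ 0 := sub_ne_zero.2 h1
  have hn : ((n : ℂ) + 1) ≠ 0 := by exact_mod_cast Nat.succ_ne_zero n
  have hn1 : ‖((n : ℂ) + 1)‖ = (n : ℝ) + 1 := by
    have : ((n : ℂ) + 1) = (((n : ℝ) + 1 : ℝ) : ℂ) := by push_cast; rfl
    rw [this, Complex.norm_real, Real.norm_of_nonneg (by positivity)]
  have e : deriv (pn n) u = u ^ n / (u - 1) - (u ^ (n + 1) - 1) / (((n : ℂ) + 1) * (u - 1) ^ 2) := by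
    rw [pn_deriv]
    have h2 := sum_id n u
    have h3 : ∑ k ∈ Finset.range (n + 1), (k : ℂ) * u ^ (k - 1) =
        (((n : ℂ) + 1) * u ^ n * (u - 1) - (u ^ (n + 1) - 1)) / (u - 1) ^ 2 := by
      rw [← h2]
      field_simp
    rw [h3]
    field_simp
  have hr : ‖u - 1‖ = ‖1 - u‖ := norm_sub_rev u 1
  rw [e]
  refine (norm_sub_le _ _).trans (add_le_add (le_of_eq ?_) ?_)
  · rw [norm_div, norm_pow, hr]
  · rw [norm_div, norm_mul, norm_pow, hn1, hr]
    apply div_le_div_of_nonneg_right _ (by positivity)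
    refine (norm_sub_le _ _).trans ?_
    rw [norm_one, norm_pow]
    have := pow_le_one₀ (n := n + 1) (norm_nonneg u) hu
    linarith

theorem one_sub_exp {y : ℝ} (h0 : 0 < y) (h1 : y ≤ 9 / 8) : y / 3 ≤ 1 - Real.exp (-y) := by
  have h2 : 1 + y ≤ Real.exp y := by linarith [Real.add_one_le_exp y]
  have h3 : Real.exp (-y) * Real.exp y = 1 := by rw [← Real.exp_add]; simp
  have h4 : 0 < Real.exp (-y) := Real.exp_pos _
  have h5 : Real.exp (-y) * (1 + y) ≤ 1 :=
    (mul_le_mul_of_nonneg_left h2 h4.le).trans (le_of_eq h3)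
  have h6 : Real.exp (-y) ≤ 1 / (1 + y) := by
    rw [le_div_iff₀ (by linarith)]
    exact h5
  have h7 : 1 / (1 + y) ≤ 1 - y / 3 := by
    rw [div_le_iff₀ (by linarith)]
    nlinarith
  linarith

theorem one_sub_cos {φ : ℝ} (h : |φ| ≤ Real.pi + 1 / 2) : φ ^ 2 / 30 ≤ 1 - Real.cos φ := by
  have hpi := Real.pi_lt_d2
  have hpi0 := Real.pi_gt_three
  obtain ⟨h1, h2⟩ := abs_le.1 h
  have h3 := Real.cos_le_one_div_sqrt_sq_add_one (x := φ) (by linarith) (by linarith)
  set q := Real.sqrt (φ ^ 2 + 1) with hq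
  have hq2 : q ^ 2 = φ ^ 2 + 1 := Real.sq_sqrt (by positivity)
  have hq1 : 1 ≤ q := by
    rw [hq]
    exact Real.one_le_sqrt.2 (by nlinarith [sq_nonneg φ])
  have hq4 : q ≤ 4 := by
    have : φ ^ 2 + 1 ≤ 4 ^ 2 := by
      have : |φ| ≤ 3.65 := by linarith
      nlinarith [abs_nonneg φ, sq_abs φ]
    rw [hq]
    exact Real.sqrt_le_iff.2 ⟨by norm_num, this⟩
  have h4 : φ ^ 2 / 30 ≤ 1 - 1 / q := by
    have e : φ ^ 2 = (q - 1) * (q + 1) := by nlinarith
    rw [e]
    have h5 : 1 - 1 / q = (q - 1) / q := by field_simp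
    rw [h5, div_le_div_iff₀ (by norm_num) (by linarith)]
    nlinarith [mul_nonneg (sub_nonneg.2 hq1) (sub_nonneg.2 hq4)]
  linarith

theorem dist_one {y φ : ℝ} (h0 : 0 < y) (h1 : y ≤ 9 / 8) (h : |φ| ≤ Real.pi + 1 / 2) {u : ℂ}
    (hu : u = Complex.exp (Complex.I * (φ + y * Complex.I))) :
    ‖u‖ = Real.exp (-y) ∧ y / 3 ≤ ‖1 - u‖ ∧ |φ| / 8 ≤ ‖1 - u‖ := by
  have e1 : Complex.I * (φ + y * Complex.I) = ((-y : ℝ) : ℂ) + (φ : ℂ) * Complex.I := by
    have : Complex.I * (y * Complex.I) = -(y : ℂ) := by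
      rw [mul_left_comm, Complex.I_mul_I]; ring
    rw [mul_add, this]
    push_cast
    ring
  have hn : ‖u‖ = Real.exp (-y) := by
    rw [hu, e1, Complex.norm_exp]
    simp
  have h2 : y / 3 ≤ ‖1 - u‖ := by
    have h3 : 1 - ‖u‖ ≤ ‖1 - u‖ := by
      have := norm_sub_norm_le (1 : ℂ) u
      rwa [norm_one] at this
    rw [hn] at h3
    exact (one_sub_exp h0 h1).trans h3
  refine ⟨hn, h2, ?_⟩
  have hre : u.re = Real.exp (-y) * Real.cos φ := by
    rw [hu, e1, Complex.exp_re]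
    simp
  have hsq : ‖1 - u‖ ^ 2 = 1 - 2 * u.re + ‖u‖ ^ 2 := by
    rw [← Complex.normSq_eq_norm_sq, ← Complex.normSq_eq_norm_sq, Complex.normSq_apply,
      Complex.normSq_apply]
    simp
    ring
  rw [hre, hn] at hsq
  have h3 := one_sub_cos h
  have h4 : (1 : ℝ) / 4 ≤ Real.exp (-y) := by
    have h5 : Real.exp (-(9 / 8 : ℝ)) ≤ Real.exp (-y) := Real.exp_le_exp.2 (by linarith)
    have h6 : (1 : ℝ) / 4 ≤ Real.exp (-(9 / 8 : ℝ)) := by
      have h7 : Real.exp (9 / 8 : ℝ) ≤ 4 := by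
        have h8 : Real.exp 1 < 2.7182818286 := Real.exp_one_lt_d9
        have h9 : Real.exp (9 / 8 : ℝ) = Real.exp 1 * Real.exp (1 / 8) := by
          rw [← Real.exp_add]; norm_num
        have h10 : Real.exp (1 / 8 : ℝ) ≤ 8 / 7 := by
          have h11 := Real.add_one_le_exp (-(1 / 8) : ℝ)
          have h12 : Real.exp (-(1 / 8) : ℝ) * Real.exp (1 / 8) = 1 := by
            rw [← Real.exp_add]; simp
          have h13 : 0 < Real.exp (1 / 8 : ℝ) := Real.exp_pos _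
          nlinarith
        rw [h9]
        have h14 : 0 < Real.exp (1 / 8 : ℝ) := Real.exp_pos _
        nlinarith [Real.exp_pos 1]
      rw [Real.exp_neg, one_div]
      exact inv_anti₀ (Real.exp_pos _) h7
    linarith
  have h5 : (|φ| / 8) ^ 2 ≤ ‖1 - u‖ ^ 2 := by
    rw [hsq, div_pow, sq_abs]
    have h6 : 0 ≤ φ ^ 2 := sq_nonneg φ
    have h7 : Real.exp (-y) * (φ ^ 2 / 30) ≤ Real.exp (-y) * (1 - Real.cos φ) :=
      mul_le_mul_of_nonneg_left h3 (by linarith)
    nlinarith [sq_nonneg (1 - Real.exp (-y)), mul_le_mul_of_nonneg_right h4 h6]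
  exact le_of_sq_le_sq h5 (norm_nonneg _)

end SPnAux

open SPnAux in
theorem sPn : SPn := by
  refine ⟨779 ^ 2, by norm_num, ?_⟩
  intro l hl
  set α := Complex.arg (l * Complex.exp (Complex.I / 2)) with hα
  have hαb : |α| ≤ Real.pi := Complex.abs_arg_le_pi _
  have hl' : l = Complex.exp (Complex.I * (α - 1 / 2)) := by
    have h1 : ‖l * Complex.exp (Complex.I / 2)‖ = 1 := by
      rw [norm_mul, hl, one_mul, Complex.norm_exp]
      simp
    have h2 := Complex.norm_mul_exp_arg_mul_I (l * Complex.exp (Complex.I / 2))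
    rw [h1, ← hα, Complex.ofReal_one, one_mul] at h2
    have h3 : Complex.exp (Complex.I * (α - 1 / 2)) =
        Complex.exp (α * Complex.I) * (Complex.exp (Complex.I / 2))⁻¹ := by
      rw [← Complex.exp_neg, ← Complex.exp_add]
      congr 1
      ring
    rw [h3, h2, mul_assoc, mul_inv_cancel₀ (Complex.exp_ne_zero _), mul_one]
  refine ⟨1 / 2 - α, ?_⟩
  intro n hn k j hj w hw1 hw2 hw3
  set θ : ℝ := 1 / 2 - α with hθ
  set x := w.re with hx
  set y := w.im with hy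
  have hk0 : (0 : ℝ) < (1 / 2) ^ k := by positivity
  have hk1 : ((1 : ℝ) / 2) ^ k ≤ 1 := pow_le_one₀ (by norm_num) (by norm_num)
  have hn0 : (0 : ℝ) < n := by exact_mod_cast hn
  have hy0 : 0 < y := by linarith
  have hy1 : y ≤ 9 / 8 := by linarith
  -- location of x
  have hxx : |x - 1 / 2| ≤ 1 / 2 := by
    have e1 : xx k j = (2 * (j : ℝ) + 1) * ((1 / 2) ^ k / 2) := by
      unfold xx
      rw [pow_succ]
      ring
    have e2 : ((2 : ℝ) ^ k) * (1 / 2) ^ k = 1 := by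
      rw [← mul_pow]; norm_num
    have hj' : (j : ℝ) + 1 ≤ 2 ^ k := by exact_mod_cast hj
    have hj0 : (0 : ℝ) ≤ j := Nat.cast_nonneg j
    obtain ⟨a1, a2⟩ := abs_le.1 hw1
    rw [abs_le]
    have b1 : (1 / 2) ^ k / 2 ≤ xx k j := by
      rw [e1]
      nlinarith
    have b2 : xx k j ≤ 1 - (1 / 2) ^ k / 2 := by
      rw [e1]
      nlinarith [mul_le_mul_of_nonneg_right hj' hk0.le]
    constructor <;> linarith
  set φ : ℝ := x - θ with hφ
  have hφb : |φ| ≤ Real.pi + 1 / 2 := by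
    have e : φ = α + (x - 1 / 2) := by rw [hφ, hθ]; ring
    rw [e]
    exact (abs_add_le _ _).trans (add_le_add hαb hxx)
  set u : ℂ := l * Complex.exp (Complex.I * w) with hu
  have hu' : u = Complex.exp (Complex.I * (φ + y * Complex.I)) := by
    rw [hu, hl', ← Complex.exp_add]
    congr 1
    have e : w = (x : ℂ) + y * Complex.I := (Complex.re_add_im w).symm
    rw [e, hφ, hθ]
    push_cast
    ring
  obtain ⟨hun, hd1, hd2⟩ := dist_one hy0 hy1 hφb hu'
  have hu1 : ‖u‖ ≤ 1 := by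
    rw [hun]
    exact Real.exp_le_one_iff.2 (by linarith)
  set D := ‖1 - u‖ with hD
  have hD0 : 0 < D := lt_of_lt_of_le (by positivity) hd1
  have hune : u ≠ 1 := by
    intro h
    rw [hD, h, sub_self, norm_zero] at hD0
    exact lt_irrefl _ hD0
  set η : ℝ := (1 / 2) ^ k + |xx k j - θ| with hη
  have hη0 : 0 < η := by positivity
  have hηD : η ≤ 19 * D := by
    have h1 : |xx k j - θ| ≤ 3 / 8 * (1 / 2) ^ k + |φ| := by
      have e : xx k j - θ = -(x - xx k j) + φ := by rw [hφ]; ring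
      rw [e]
      refine (abs_add_le _ _).trans ?_
      rw [abs_neg]
      exact add_le_add hw1 le_rfl
    rw [hη]
    linarith
  have hDinv : 1 / D ≤ 19 / η := by
    rw [div_le_div_iff₀ hD0 hη0]
    linarith
  set M := ‖deriv (pn n) u‖ with hM
  have hMn : M ≤ n := le_n n hu1
  have hM2 : M ≤ ‖u‖ ^ n / D + 2 / (((n : ℝ) + 1) * D ^ 2) := le_two n hu1 hune
  have hsecond : 2 / (((n : ℝ) + 1) * D ^ 2) ≤ 722 / (n * η ^ 2) := by
    have h1 : η ^ 2 ≤ 361 * D ^ 2 := by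
      have := pow_le_pow_left₀ hη0.le hηD 2
      rw [mul_pow] at this
      norm_num at this
      exact this
    rw [div_le_div_iff₀ (by positivity) (by positivity)]
    have h2 : (n : ℝ) * η ^ 2 ≤ ((n : ℝ) + 1) * (361 * D ^ 2) :=
      mul_le_mul (by linarith) h1 (by positivity) (by positivity)
    linarith
  have hfirst : ‖u‖ ^ n / D ≤ ‖u‖ ^ n * (19 / η) := by
    rw [div_eq_mul_one_div]
    exact mul_le_mul_of_nonneg_left hDinv (by positivity)
  -- (a)
  have ha : M ≤ 779 / η := by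
    rcases le_or_gt 1 (n * η) with h | h
    · have h1 : 722 / (n * η ^ 2) ≤ 722 / η := by
        rw [div_le_div_iff₀ (by positivity) hη0]
        nlinarith
      have h2 : ‖u‖ ^ n * (19 / η) ≤ 1 * (19 / η) :=
        mul_le_mul_of_nonneg_right (pow_le_one₀ (norm_nonneg _) hu1) (by positivity)
      have h3 : 1 * (19 / η) + 722 / η ≤ 779 / η := by
        rw [one_mul, ← add_div]
        exact div_le_div_of_nonneg_right (by norm_num) hη0.le
      linarith
    · have h1 : (n : ℝ) ≤ 779 / η := by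
        rw [le_div_iff₀ hη0]
        linarith
      linarith
  -- (b)
  have e2 : ((2 : ℝ) ^ k) * (1 / 2) ^ k = 1 := by
    rw [← mul_pow]; norm_num
  have h2k : (0 : ℝ) < 2 ^ k := by positivity
  have hb : M ≤ 779 * (2 ^ k / n) / η := by
    have h1 : ‖u‖ ^ n ≤ 3 * (2 ^ k / n) := by
      rw [hun, ← Real.exp_nat_mul]
      have h4 : (n : ℝ) * (-y) = -(n * y) := by ring
      rw [h4]
      have h5 : Real.exp (-(n * y)) ≤ 1 / (n * y) := by
        rw [Real.exp_neg, one_div]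
        apply inv_anti₀ (by positivity)
        linarith [Real.add_one_le_exp (n * y)]
      refine h5.trans ?_
      rw [mul_div_assoc', div_le_div_iff₀ (by positivity) hn0]
      have h6 : 1 ≤ 3 * 2 ^ k * y := by nlinarith
      nlinarith
    have h2 : ‖u‖ ^ n * (19 / η) ≤ 3 * (2 ^ k / n) * (19 / η) :=
      mul_le_mul_of_nonneg_right h1 (by positivity)
    have h3 : 722 / (n * η ^ 2) ≤ 722 * (2 ^ k / n) / η := by
      rw [mul_div_assoc', div_div, div_le_div_iff₀ (by positivity) (by positivity)]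
      have h7 : 1 ≤ 2 ^ k * η := by
        have : (1 / 2) ^ k ≤ η := by rw [hη]; linarith [abs_nonneg (xx k j - θ)]
        nlinarith
      have h8 : 0 ≤ (n : ℝ) * η := by positivity
      have h9 := mul_le_mul_of_nonneg_left h7 h8
      calc 722 * ((n : ℝ) * η) = 722 * ((n : ℝ) * η * 1) := by ring
        _ ≤ 722 * ((n : ℝ) * η * (2 ^ k * η)) := by linarith
        _ = 722 * 2 ^ k * ((n : ℝ) * η ^ 2) := by ring
    have h4 : 3 * (2 ^ k / n) * (19 / η) + 722 * (2 ^ k / n) / η = 779 * (2 ^ k / n) / η := by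
      field_simp
      norm_num
    linarith
  have hM0 : 0 ≤ M := norm_nonneg _
  rw [mul_min_of_nonneg _ _ (by norm_num : (0 : ℝ) ≤ 779 ^ 2)]
  apply le_min
  · have := pow_le_pow_left₀ hM0 hMn 2
    nlinarith [sq_nonneg (n : ℝ)]
  · rw [mul_min_of_nonneg _ _ (by positivity : (0 : ℝ) ≤ η⁻¹ ^ 2),
      mul_min_of_nonneg _ _ (by norm_num : (0 : ℝ) ≤ 779 ^ 2)]
    apply le_min
    · have h1 := pow_le_pow_left₀ hM0 ha 2
      refine h1.trans (le_of_eq ?_)
      rw [div_eq_mul_inv]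
      ring
    · have h1 := pow_le_pow_left₀ hM0 hb 2
      refine h1.trans (le_of_eq ?_)
      rw [div_eq_mul_inv _ η]
      ring

end Pool.Agent.R201.UK
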