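import Pool.Agent.R201.UK.Stm

set_option autoImplicit false

namespace Pool.Agent.R201.UK
namespace SSumAux

theorem step (N t : ℝ) (hN : 1 ≤ N) :
    1 / (N + |t|) ^ 2 ≤ 2 * (t + 1) / (N * (N + |t + 1|)) - 2 * t / (N * (N + |t|)) := by
  rcases le_or_gt 0 t with h | h
  · rw [abs_of_nonneg h, abs_of_nonneg (by linarith : (0:ℝ) ≤ t + 1)]
    have h1 : 2 * (t + 1) / (N * (N + (t + 1))) - 2 * t / (N * (N + t)) = 2 / ((N + t) * (N + (t + 1))) := by
      field_simp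
      ring
    rw [h1, div_le_div_iff₀ (by positivity) (by positivity)]
    nlinarith [mul_nonneg (by linarith : (0:ℝ) ≤ N + t) (by linarith : (0:ℝ) ≤ N + t - 1)]
  · rcases le_or_gt t (-1) with h' | h'
    · rw [abs_of_neg h, abs_of_nonpos (by linarith : t + 1 ≤ 0)]
      have h0 : 0 < N + -t := by linarith
      have h00 : 0 < N + -(t + 1) := by linarith
      have h1 : 2 * (t + 1) / (N * (N + -(t + 1))) - 2 * t / (N * (N + -t)) = 2 / ((N + -t) * (N + -(t + 1))) := by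
        field_simp
        ring
      rw [h1, div_le_div_iff₀ (by positivity) (by positivity)]
      nlinarith [mul_nonneg h0.le h0.le, mul_pos h0 h00]
    · have h2 : 0 < t + 1 := by linarith
      rw [abs_of_neg h, abs_of_pos h2]
      have h0 : 0 < N + -t := by linarith
      have e1 : 2 * (t + 1) / (N * (N + 1)) ≤ 2 * (t + 1) / (N * (N + (t + 1))) := by
        apply div_le_div_of_nonneg_left (by linarith) (by positivity)
        apply mul_le_mul_of_nonneg_left (by linarith) (by linarith)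
      have e2 : 2 * (-t) / (N * (N + 1)) ≤ 2 * (-t) / (N * (N + -t)) := by
        apply div_le_div_of_nonneg_left (by linarith) (by positivity)
        apply mul_le_mul_of_nonneg_left (by linarith) (by linarith)
      have e3 : 2 * (t + 1) / (N * (N + 1)) + 2 * (-t) / (N * (N + 1)) = 2 / (N * (N + 1)) := by
        rw [← add_div]; congr 1; ring
      have e4 : 1 / (N + -t) ^ 2 ≤ 2 / (N * (N + 1)) := by
        rw [div_le_div_iff₀ (by positivity) (by positivity)]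
        nlinarith [mul_pos (by linarith : (0:ℝ) < N) (by linarith : (0:ℝ) < -t), mul_nonneg (by linarith : (0:ℝ) ≤ N) (by linarith : (0:ℝ) ≤ N - 1), sq_nonneg t]
      have e5 : 2 * (-t) / (N * (N + -t)) = - (2 * t / (N * (N + -t))) := by
        rw [← neg_div]; congr 1; ring
      linarith

theorem Fabs (N t : ℝ) (hN : 1 ≤ N) : |2 * t / (N * (N + |t|))| ≤ 2 / N := by
  have h0 : 0 ≤ |t| := abs_nonneg t
  rw [abs_div, abs_mul, abs_of_pos (by norm_num : (0:ℝ) < 2), abs_of_pos (by positivity : 0 < N * (N + |t|)),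
    div_le_div_iff₀ (by positivity) (by positivity)]
  nlinarith [mul_nonneg (by linarith : (0:ℝ) ≤ N) (by linarith : (0:ℝ) ≤ N)]

theorem sumA (N τ : ℝ) (hN : 1 ≤ N) (M : ℕ) : ∑ j ∈ Finset.range M, 1 / (N + |(j:ℝ) - τ|) ^ 2 ≤ 4 / N := by
  obtain ⟨F, hF⟩ : ∃ F : ℕ → ℝ, ∀ i : ℕ, F i = 2 * ((i:ℝ) - τ) / (N * (N + |(i:ℝ) - τ|)) := ⟨_, fun _ => rfl⟩
  have h1 : ∑ j ∈ Finset.range M, 1 / (N + |(j:ℝ) - τ|) ^ 2 ≤ ∑ j ∈ Finset.range M, (F (j + 1) - F j) := by
    apply Finset.sum_le_sum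
    intro j _
    have := step N ((j:ℝ) - τ) hN
    have e : ((j + 1 : ℕ) : ℝ) - τ = (j:ℝ) - τ + 1 := by push_cast; ring
    rw [hF, hF, e]
    exact this
  rw [Finset.sum_range_sub, hF, hF] at h1
  have h2 := Fabs N ((M:ℝ) - τ) hN
  have h3 := Fabs N (((0:ℕ):ℝ) - τ) hN
  have h4 := abs_le.1 h2
  have h5 := abs_le.1 h3
  have h6 : 4 / N = 2 / N + 2 / N := by ring
  linarith [h4.2, h5.1]

/-- the bound of the generation -/
noncomputable def b (r : ℝ) : ℝ := if r ≤ 1 then 4 * r ^ 2 else 16 / r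

theorem gen (n : ℕ) (hn : 1 ≤ n) (θ : ℝ) (k : ℕ) :
    ∑ j ∈ Finset.range (2 ^ k), ((1 / 4 : ℝ) ^ k * min ((n : ℝ) ^ 2)
        (((1 / 2) ^ k + |xx k j - θ|)⁻¹ ^ 2 * min 1 ((2 ^ k / (n : ℝ)) ^ 2))) ≤ b (2 ^ k / (n : ℝ)) := by
  have hn0 : (0:ℝ) < n := by exact_mod_cast hn
  have hw : (0:ℝ) < 2 ^ k := by positivity
  have h12 : ((1:ℝ) / 2) ^ k = 1 / 2 ^ k := by rw [div_pow, one_pow]
  have h14 : ((1:ℝ) / 4) ^ k = 1 / (2 ^ k) ^ 2 := by
    rw [div_pow, one_pow, ← pow_mul, mul_comm k 2, pow_mul]; norm_num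
  set P : ℝ := 2 ^ k / (n : ℝ) with hPdef
  have hP : 0 < P := by positivity
  have hnP : (n:ℝ) = 2 ^ k / P := by rw [hPdef]; field_simp
  set τ : ℝ := 2 ^ k * θ - 1 / 2 with hτ
  have heta : ∀ j : ℕ, (1 / 2 : ℝ) ^ k + |xx k j - θ| = (1 + |(j:ℝ) - τ|) / 2 ^ k := by
    intro j
    have h1 : xx k j - θ = ((j:ℝ) - τ) / 2 ^ k := by
      rw [xx, pow_succ, h12, hτ]
      field_simp
      ring
    rw [h1, abs_div, abs_of_pos hw, h12]
    ring
  unfold b
  split_ifs with hP1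
  · have h1 : ∀ j ∈ Finset.range (2 ^ k), ((1 / 4 : ℝ) ^ k * min ((n : ℝ) ^ 2)
        (((1 / 2) ^ k + |xx k j - θ|)⁻¹ ^ 2 * min 1 (P ^ 2))) ≤ P ^ 2 * (1 / (1 + |(j:ℝ) - τ|) ^ 2) := by
      intro j _
      have ha : 0 ≤ |(j:ℝ) - τ| := abs_nonneg _
      calc ((1 / 4 : ℝ) ^ k * min ((n : ℝ) ^ 2) (((1 / 2) ^ k + |xx k j - θ|)⁻¹ ^ 2 * min 1 (P ^ 2)))
          ≤ (1 / 4 : ℝ) ^ k * (((1 / 2) ^ k + |xx k j - θ|)⁻¹ ^ 2 * P ^ 2) := by
            apply mul_le_mul_of_nonneg_left _ (by positivity)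
            refine (min_le_right _ _).trans ?_
            apply mul_le_mul_of_nonneg_left (min_le_right _ _) (by positivity)
        _ = P ^ 2 * (1 / (1 + |(j:ℝ) - τ|) ^ 2) := by
            rw [heta j, h14]
            have : (1 + |(j:ℝ) - τ|) ≠ 0 := by positivity
            field_simp
    refine (Finset.sum_le_sum h1).trans ?_
    rw [← Finset.mul_sum]
    have h2 := sumA 1 τ (le_refl _) (2 ^ k)
    have h3 : (0:ℝ) ≤ P ^ 2 := by positivity
    nlinarith [mul_le_mul_of_nonneg_left h2 h3]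
  · push Not at hP1
    have h1 : ∀ j ∈ Finset.range (2 ^ k), ((1 / 4 : ℝ) ^ k * min ((n : ℝ) ^ 2)
        (((1 / 2) ^ k + |xx k j - θ|)⁻¹ ^ 2 * min 1 (P ^ 2))) ≤ 4 * (1 / (P + |(j:ℝ) - τ|) ^ 2) := by
      intro j _
      set a : ℝ := |(j:ℝ) - τ| with hadef
      have ha : 0 ≤ a := abs_nonneg _
      have h4 : (0:ℝ) ≤ (1 / 4) ^ k := by positivity
      rcases le_total a P with hc | hc
      · calc ((1 / 4 : ℝ) ^ k * min ((n : ℝ) ^ 2) (((1 / 2) ^ k + |xx k j - θ|)⁻¹ ^ 2 * min 1 (P ^ 2)))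
            ≤ (1 / 4 : ℝ) ^ k * (n : ℝ) ^ 2 := mul_le_mul_of_nonneg_left (min_le_left _ _) h4
          _ = 1 / P ^ 2 := by
              rw [hnP, h14]
              field_simp
          _ ≤ 4 * (1 / (P + a) ^ 2) := by
              rw [mul_one_div, div_le_div_iff₀ (by positivity) (by positivity)]
              nlinarith
      · have ha0 : 0 < a := lt_of_lt_of_le hP hc
        calc ((1 / 4 : ℝ) ^ k * min ((n : ℝ) ^ 2) (((1 / 2) ^ k + |xx k j - θ|)⁻¹ ^ 2 * min 1 (P ^ 2)))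
            ≤ (1 / 4 : ℝ) ^ k * (((1 / 2) ^ k + |xx k j - θ|)⁻¹ ^ 2 * 1) := by
              apply mul_le_mul_of_nonneg_left _ h4
              refine (min_le_right _ _).trans ?_
              apply mul_le_mul_of_nonneg_left (min_le_left _ _) (by positivity)
          _ = 1 / (1 + a) ^ 2 := by
              rw [heta j, h14, ← hadef]
              have : (1 + a) ≠ 0 := by positivity
              field_simp
          _ ≤ 4 * (1 / (P + a) ^ 2) := by
              rw [mul_one_div, div_le_div_iff₀ (by positivity) (by positivity)]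
              nlinarith
    refine (Finset.sum_le_sum h1).trans ?_
    rw [← Finset.mul_sum]
    have h2 := sumA P τ hP1.le (2 ^ k)
    have h3 : 16 / P = 4 * (4 / P) := by ring
    rw [h3]
    exact mul_le_mul_of_nonneg_left h2 (by norm_num)

theorem pot (r S : ℝ) (hr : 0 < r) (hS : S ≤ if r ≤ 1 then 4 * r else 36 - 32 / r) :
    S + b r ≤ if 2 * r ≤ 1 then 4 * (2 * r) else 36 - 32 / (2 * r) := by
  unfold b
  split_ifs at hS ⊢ with h1 h2 h3
  · nlinarith
  · push Not at h2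
    have h4 : 32 / (2 * r) = 16 / r := by field_simp; norm_num
    rw [h4]
    have h5 : 16 / r ≤ 36 - 4 * r - 4 * r ^ 2 := by
      rw [div_le_iff₀ hr]
      have h6 : 0 ≤ (r - 1 / 2) * (1 - r) := mul_nonneg (by linarith) (by linarith)
      nlinarith [mul_nonneg hr.le h6]
    linarith
  · exfalso; linarith
  · have h4 : 32 / (2 * r) = 16 / r := by field_simp; norm_num
    have h5 : 32 / r = 16 / r + 16 / r := by ring
    rw [h4]
    linarith

theorem psum (n : ℕ) (hn : 1 ≤ n) (m : ℕ) :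
    ∑ k ∈ Finset.range m, b (2 ^ k / (n : ℝ)) ≤
      if (2 : ℝ) ^ m / n ≤ 1 then 4 * (2 ^ m / (n:ℝ)) else 36 - 32 / (2 ^ m / (n:ℝ)) := by
  have hn0 : (0:ℝ) < n := by exact_mod_cast hn
  have hn1 : (1:ℝ) ≤ n := by exact_mod_cast hn
  induction m with
  | zero =>
    have h : (2:ℝ) ^ 0 / n ≤ 1 := by
      rw [pow_zero, div_le_one hn0]; exact hn1
    rw [if_pos h]
    simp
  | succ m ih =>
    rw [Finset.sum_range_succ]
    have e : (2:ℝ) ^ (m + 1) / n = 2 * (2 ^ m / n) := by rw [pow_succ]; ring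
    rw [e]
    exact pot _ _ (by positivity) ih

theorem psum_le (n : ℕ) (hn : 1 ≤ n) (m : ℕ) : ∑ k ∈ Finset.range m, b (2 ^ k / (n : ℝ)) ≤ 36 := by
  have hn0 : (0:ℝ) < n := by exact_mod_cast hn
  refine (psum n hn m).trans ?_
  split_ifs with h
  · linarith
  · have : 0 ≤ 32 / ((2:ℝ) ^ m / n) := by positivity
    linarith

theorem b_nonneg (r : ℝ) (hr : 0 < r) : 0 ≤ b r := by
  unfold b
  split_ifs <;> positivity

end SSumAux

open SSumAux

theorem sSum : SSum := by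
  refine ⟨36, by norm_num, fun n hn θ => ?_⟩
  have hn0 : (0:ℝ) < n := by exact_mod_cast hn
  apply ENNReal.tsum_le_of_sum_range_le
  intro m
  have h1 : ∀ k ∈ Finset.range m, ∑ j ∈ Finset.range (2 ^ k), ENNReal.ofReal ((1 / 4) ^ k * min ((n : ℝ) ^ 2)
        (((1 / 2) ^ k + |xx k j - θ|)⁻¹ ^ 2 * min 1 ((2 ^ k / (n : ℝ)) ^ 2))) ≤ ENNReal.ofReal (b (2 ^ k / (n : ℝ))) := by
    intro k _
    rw [← ENNReal.ofReal_sum_of_nonneg (fun j _ => by positivity)]
    exact ENNReal.ofReal_le_ofReal (gen n hn θ k)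
  refine (Finset.sum_le_sum h1).trans ?_
  rw [← ENNReal.ofReal_sum_of_nonneg (fun k _ => b_nonneg _ (by positivity))]
  exact ENNReal.ofReal_le_ofReal (psum_le n hn m)

end Pool.Agent.R201.UK
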