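import Pool.Agent.R201.UK.Stm

/-! # P6: integral of the logarithm of the distance to the wall of a tube -/

set_option autoImplicit false

open Set Metric MeasureTheory

namespace Pool.Agent.R201.UK

namespace WallAux

/-- one-dimensional integral -/
theorem int1 (h : ℝ) (hh : 0 < h) :
    ∫⁻ y in Ioo (-h) h, ENNReal.ofReal ((h - y) ^ (-(1 / 2) : ℝ)) =
      ENNReal.ofReal (2 * (2 * h) ^ ((1 / 2) : ℝ)) := by
  have hI : IntervalIntegrable (fun y : ℝ => (h - y) ^ (-(1 / 2) : ℝ)) volume (-h) h := by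
    have h0 : IntervalIntegrable (fun t : ℝ => t ^ (-(1 / 2) : ℝ)) volume (2 * h) 0 :=
      intervalIntegral.intervalIntegrable_rpow' (by norm_num)
    have h1 := h0.comp_sub_left h
    have e1 : h - 2 * h = -h := by ring
    rw [e1, sub_zero] at h1
    exact h1
  have h1 : ∫ y in (-h)..h, (h - y) ^ (-(1 / 2) : ℝ) = 2 * (2 * h) ^ ((1 / 2) : ℝ) := by
    rw [intervalIntegral.integral_comp_sub_left (fun t => t ^ (-(1 / 2) : ℝ))]
    rw [integral_rpow (Or.inl (by norm_num))]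
    have e1 : h - h = 0 := sub_self h
    have e2 : h - -h = 2 * h := by ring
    have e3 : (-(1 / 2) : ℝ) + 1 = 1 / 2 := by norm_num
    rw [e1, e2, e3, Real.zero_rpow (by norm_num)]
    ring
  rw [← h1, intervalIntegral.integral_of_le (by linarith), ← setIntegral_congr_set Ioo_ae_eq_Ioc,
    ofReal_integral_eq_lintegral_ofReal]
  · have h2 := (intervalIntegrable_iff_integrableOn_Ioc_of_le (by linarith)).1 hI
    exact h2.mono_set Ioo_subset_Ioc_self
  · filter_upwards [ae_restrict_mem measurableSet_Ioo] with y hy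
    exact Real.rpow_nonneg (by linarith [hy.2]) _

/-- reflected integral -/
theorem int2 (h : ℝ) (hh : 0 < h) :
    ∫⁻ y in Ioo (-h) h, ENNReal.ofReal ((h + y) ^ (-(1 / 2) : ℝ)) =
      ENNReal.ofReal (2 * (2 * h) ^ ((1 / 2) : ℝ)) := by
  rw [← int1 h hh]
  have e := (Measure.measurePreserving_neg (volume : Measure ℝ)).setLIntegral_comp_preimage_emb
    (Homeomorph.neg ℝ).measurableEmbedding
    (fun y => ENNReal.ofReal ((h + y) ^ (-(1 / 2) : ℝ))) (Ioo (-h) h)
  have e2 : (Neg.neg ⁻¹' Ioo (-h) h : Set ℝ) = Ioo (-h) h := by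
    ext y
    simp only [mem_preimage, mem_Ioo]
    constructor
    · rintro ⟨h1, h2⟩
      exact ⟨by linarith, by linarith⟩
    · rintro ⟨h1, h2⟩
      exact ⟨by linarith, by linarith⟩
  rw [← e, e2]
  rfl

/-- the slice function -/
noncomputable def kk (h y : ℝ) : ℝ :=
  h ^ (-(1 / 2) : ℝ) * ((h - y) ^ (-(1 / 2) : ℝ) + (h + y) ^ (-(1 / 2) : ℝ))

theorem intk (h : ℝ) (hh : 0 < h) :
    ∫⁻ y in Ioo (-h) h, ENNReal.ofReal (kk h y) ≤ ENNReal.ofReal 6 := by
  have h1 : ∀ y ∈ Ioo (-h) h, ENNReal.ofReal (kk h y) =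
      ENNReal.ofReal (h ^ (-(1 / 2) : ℝ)) * (ENNReal.ofReal ((h - y) ^ (-(1 / 2) : ℝ)) +
        ENNReal.ofReal ((h + y) ^ (-(1 / 2) : ℝ))) := by
    intro y hy
    have a1 : 0 ≤ (h - y) ^ (-(1 / 2) : ℝ) := Real.rpow_nonneg (by linarith [hy.2]) _
    have a2 : 0 ≤ (h + y) ^ (-(1 / 2) : ℝ) := Real.rpow_nonneg (by linarith [hy.1]) _
    rw [kk, ENNReal.ofReal_mul (Real.rpow_nonneg hh.le _), ENNReal.ofReal_add a1 a2]
  rw [setLIntegral_congr_fun measurableSet_Ioo h1]
  rw [lintegral_const_mul' _ _ ENNReal.ofReal_ne_top, lintegral_add_left (by fun_prop),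
    int1 h hh, int2 h hh]
  have b1 : 0 ≤ 2 * (2 * h) ^ ((1 / 2) : ℝ) := by positivity
  rw [← ENNReal.ofReal_add b1 b1, ← ENNReal.ofReal_mul (by positivity)]
  apply ENNReal.ofReal_le_ofReal
  have c1 : h ^ (-(1 / 2) : ℝ) * h ^ ((1 / 2) : ℝ) = 1 := by
    rw [← Real.rpow_add hh]
    norm_num
  have c2 : (2 * h) ^ ((1 / 2) : ℝ) = (2 : ℝ) ^ ((1 / 2) : ℝ) * h ^ ((1 / 2) : ℝ) :=
    Real.mul_rpow (by norm_num) hh.le
  have c3 : (2 : ℝ) ^ ((1 / 2) : ℝ) ≤ 3 / 2 := by
    rw [← Real.sqrt_eq_rpow]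
    rw [Real.sqrt_le_left (by norm_num)]
    norm_num
  calc h ^ (-(1 / 2) : ℝ) * (2 * (2 * h) ^ ((1 / 2) : ℝ) + 2 * (2 * h) ^ ((1 / 2) : ℝ))
      = 4 * (2 : ℝ) ^ ((1 / 2) : ℝ) * (h ^ (-(1 / 2) : ℝ) * h ^ ((1 / 2) : ℝ)) := by
        rw [c2]; ring
    _ ≤ 6 := by rw [c1]; linarith

theorem log_le (X : ℝ) (hX : 0 < X) : 1 + Real.log X ≤ 2 * Real.sqrt X := by
  have h1 : Real.log X = 2 * Real.log (Real.sqrt X) := by
    rw [Real.log_sqrt hX.le]; ring
  have h2 := Real.log_le_sub_one_of_pos (Real.sqrt_pos.2 hX)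
  rw [h1]; linarith

theorem kk_ge (h y : ℝ) (hh : 0 < h) (hy : |y| < h) : 1 / Real.sqrt (h * (h - |y|)) ≤ kk h y := by
  have a0 : 0 < h - |y| := by linarith
  have a1 : 0 ≤ (h - y) ^ (-(1 / 2) : ℝ) := Real.rpow_nonneg (by linarith [le_abs_self y]) _
  have a2 : 0 ≤ (h + y) ^ (-(1 / 2) : ℝ) := Real.rpow_nonneg (by linarith [neg_abs_le y]) _
  have a3 : (h - |y|) ^ (-(1 / 2) : ℝ) ≤
      (h - y) ^ (-(1 / 2) : ℝ) + (h + y) ^ (-(1 / 2) : ℝ) := by
    rcases abs_cases y with ⟨e, _⟩ | ⟨e, _⟩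
    · rw [e]; linarith
    · rw [e, sub_neg_eq_add]; linarith
  have a4 : 1 / Real.sqrt (h * (h - |y|)) = h ^ (-(1 / 2) : ℝ) * (h - |y|) ^ (-(1 / 2) : ℝ) := by
    rw [← Real.mul_rpow hh.le a0.le, Real.sqrt_eq_rpow, Real.rpow_neg (by positivity), one_div]
  rw [a4, kk]
  exact mul_le_mul_of_nonneg_left a3 (Real.rpow_nonneg hh.le _)

/-- pointwise bound -/
theorem ptw (α p y d : ℝ) (hα : 0 < α) (hD : p ^ 2 + y ^ 2 < α ^ 2)
    (hd : d ^ 2 ≤ p ^ 2 + y ^ 2) :
    1 + Real.log (2 * α / (α - d)) ≤ 4 * α * kk (Real.sqrt (α ^ 2 - p ^ 2)) y := by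
  set h := Real.sqrt (α ^ 2 - p ^ 2) with hh
  have h2 : 0 < α ^ 2 - p ^ 2 := by nlinarith [sq_nonneg y]
  have hh0 : 0 < h := Real.sqrt_pos.2 h2
  have hsq : h ^ 2 = α ^ 2 - p ^ 2 := Real.sq_sqrt h2.le
  have hy : |y| < h := by
    apply abs_lt_of_sq_lt_sq _ hh0.le
    rw [hsq]; linarith
  have hdα : d < α := by
    apply lt_of_pow_lt_pow_left₀ 2 hα.le
    linarith
  have hX : 0 < 2 * α / (α - d) := div_pos (by linarith) (by linarith)
  refine (log_le _ hX).trans ?_
  have hk := kk_ge h y hh0 hy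
  have a0 : 0 < h - |y| := by linarith
  have a1 : 0 < h * (h - |y|) := mul_pos hh0 a0
  have hle : 2 * α / (α - d) ≤ (2 * α) ^ 2 / (h * (h - |y|)) := by
    rw [div_le_div_iff₀ (by linarith) a1]
    have b1 : h * (h - |y|) ≤ (α - d) * (α + d) := by
      have : h * (h - |y|) ≤ h ^ 2 - |y| ^ 2 := by nlinarith [abs_nonneg y]
      have e : |y| ^ 2 = y ^ 2 := sq_abs y
      nlinarith
    have b2 : (α - d) * (α + d) ≤ (α - d) * (2 * α) :=
      mul_le_mul_of_nonneg_left (by linarith) (by linarith)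
    nlinarith
  calc 2 * Real.sqrt (2 * α / (α - d)) ≤ 2 * Real.sqrt ((2 * α) ^ 2 / (h * (h - |y|))) := by
        have := Real.sqrt_le_sqrt hle
        linarith
    _ = 4 * α * (1 / Real.sqrt (h * (h - |y|))) := by
        rw [Real.sqrt_div (by positivity), Real.sqrt_sq (by linarith)]; ring
    _ ≤ 4 * α * kk h y := mul_le_mul_of_nonneg_left hk (by linarith)

/-- the distance from a real number to `[0, l]` -/
noncomputable def pp (l x : ℝ) : ℝ := max 0 (max (-x) (x - l))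

theorem pp_nonneg (l x : ℝ) : 0 ≤ pp l x := le_max_left _ _

theorem pp_le (l x s : ℝ) (hs0 : 0 ≤ s) (hs1 : s ≤ l) : pp l x ^ 2 ≤ (x - s) ^ 2 := by
  have h1 : pp l x ≤ |x - s| := by
    unfold pp
    refine max_le (abs_nonneg _) (max_le ?_ ?_)
    · exact le_trans (by linarith) (neg_le_abs (x - s))
    · exact le_trans (by linarith) (le_abs_self (x - s))
  calc pp l x ^ 2 ≤ |x - s| ^ 2 := pow_le_pow_left₀ (pp_nonneg l x) h1 2
    _ = (x - s) ^ 2 := sq_abs _

theorem pp_attained (l x : ℝ) (hl : 0 ≤ l) : ∃ s, 0 ≤ s ∧ s ≤ l ∧ pp l x ^ 2 = (x - s) ^ 2 := by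
  unfold pp
  rcases le_total x 0 with h0 | h0
  · refine ⟨0, le_refl _, hl, ?_⟩
    rw [max_eq_right, max_eq_left (by linarith)]
    · ring
    · exact le_trans (by linarith) (le_max_left _ _)
  · rcases le_total x l with h1 | h1
    · refine ⟨x, h0, h1, ?_⟩
      rw [max_eq_left (max_le (by linarith) (by linarith))]
      ring
    · refine ⟨l, hl, le_refl _, ?_⟩
      rw [max_eq_right, max_eq_right (by linarith)]
      exact le_trans (by linarith) (le_max_right _ _)

/-- the placement -/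
noncomputable def Fi (a : ℂ) (u : Circle) : ℂ ≃ᵢ ℂ :=
  (rotation u).toIsometryEquiv.trans (IsometryEquiv.addLeft a)

theorem Fi_apply (a : ℂ) (u : Circle) (z : ℂ) : Fi a u z = a + u * z := rfl

theorem Fi_mp (a : ℂ) (u : Circle) : MeasurePreserving (Fi a u) volume volume := by
  have h1 := (measurePreserving_add_left (volume : Measure ℂ) a)
  exact h1.comp (LinearIsometryEquiv.measurePreserving (rotation u))

theorem seg (a b : ℂ) : ∃ u : Circle, b = a + u * (dist a b : ℝ) := by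
  by_cases h : a = b
  · exact ⟨1, by simp [h]⟩
  · have h1 : b - a ≠ 0 := sub_ne_zero.2 (Ne.symm h)
    have h2 : (‖b - a‖ : ℂ) ≠ 0 := by exact_mod_cast norm_ne_zero_iff.2 h1
    have h3 : (b - a) / (‖b - a‖ : ℂ) ∈ Submonoid.unitSphere ℂ := by
      refine mem_sphere_zero_iff_norm.2 ?_
      rw [norm_div, Complex.norm_real, norm_norm, div_self (norm_ne_zero_iff.2 h1)]
    let v : Circle := ⟨(b - a) / (‖b - a‖ : ℂ), h3⟩
    have hv : (v : ℂ) = (b - a) / (‖b - a‖ : ℂ) := rfl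
    refine ⟨v, ?_⟩
    have e : dist a b = ‖b - a‖ := by rw [dist_comm, dist_eq_norm]
    rw [e, hv, div_mul_cancel₀ _ h2]
    ring

end WallAux

open WallAux

theorem sWall : SWall := by
  refine ⟨48, by norm_num, fun a b α hα => ?_⟩
  obtain ⟨u, hu⟩ := seg a b
  set l := dist a b with hl
  have hl0 : 0 ≤ l := dist_nonneg
  set S := segment ℝ a b with hS
  have hSmem : ∀ s : ℝ, 0 ≤ s → s ≤ l → Fi a u (s : ℂ) ∈ S := by
    intro s h0 h1
    rw [hS, segment_eq_image']
    rcases eq_or_lt_of_le hl0 with e | e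
    · refine ⟨0, by simp, ?_⟩
      have : s = 0 := by linarith
      simp [this, Fi_apply]
    · refine ⟨s / l, ⟨by positivity, (div_le_one e).2 h1⟩, ?_⟩
      simp only [Fi_apply]
      have h2 : (l : ℂ) ≠ 0 := by exact_mod_cast e.ne'
      rw [hu]
      simp only [Complex.real_smul, Complex.ofReal_div]
      field_simp
      ring
  have hSmem' : ∀ w ∈ S, ∃ s : ℝ, 0 ≤ s ∧ s ≤ l ∧ w = Fi a u (s : ℂ) := by
    intro w hw
    rw [hS, segment_eq_image'] at hw
    obtain ⟨t, ht, rfl⟩ := hw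
    refine ⟨t * l, mul_nonneg ht.1 hl0, by nlinarith [ht.2], ?_⟩
    simp only [Fi_apply]
    rw [hu]
    simp only [Complex.real_smul, Complex.ofReal_mul]
    ring
  have hdist : ∀ (z : ℂ) (s : ℝ), dist (Fi a u z) (Fi a u (s : ℂ)) ^ 2 = (z.re - s) ^ 2 + z.im ^ 2 := by
    intro z s
    rw [(Fi a u).dist_eq, Complex.dist_eq, ← Complex.normSq_eq_norm_sq, Complex.normSq_apply]
    simp
    ring
  rw [← (Fi_mp a u).setLIntegral_comp_preimage_emb (Fi a u).toHomeomorph.measurableEmbedding]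
  set G : ℝ × ℝ → ENNReal := fun q => (Ioo (-α) (l + α)).indicator (fun x =>
    (Ioo (-(Real.sqrt (α ^ 2 - pp l x ^ 2))) (Real.sqrt (α ^ 2 - pp l x ^ 2))).indicator
      (fun y => ENNReal.ofReal (4 * α) * ENNReal.ofReal (kk (Real.sqrt (α ^ 2 - pp l x ^ 2)) y)) q.2) q.1
    with hG
  have hpt : ∀ z ∈ (Fi a u) ⁻¹' thickening α S,
      ENNReal.ofReal (1 + Real.log (2 * α / (α - infDist (Fi a u z) S))) ≤
        G (Complex.measurableEquivRealProd z) := by
    intro z hz
    rw [mem_preimage, mem_thickening_iff] at hz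
    obtain ⟨w, hw, hzw⟩ := hz
    obtain ⟨s, hs0, hs1, rfl⟩ := hSmem' w hw
    have h1 : pp l z.re ^ 2 + z.im ^ 2 < α ^ 2 := by
      have h2 := pp_le l z.re s hs0 hs1
      have h3 := hdist z s
      have h4 : dist (Fi a u z) (Fi a u (s : ℂ)) ^ 2 < α ^ 2 := pow_lt_pow_left₀ hzw dist_nonneg (by norm_num)
      linarith
    obtain ⟨s', hs0', hs1', hs'⟩ := pp_attained l z.re hl0
    have h2 : infDist (Fi a u z) S ^ 2 ≤ pp l z.re ^ 2 + z.im ^ 2 := by
      have h3 := infDist_le_dist_of_mem (x := Fi a u z) (hSmem s' hs0' hs1')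
      rw [hs', ← hdist z s']
      exact pow_le_pow_left₀ infDist_nonneg h3 2
    have h3 := ptw α (pp l z.re) z.im (infDist (Fi a u z) S) hα h1 h2
    have hp2 : pp l z.re < α := by
      apply lt_of_pow_lt_pow_left₀ 2 hα.le
      nlinarith [sq_nonneg z.im]
    have hx1 : z.re ∈ Ioo (-α) (l + α) := by
      unfold pp at hp2
      rw [max_lt_iff, max_lt_iff] at hp2
      exact ⟨by linarith [hp2.2.1], by linarith [hp2.2.2]⟩
    have hx2 : z.im ∈ Ioo (-(Real.sqrt (α ^ 2 - pp l z.re ^ 2))) (Real.sqrt (α ^ 2 - pp l z.re ^ 2)) := by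
      have : |z.im| < Real.sqrt (α ^ 2 - pp l z.re ^ 2) := by
        apply Real.lt_sqrt_of_sq_lt
        rw [sq_abs]
        linarith
      exact abs_lt.1 this
    rw [hG]
    simp only [Complex.measurableEquivRealProd_apply]
    rw [indicator_of_mem hx1, indicator_of_mem hx2, ← ENNReal.ofReal_mul (by linarith)]
    exact ENNReal.ofReal_le_ofReal h3
  calc ∫⁻ z in (Fi a u) ⁻¹' thickening α S,
        ENNReal.ofReal (1 + Real.log (2 * α / (α - infDist (Fi a u z) S)))
      ≤ ∫⁻ z in (Fi a u) ⁻¹' thickening α S, G (Complex.measurableEquivRealProd z) :=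
        setLIntegral_mono' ((Fi a u).continuous.measurable (isOpen_thickening.measurableSet)) hpt
    _ ≤ ∫⁻ z, G (Complex.measurableEquivRealProd z) := setLIntegral_le_lintegral _ _
    _ = ∫⁻ q, G q := Complex.volume_preserving_equiv_real_prod.lintegral_comp_emb
        Complex.measurableEquivRealProd.measurableEmbedding G
    _ ≤ ∫⁻ x, ∫⁻ y, G (x, y) := lintegral_prod_le G
    _ ≤ ∫⁻ x, (Ioo (-α) (l + α)).indicator (fun _ => ENNReal.ofReal (24 * α)) x := by
        apply lintegral_mono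
        intro x
        rw [hG]
        by_cases hx : x ∈ Ioo (-α) (l + α)
        · simp only [indicator_of_mem hx]
          rw [lintegral_indicator measurableSet_Ioo, lintegral_const_mul' _ _ ENNReal.ofReal_ne_top]
          by_cases h0 : 0 < Real.sqrt (α ^ 2 - pp l x ^ 2)
          · calc ENNReal.ofReal (4 * α) * _ ≤ ENNReal.ofReal (4 * α) * ENNReal.ofReal 6 :=
                  mul_le_mul_right (intk _ h0) _
              _ = ENNReal.ofReal (24 * α) := by
                  rw [← ENNReal.ofReal_mul (by linarith)]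
                  congr 1
                  ring
          · have : Ioo (-(Real.sqrt (α ^ 2 - pp l x ^ 2))) (Real.sqrt (α ^ 2 - pp l x ^ 2)) = ∅ := by
              apply Ioo_eq_empty
              intro h
              apply h0
              linarith
            rw [this]
            simp
        · simp only [indicator_of_notMem hx]
          simp
    _ = ENNReal.ofReal (24 * α) * ENNReal.ofReal (l + 2 * α) := by
        rw [lintegral_indicator measurableSet_Ioo, setLIntegral_const, Real.volume_Ioo]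
        congr 2
        ring
    _ ≤ ENNReal.ofReal (48 * α * (α + l)) := by
        rw [← ENNReal.ofReal_mul (by linarith)]
        apply ENNReal.ofReal_le_ofReal
        nlinarith [mul_nonneg hα.le hl0]

end Pool.Agent.R201.UK
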