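import Pool.Agent.R201.UK.Defs
import Pool.Agent.R229.HN.RM

/-! # Statements of the pieces -/

set_option autoImplicit false

open Set Metric MeasureTheory

namespace Pool.Agent.R201.UK

/-- P1: area formula for the Dirichlet integral. -/
def SArea : Prop := ∀ f : ℂ → ℂ, DifferentiableOn ℂ f (ball 0 1) →
  ∫⁻ z in ball (0 : ℂ) 1, ENNReal.ofReal (‖deriv f z‖ ^ 2) =
    ENNReal.ofReal Real.pi * ∑' n : ℕ, ENNReal.ofReal ((n : ℝ) * ‖tc f n‖ ^ 2)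

/-- P2: point evaluations. -/
def SEval : Prop := ∀ f : ℂ → ℂ, DifferentiableOn ℂ f (ball 0 1) → ∀ z ∈ ball (0 : ℂ) 1,
  ENNReal.ofReal (‖f z‖ ^ 2) ≤ ENNReal.ofReal (1 - Real.log (1 - ‖z‖)) * dn f

/-- P3: the scalar criterion. -/
def SOp : Prop := ∀ C : ℝ, 0 ≤ C → ∃ C' : ℝ, ∀ g : ℂ → ℂ, DifferentiableOn ℂ g (ball 0 1) →
  (∀ z ∈ ball (0 : ℂ) 1, ‖g z‖ ≤ 1) →
  ∫⁻ z in ball (0 : ℂ) 1, ENNReal.ofReal (1 - Real.log (1 - ‖z‖)) *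
    ENNReal.ofReal (‖deriv g z‖ ^ 2) ≤ ENNReal.ofReal C →
  ∀ f : ℂ → ℂ, InD f → dn (fun z => g z * f z) ≤ ENNReal.ofReal C' * dn f

/-- P4: bounds of the derivative of the Cesaro polynomial on the pieces (box form). -/
def SPn : Prop := ∃ C : ℝ, 0 ≤ C ∧ ∀ l : ℂ, ‖l‖ = 1 → ∃ θ : ℝ, ∀ n : ℕ, 1 ≤ n → ∀ k j : ℕ,
  j < 2 ^ k → ∀ w : ℂ, |w.re - xx k j| ≤ 3 / 8 * (1 / 2) ^ k →
    3 / 8 * (1 / 2) ^ k ≤ w.im → w.im ≤ 9 / 8 * (1 / 2) ^ k →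
    ‖deriv (pn n) (l * Complex.exp (Complex.I * w))‖ ^ 2 ≤
      C * min ((n : ℝ) ^ 2)
        (((1 / 2) ^ k + |xx k j - θ|)⁻¹ ^ 2 * min 1 ((2 ^ k / (n : ℝ)) ^ 2))

/-- P5: the sum estimate. -/
def SSum : Prop := ∃ C : ℝ, 0 ≤ C ∧ ∀ n : ℕ, 1 ≤ n → ∀ θ : ℝ,
  ∑' k : ℕ, ∑ j ∈ Finset.range (2 ^ k), ENNReal.ofReal ((1 / 4) ^ k * min ((n : ℝ) ^ 2)
        (((1 / 2) ^ k + |xx k j - θ|)⁻¹ ^ 2 * min 1 ((2 ^ k / (n : ℝ)) ^ 2))) ≤ ENNReal.ofReal C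

/-- P6: integral of the logarithm of the distance to the wall of a tube. -/
def SWall : Prop := ∃ C : ℝ, 0 ≤ C ∧ ∀ a b : ℂ, ∀ α : ℝ, 0 < α →
  ∫⁻ w in Metric.thickening α (segment ℝ a b),
    ENNReal.ofReal (1 + Real.log (2 * α / (α - infDist w (segment ℝ a b)))) ≤
      ENNReal.ofReal (C * α * (α + dist a b))

/-- P7a: location of the pieces. -/
def SBox : Prop := ∀ k j : ℕ, ∀ w ∈ TT k j,
  |w.re - xx k j| ≤ 3 / 8 * (1 / 2) ^ k ∧ 3 / 8 * (1 / 2) ^ k ≤ w.im ∧ w.im ≤ 9 / 8 * (1 / 2) ^ k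

/-- P7b: the tree domain is a bounded domain on which zero free functions have roots. -/
def SDom : Prop := IsOpen Om ∧ IsConnected Om ∧ Bornology.IsBounded Om ∧ R229.HN.CS Om

/-- P8a: Schwarz-Pick along a segment. -/
def SSeg : Prop := ∀ (U : Set ℂ) (F : ℂ → ℂ), DifferentiableOn ℂ F U → MapsTo F U (ball 0 1) →
  ∀ (a b : ℂ) (r : ℝ), 0 < r → (∀ c ∈ segment ℝ a b, ball c r ⊆ U) →
    LL F b ≤ LL F a + Real.log 4 * (2 * dist a b / r + 1)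

/-- P8b: Schwarz-Pick in a disc. -/
def SDisc : Prop := ∀ (U : Set ℂ) (F : ℂ → ℂ), DifferentiableOn ℂ F U → MapsTo F U (ball 0 1) →
  ∀ (c w : ℂ) (r : ℝ), 0 < r → ball c r ⊆ U → dist w c < r →
    LL F w ≤ LL F c + Real.log (2 * r / (r - dist w c))

/-- P8c: bound of the logarithmic size on the pieces. -/
def SLog : Prop := ∀ F : ℂ → ℂ, DifferentiableOn ℂ F Om → MapsTo F Om (ball 0 1) →
  F (PP 0 0) = 0 → ∀ k j : ℕ, j < 2 ^ k →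
    (∀ w ∈ VV k j, LL F w ≤ 60 * (3 / 2) ^ k +
      Real.log (2 * al k / (al k - infDist w (segment ℝ (PP k j) (QQ k j))))) ∧
    (∀ w ∈ HH k j, LL F w ≤ 60 * (3 / 2) ^ k +
      Real.log (2 * al k / (al k - infDist w
        (segment ℝ (PP (k + 1) (2 * j)) (PP (k + 1) (2 * j + 1))))))

/-- P9: change of variables for a conformal map. -/
def SCov : Prop := ∀ (U : Set ℂ) (F ψ : ℂ → ℂ), DifferentiableOn ℂ ψ (ball 0 1) →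
  (∀ z ∈ ball (0 : ℂ) 1, ψ z ∈ U ∧ F (ψ z) = z) → (∀ w ∈ U, F w ∈ ball (0 : ℂ) 1 ∧ ψ (F w) = w) →
  ∀ h : ℂ → ENNReal, ∫⁻ z in ball (0 : ℂ) 1, h z * ENNReal.ofReal (‖deriv ψ z‖ ^ 2) =
    ∫⁻ w in U, h (F w)

/-- P10: lower bound. -/
def SLow : Prop := ∃ c : ℝ, 0 < c ∧ ∀ k : ℕ,
  ENNReal.ofReal (c * (1 / 3) ^ k) ≤
    ∫⁻ w in Om, ENNReal.ofReal (Real.exp (-(2 * (2 : ℝ) ^ k * w.im)))

/-- The main theorem. -/
def SMain : Prop := ∃ φ : ℂ → ℂ, IsMultiplier φ ∧ UKB φ ∧ ¬ PB φ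

end Pool.Agent.R201.UK
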